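import Pool.Agent.H126T.Field
import Pool.Agent.W350.Eigen
import Pool.Agent.W350.Schur

/-!
# Frobenius eigenvalues of hyperelliptic curves over finite fields, and tensor constructions
-/

set_option autoImplicit false
set_option linter.unusedSectionVars false

namespace Pool.Agent.W385.GA.Curve

open Polynomial Finset Pool.Agent.H126T

section
variable {k : Type} [Field k] [Fintype k] [DecidableEq k]

theorem quadChar_ext (hk : ringChar k ≠ 2) (m : ℕ) {E : Type} [Field E] [Fintype E]
    [DecidableEq E] [Algebra k E] (hE : Fintype.card E = Fintype.card k ^ m) {a : k} (ha : a ≠ 0) :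
    quadraticChar E (algebraMap k E a) = quadraticChar k a ^ m := by
  have hF : ringChar E ≠ 2 := by rwa [← Algebra.ringChar_eq k E]
  set q := Fintype.card k with hq
  obtain ⟨c, hc⟩ : Odd q := Nat.odd_iff.2 (FiniteField.odd_card_of_char_ne_two hk)
  have hgeom : (∑ j ∈ Finset.range m, q ^ j) * (2 * c) + 1 = q ^ m := by
    have := geom_sum_mul_add (2 * c) m
    rw [← hc] at this
    exact this
  have hhalf : q ^ m / 2 = c * ∑ j ∈ Finset.range m, q ^ j := by
    have : q ^ m = 2 * (c * ∑ j ∈ Finset.range m, q ^ j) + 1 := by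
      rw [← hgeom]; ring
    omega
  have hp2 : q / 2 = c := by omega
  have hL : quadraticChar k a = 1 ∨ quadraticChar k a = -1 := quadraticChar_dichotomy ha
  have hpow : (algebraMap k E a) ^ c = ((quadraticChar k a : ℤ) : E) := by
    have h1 := quadraticChar_eq_pow_of_char_ne_two' hk a
    rw [← hq, hp2] at h1
    have h2 := congrArg (algebraMap k E) h1
    rw [map_pow, map_intCast] at h2
    exact h2.symm
  have hDF : algebraMap k E a ≠ 0 := by
    rwa [Ne, FaithfulSMul.algebraMap_eq_zero_iff]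
  have h1 := quadraticChar_eq_pow_of_char_ne_two' hF (algebraMap k E a)
  rw [hE, hhalf, pow_mul, hpow] at h1
  have hodd : Odd (∑ j ∈ Finset.range m, q ^ j) ↔ Odd m := by
    have h3 : ∀ n, Odd (∑ j ∈ Finset.range n, q ^ j) ↔ Odd n := by
      intro n
      induction n with
      | zero => simp
      | succ n ih =>
        rw [Finset.sum_range_succ, Nat.odd_add, ih, Nat.odd_add_one]
        have h4 : ¬ Even (q ^ n) := by
          rw [Nat.not_even_iff_odd]
          exact Odd.pow ⟨c, hc⟩
        simp only [h4, iff_false]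
    exact h3 m
  have hne : (-1 : E) ≠ 1 := Ring.neg_one_ne_one_of_char_ne_two hF
  have hE' : quadraticChar E (algebraMap k E a) = 1 ∨ quadraticChar E (algebraMap k E a) = -1 :=
    quadraticChar_dichotomy hDF
  rcases hL with hL | hL
  · rw [hL] at h1 ⊢
    rw [one_pow]
    rw [Int.cast_one, one_pow] at h1
    rcases hE' with h | h
    · exact h
    · rw [h, Int.cast_neg, Int.cast_one] at h1
      exact absurd h1 hne
  · rw [hL] at h1 ⊢
    rcases Nat.even_or_odd m with hm | hm
    · rw [hm.neg_one_pow]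
      have h5 : Even (∑ j ∈ Finset.range m, q ^ j) := by
        rw [← Nat.not_odd_iff_even, hodd, Nat.not_odd_iff_even]
        exact hm
      rw [Int.cast_neg, Int.cast_one, h5.neg_one_pow] at h1
      rcases hE' with h | h
      · exact h
      · rw [h, Int.cast_neg, Int.cast_one] at h1
        exact absurd h1 hne
    · rw [hm.neg_one_pow]
      rw [Int.cast_neg, Int.cast_one, (hodd.2 hm).neg_one_pow] at h1
      rcases hE' with h | h
      · rw [h, Int.cast_one] at h1
        exact absurd h1.symm hne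
      · exact h

/-- Frobenius eigenvalues of the curve `d y² = f(x)`, `deg f` odd, over a finite field. -/
theorem eigen_field (hk : ringChar k ≠ 2) (f : k[X]) (hf : Odd f.natDegree) {d : k} (hd : d ≠ 0) :
    ∃ β : ℕ → ℂ, (∀ j, ‖β j‖ ≤ Real.sqrt (Nat.card k)) ∧ (∀ j, f.natDegree - 1 ≤ j → β j = 0) ∧
      ∀ m, 1 ≤ m → (((Nat.card k : ℤ) ^ m + 1 - (affPts k f d m + 1) : ℤ) : ℂ) =
        ∑ j ∈ range (f.natDegree - 1), β j ^ m := by
  classical
  set c : k := f.leadingCoeff with hc
  have hf0 : f ≠ 0 := by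
    rintro rfl
    rw [natDegree_zero] at hf
    exact absurd hf (by decide)
  have hc0 : c ≠ 0 := leadingCoeff_ne_zero.2 hf0
  set g1 : k[X] := C c⁻¹ * f with hg1
  have hgg1 : f = C c * g1 := by
    rw [hg1, ← mul_assoc, ← C_mul, mul_inv_cancel₀ hc0, C_1, one_mul]
  have hmon : g1.Monic := by
    rw [Monic, hg1, leadingCoeff_mul, leadingCoeff_C, ← hc, inv_mul_cancel₀ hc0]
  have hg1d : g1.natDegree = f.natDegree := by
    rw [hg1, natDegree_C_mul (inv_ne_zero hc0)]
  obtain ⟨α, hα1, hα2, hα3⟩ := Pool.Agent.W350.eigen_monic hk hmon (by rw [hg1d]; exact hf.pos) (by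
    intro a h hgh
    have h5 : a ≠ 0 := by
      rintro rfl
      rw [C_0, zero_mul] at hgh
      rw [hgh, natDegree_zero] at hg1d
      rw [← hg1d] at hf
      exact absurd hf (by decide)
    have h6 : g1.natDegree = 2 * h.natDegree := by
      rw [hgh, natDegree_C_mul h5, natDegree_pow]
    rw [← hg1d, h6] at hf
    exact (Nat.not_odd_iff_even.2 (even_two_mul _)) hf)
  rw [hg1d] at hα2 hα3
  have hdc : d * c ≠ 0 := mul_ne_zero hd hc0
  have hq : quadraticChar k (d * c) = 1 ∨ quadraticChar k (d * c) = -1 :=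
    quadraticChar_dichotomy hdc
  refine ⟨fun j => ((quadraticChar k (d * c) : ℤ) : ℂ) * α j, ?_, ?_, ?_⟩
  · intro j
    beta_reduce
    rw [norm_mul, Nat.card_eq_fintype_card]
    rcases hq with h1 | h1 <;> rw [h1] <;> simpa using hα1 j
  · intro j hj
    beta_reduce
    rw [hα2 j hj, mul_zero]
  · intro m hm
    have hm0 : m ≠ 0 := by omega
    obtain ⟨E, i1, i2, i3, hE⟩ := exists_ext (k := k) m hm0
    let _ := Fintype.ofFinite E
    have hE' : Fintype.card E = Fintype.card k ^ m := by
      rw [← Nat.card_eq_fintype_card, hE, Nat.card_eq_fintype_card]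
    have hE2 : ringChar E ≠ 2 := by rwa [← Algebra.ringChar_eq k E]
    have hd' : algebraMap k E d ≠ 0 := by
      rwa [Ne, FaithfulSMul.algebraMap_eq_zero_iff]
    have h1 : (affPts k f d m : ℤ) = (Nat.card k : ℤ) ^ m + quadraticChar E (algebraMap k E d) *
        ∑ x : E, quadraticChar E (aeval x f) := by
      rw [affPts_eq f d m E hE]
      have h2 := card_aff hE2 (f.map (algebraMap k E)) (algebraMap k E d) hd'
      have e1 : {P : E × E // algebraMap k E d * P.2 ^ 2 = aeval P.1 f} =
          {P : E × E // algebraMap k E d * P.2 ^ 2 = (f.map (algebraMap k E)).eval P.1} := by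
        congr 1
        funext P
        rw [eval_map, aeval_def]
      rw [e1, h2, hE', Nat.card_eq_fintype_card]
      push_cast
      congr 2
      refine Finset.sum_congr rfl fun x _ => ?_
      rw [eval_map, aeval_def]
    have : Module.Finite k E := Module.Finite.of_finite
    have hfr : Module.finrank k E = m := by
      have h3 := Module.card_eq_pow_finrank (K := k) (V := E)
      rw [hE'] at h3
      exact (Nat.pow_right_injective (Fintype.one_lt_card (α := k)) h3).symm
    have hT := Pool.Agent.H341R2.Sharp.T_eq_sum (F := k) (E := E) hk g1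
    rw [hfr] at hT
    have hS : (∑ x : E, quadraticChar E (aeval x f)) =
        quadraticChar k c ^ m * Pool.Agent.H341R2.Sharp.T g1 m := by
      rw [hT, Finset.mul_sum]
      refine Finset.sum_congr rfl fun x _ => ?_
      have h2 : aeval x f = algebraMap k E c * aeval x g1 := by
        conv_lhs => rw [hgg1]
        rw [map_mul, aeval_C]
      rw [h2, map_mul, quadChar_ext hk m hE' hc0]
    rw [h1, hS, quadChar_ext hk m hE' hd]
    push_cast
    rw [hα3 m hm]
    simp only [mul_pow]
    rw [← Finset.mul_sum, map_mul]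
    push_cast
    ring

open Classical in
/-- the bound for the direct summands of tensor products of `H¹` of curves -/
theorem tensor_bound (hk : ringChar k ≠ 2) {n : ℕ} (g : Fin n → k[X])
    (hodd : ∀ j, Odd (g j).natDegree) (e : MonoidAlgebra ℚ (Equiv.Perm (Fin n))) (he : e * e = e)
    (hinv : ∀ σ, e.coeff σ ≠ 0 → ∀ j, g (σ j) = g j) {m : ℕ} (hm : 1 ≤ m) :
    ‖∑ σ : Equiv.Perm (Fin n), ((e.coeff σ * ((Equiv.Perm.sign σ : ℤ) : ℚ) : ℚ) : ℂ) *
      ∏ q : Pool.Agent.W350.Orb σ, (((Nat.card k : ℤ) ^ (m * Pool.Agent.W350.len σ q) + 1 -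
        (affPts k (g q.out) 1 (m * Pool.Agent.W350.len σ q) + 1) : ℤ) : ℂ)‖ ≤
      ((∑ σ : Equiv.Perm (Fin n), e.coeff σ * ((Equiv.Perm.sign σ : ℤ) : ℚ) *
        ∏ q : Pool.Agent.W350.Orb σ, (((g q.out).natDegree - 1 : ℕ) : ℚ) : ℚ) : ℝ) *
        (Nat.card k : ℝ) ^ ((n : ℝ) * m / 2) := by
  have hex : ∀ g : k[X], ∃ β : ℕ → ℂ, Odd g.natDegree →
      (∀ j, ‖β j‖ ≤ Real.sqrt (Nat.card k)) ∧ (∀ j, g.natDegree - 1 ≤ j → β j = 0) ∧
      ∀ m, 1 ≤ m → (((Nat.card k : ℤ) ^ m + 1 - (affPts k g 1 m + 1) : ℤ) : ℂ) =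
        ∑ j ∈ range (g.natDegree - 1), β j ^ m := by
    intro g
    by_cases h : Odd g.natDegree
    · obtain ⟨β, hβ⟩ := eigen_field hk g h one_ne_zero
      exact ⟨β, fun _ => hβ⟩
    · exact ⟨0, fun h' => absurd h' h⟩
  choose B hB using hex
  have hB' : ∀ j, (∀ a, ‖B (g j) a‖ ≤ Real.sqrt (Nat.card k)) ∧
      (∀ a, (g j).natDegree - 1 ≤ a → B (g j) a = 0) ∧
      ∀ m, 1 ≤ m → (((Nat.card k : ℤ) ^ m + 1 - (affPts k (g j) 1 m + 1) : ℤ) : ℂ) =
        ∑ a ∈ range ((g j).natDegree - 1), B (g j) a ^ m :=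
    fun j => hB (g j) (hodd j)
  set N : ℕ := ∑ j, (g j).natDegree with hN
  have hr : ∀ j, (g j).natDegree - 1 ≤ N := fun j =>
    (Nat.sub_le _ _).trans (Finset.single_le_sum (f := fun j => (g j).natDegree)
      (fun _ _ => Nat.zero_le _) (mem_univ j))
  have h1 := Pool.Agent.W350.schur_bound (N := N) e he (fun j a => B (g j) a)
    (fun j => (g j).natDegree - 1) hr
    (fun j a ha => (hB' j).2.1 a ha) (c := Real.sqrt (Nat.card k)) (fun j a => (hB' j).1 a)
    (fun σ hσ j => by simp only [hinv σ hσ j]; exact ⟨trivial, trivial⟩) hm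
  have h2 : ∀ σ : Equiv.Perm (Fin n), ∀ q : Pool.Agent.W350.Orb σ,
      (((Nat.card k : ℤ) ^ (m * Pool.Agent.W350.len σ q) + 1 -
        (affPts k (g q.out) 1 (m * Pool.Agent.W350.len σ q) + 1) : ℤ) : ℂ) =
        ∑ a : Fin N, (B (g q.out) a) ^ (m * Pool.Agent.W350.len σ q) := by
    intro σ q
    have h3 : 1 ≤ m * Pool.Agent.W350.len σ q := Nat.mul_pos hm (Pool.Agent.W350.len_pos σ q)
    rw [(hB' q.out).2.2 _ h3,
      Fin.sum_univ_eq_sum_range (fun a => B (g q.out) a ^ (m * Pool.Agent.W350.len σ q)) N]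
    refine Finset.sum_subset (Finset.range_mono (hr q.out)) fun a _ ha => ?_
    rw [(hB' q.out).2.1 a (by simpa using ha), zero_pow (by omega)]
  simp only [h2]
  refine h1.trans (le_of_eq ?_)
  rw [mul_comm]
  congr 1
  rw [← pow_mul, Real.sqrt_eq_rpow, ← Real.rpow_natCast, ← Real.rpow_mul (Nat.cast_nonneg _)]
  congr 1
  push_cast
  ring

end

end Pool.Agent.W385.GA.Curve
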