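import Pool.Agent.W385.GA.Orders

/-!
# The abstract form of the three parts
-/

set_option autoImplicit false
set_option linter.style.haveILetI false
set_option linter.unusedSectionVars false

namespace Pool.Agent.W385.GA

open Complex Filter Topology Pool.Agent.H341R2 NumberField IsDedekindDomain
  Pool.Agent.W401.Cheb Pool.Agent.W540.BE

section
variable {F : Type} [Field F] [NumberField F]

/-- the size of `L` near the point `pt τ` -/
noncomputable def sz (pt : ℝ → ℂ) (L : ℂ → ℂ) (τ ε : ℝ) : ℝ :=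
  Real.log ‖L (pt τ + ε)‖ / Real.log (1 / ε)

/-- the order of `L` at the point `pt τ` -/
def HO (pt : ℝ → ℂ) (L : ℂ → ℂ) (τ : ℝ) (m : ℤ) : Prop :=
  Tendsto (sz pt L τ) (𝓝[>] 0) (𝓝 (-(m : ℝ)))

/-- the predicate `P` describes functions with the right size -/
def Bridge (s : Sy F) (P : ArtinRep F → (ℂ → ℂ) → Prop) (pt : ℝ → ℂ) : Prop :=
  ∀ A L, P A L → ∀ τ : ℝ, (∀ᶠ ε : ℝ in 𝓝[>] 0, L (pt τ + ε) ≠ 0) ∧
    Tendsto (fun ε : ℝ => s.x A τ ε - sz pt L τ ε) (𝓝[>] 0) (𝓝 0)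

variable {s : Sy F} {P : ArtinRep F → (ℂ → ℂ) → Prop} {pt : ℝ → ℂ}

theorem Bridge.lim (h : Bridge s P pt) {A : ArtinRep F} {L : ℂ → ℂ} (hL : P A L) {τ : ℝ} {m : ℤ}
    (hm : HO pt L τ m) : s.Lim A τ m := by
  have h1 := (h A L hL τ).2.add hm
  rw [zero_add] at h1
  refine h1.congr fun ε => ?_
  ring

theorem Bridge.order (h : Bridge s P pt) {A : ArtinRep F} {L : ℂ → ℂ} (hL : P A L) {τ : ℝ} {m : ℤ}
    (hm : s.Lim A τ m) : HO pt L τ m := by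
  have h1 : Tendsto (fun ε => s.x A τ ε - (s.x A τ ε - sz pt L τ ε)) (𝓝[>] 0)
      (𝓝 (-(m : ℝ) - 0)) := hm.sub (h A L hL τ).2
  rw [sub_zero] at h1
  refine h1.congr fun ε => ?_
  ring

theorem abs_small {c : ℝ} {A : ArtinRep F} {τ : ℝ} (h : s.Non c A τ) {y : ℝ → ℝ}
    (hy : Tendsto (fun ε : ℝ => s.x A τ ε - y ε) (𝓝[>] 0) (𝓝 0)) :
    ∃ᶠ ε : ℝ in 𝓝[>] 0, |y ε| < c := by
  obtain ⟨δ, hδ, h1⟩ := h
  have h2 : ∀ᶠ ε : ℝ in 𝓝[>] 0, |s.x A τ ε - y ε| < c - δ := by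
    have := hy.abs
    rw [abs_zero] at this
    exact this.eventually_lt_const (sub_pos.2 hδ)
  refine (h1.and_eventually h2).mono fun ε h => ?_
  have h3 : |y ε| ≤ |s.x A τ ε| + |s.x A τ ε - y ε| := by
    have h4 : y ε = s.x A τ ε - (s.x A τ ε - y ε) := by ring
    calc |y ε| = |s.x A τ ε - (s.x A τ ε - y ε)| := by rw [← h4]
      _ ≤ _ := abs_sub _ _
  linarith [h.1, h.2]

/-- Part 0 -/
theorem abs_part0 (h : Bridge s P pt) {r0 : ℝ} (hr : ∀ τ, (pt τ).re = r0) (A : ArtinRep F)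
    (L : ℂ → ℂ) (hL : P A L) (τ : ℝ) :
    (∀ᶠ ε : ℝ in 𝓝[>] 0, L (pt τ + ε) ≠ 0) ∧
    ∀ Λ : ℂ → ℂ, MeromorphicAt Λ (pt τ) →
      (∀ᶠ z in 𝓝 (pt τ), r0 < z.re → Λ z = L z) →
      ∃ m : ℤ, meromorphicOrderAt Λ (pt τ) = m ∧ HO pt L τ m := by
  have hb := h A L hL τ
  refine ⟨hb.1, fun Λ h1 h2 => ?_⟩
  have hpath : Tendsto (fun ε : ℝ => pt τ + ε) (𝓝[>] 0) (𝓝 (pt τ)) := by
    have h3 : Tendsto (fun ε : ℝ => pt τ + ε) (𝓝 0) (𝓝 (pt τ + ((0 : ℝ) : ℂ))) := by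
      have : Continuous fun ε : ℝ => pt τ + (ε : ℂ) := by fun_prop
      exact this.tendsto 0
    rw [Complex.ofReal_zero, add_zero] at h3
    exact h3.mono_left nhdsWithin_le_nhds
  have h3 : ∀ᶠ ε : ℝ in 𝓝[>] 0, Λ (pt τ + ε) = L (pt τ + ε) := by
    filter_upwards [hpath.eventually h2, self_mem_nhdsWithin] with ε h4 h5
    have hε : (0 : ℝ) < ε := h5
    refine h4 ?_
    rw [Complex.add_re, hr, Complex.ofReal_re]
    linarith
  obtain ⟨m, hm1, hm2⟩ := order_of_size h1 (by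
    filter_upwards [h3, hb.1] with ε h4 h5
    rw [h4]
    exact h5)
  refine ⟨m, hm1, hm2.congr' ?_⟩
  filter_upwards [h3] with ε h4
  rw [h4]
  rfl

/-- Part I -/
theorem abs_part1 (h : Bridge s P pt) (ν k : ℕ) (hk : 0 < k) :
    ∃ (M : IntermediateField F (AlgebraicClosure F)) (Θ : Finset ℝ),
      FiniteDimensional F M ∧ IsGalois F M ∧ (Θ.card : ℝ) ≤ ν * s.D ^ 2 * k ^ 2 ∧
      ∀ A : ArtinRep F, homDim A A ≤ ν → ∀ L, P A L → ∀ τ : ℝ,
        ((τ ∉ Θ ∨ ∀ x, (∀ g ∈ M.fixingSubgroup, A.ρ g x = x) → x = 0) →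
          (∃ᶠ ε : ℝ in 𝓝[>] 0, |sz pt L τ ε| < 1 / k) ∧ ∀ m, HO pt L τ m → m = 0) ∧
        ∀ (A₀ : ArtinRep F) (L₀ : ℂ → ℂ),
          (∃ f : A₀.ρ.IntertwiningMap A.ρ, Function.Injective f ∧
            ∀ x, (∃ y, f y = x) ↔ ∀ g ∈ M.fixingSubgroup, A.ρ g x = x) → P A₀ L₀ →
          (∃ᶠ ε : ℝ in 𝓝[>] 0, |sz pt L τ ε - sz pt L₀ τ ε| < 1 / k) ∧
          ∀ m m₀, HO pt L τ m → HO pt L₀ τ m₀ → m = m₀ := by
  classical
  have hk0 : (0 : ℝ) < k := by exact_mod_cast hk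
  have hc : (0 : ℝ) < 1 / k := by positivity
  have hc1 : (1 : ℝ) / k ≤ 1 := by
    rw [div_le_one hk0]
    exact_mod_cast hk
  obtain ⟨T, hT1, hT2⟩ := s.exists_max ν hc
  obtain ⟨M, hM1, hM2, hM3⟩ := exists_field (T.image fun y => y.1)
  have hM4 : ∀ y ∈ T, ∀ g ∈ M.fixingSubgroup, y.1.ρ g = 1 := fun y hy =>
    hM3 y.1 (Finset.mem_image_of_mem _ hy)
  refine ⟨M, T.image fun y => y.2, hM1, hM2, ?_, ?_⟩
  · have h1 : ((T.image fun y => y.2).card : ℝ) ≤ T.card := by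
      exact_mod_cast Finset.card_image_le
    refine h1.trans ?_
    rw [one_div, inv_pow, ← div_eq_mul_inv, div_le_iff₀ (by positivity)] at hT1
    exact hT1
  · intro A hA L hL τ
    refine ⟨fun h' => ?_, fun A₀ L₀ hA₀ hL₀ => ?_⟩
    · have hnon : s.Non (1 / k) A τ := by
        by_contra hcon
        obtain ⟨y, hy, hyτ, hyh⟩ := hT2 A τ hA hcon
        rcases h' with h' | h'
        · exact h' (Finset.mem_image.2 ⟨y, hy, hyτ⟩)
        · exact hyh (homDim_triv (hM4 y hy) h')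
      exact ⟨abs_small hnon (h A L hL τ).2, fun m hm =>
        s.lim_of_non hc1 hnon (h.lim hL hm)⟩
    · obtain ⟨f, hf1, hf2⟩ := hA₀
      obtain ⟨A', hA'1, hA'2⟩ := exists_quot f hf1 hf2
      have hdim : homDim A' A' ≤ ν := by
        have e1 : homDim A A = homDim A A₀ + homDim A A' := homDim_add_right hA'1
        have e2 : homDim A A' = homDim A₀ A' + homDim A' A' := homDim_add_left hA'1
        omega
      have hnon : s.Non (1 / k) A' τ := by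
        by_contra hcon
        obtain ⟨y, hy, hyτ, hyh⟩ := hT2 A' τ hdim hcon
        exact hyh (hA'2 y.1 (hM4 y hy))
      have hx : ∀ ε : ℝ, 0 < ε → s.x A τ ε = s.x A₀ τ ε + s.x A' τ ε := fun ε hε =>
        s.x_add hA'1 τ hε
      refine ⟨abs_small hnon ?_, fun m m₀ hm hm₀ => ?_⟩
      · have h1 := (h A L hL τ).2.sub (h A₀ L₀ hL₀ τ).2
        rw [sub_zero] at h1
        refine h1.congr' ?_
        filter_upwards [self_mem_nhdsWithin] with ε hε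
        rw [hx ε hε]
        ring
      · have h1 := h.lim hL hm
        have h2 := h.lim hL₀ hm₀
        have h3 : s.Lim A' τ (m - m₀) := by
          have h4 : Tendsto (fun ε => s.x A τ ε - s.x A₀ τ ε) (𝓝[>] 0)
              (𝓝 (-(m : ℝ) - -(m₀ : ℝ))) := Tendsto.sub h1 h2
          have h5 : -(m : ℝ) - -(m₀ : ℝ) = -(((m - m₀ : ℤ)) : ℝ) := by
            push_cast
            ring
          rw [h5] at h4
          refine h4.congr' ?_
          filter_upwards [self_mem_nhdsWithin] with ε hε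
          rw [hx ε hε]
          ring
        have h4 := s.lim_of_non hc1 hnon h3
        omega

open Classical in
/-- Part II -/
theorem abs_part2 (h : Bridge s P pt) :
    ∃ (T : Finset (ArtinRep F × ℝ × ℤ)) (M : IntermediateField F (AlgebraicClosure F)),
      FiniteDimensional F M ∧ IsGalois F M ∧
      (∀ y ∈ T, y.1.ρ.IsIrreducible ∧ (∀ g ∈ M.fixingSubgroup, y.1.ρ g = 1) ∧ y.2.2 ≠ 0) ∧
      (∀ y ∈ T, ∀ z ∈ T, y ≠ z → y.2.1 = z.2.1 → IsEmpty (y.1.ρ.Equiv z.1.ρ)) ∧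
      (∑ y ∈ T, (y.2.2 : ℝ) ^ 2 ≤ s.D ^ 2) ∧
      ∀ (τ : ℝ) (A : ArtinRep F),
        (∀ B : ArtinRep F, B.ρ.IsIrreducible → homDim B A ≠ 0 →
          ∃ L m, P B L ∧ HO pt L τ m) →
        ∀ L, P A L → HO pt L τ (∑ y ∈ T with y.2.1 = τ, y.2.2 * (homDim y.1 A : ℤ)) := by
  obtain ⟨T, hT1, hT2, hT3, hT4⟩ := s.exists_list
  obtain ⟨M, hM1, hM2, hM3⟩ := exists_field (T.image fun y => y.1)
  refine ⟨T, M, hM1, hM2, fun y hy => ⟨(hT1 y hy).1, hM3 y.1 (Finset.mem_image_of_mem _ hy),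
    (hT1 y hy).2.1⟩, hT2, hT3, fun τ A hA L hL => ?_⟩
  rw [Finset.sum_filter]
  refine h.order hL (s.lim_formula hT1 hT2 hT4 τ A.n A rfl fun B hB hBA => ?_)
  obtain ⟨L', m, hL', hm⟩ := hA B hB hBA
  exact ⟨m, h.lim hL' hm⟩

end

end Pool.Agent.W385.GA
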