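import Pool.Agent.W385.GA.Orders

/-!
# Euler products of characteristic polynomials
-/

set_option autoImplicit false
set_option linter.style.haveILetI false
set_option linter.unusedSectionVars false

namespace Pool.Agent.W385.GA

open Complex Filter Topology ComplexConjugate Pool.Agent.H341R2 NumberField IsDedekindDomain
  Pool.Agent.W401.Cheb Polynomial Pool.Agent.W540.BE
open scoped TensorProduct

section
variable {V W : Type} [AddCommGroup V] [Module ℂ V] [FiniteDimensional ℂ V]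
  [AddCommGroup W] [Module ℂ W] [FiniteDimensional ℂ W]

theorem eigs (T : Module.End ℂ V) :
    ∃ s : Multiset ℂ, s.card = Module.finrank ℂ V ∧ (∀ l ∈ s, T.HasEigenvalue l) ∧
      LinearMap.trace ℂ _ T = s.sum ∧
      ∀ c : ℂ, LinearMap.det (1 - c • T) = (s.map fun l => 1 - c * l).prod := by
  have hsp : (LinearMap.charpoly T).Splits := IsAlgClosed.splits _
  have hdeg : (LinearMap.charpoly T).natDegree = Module.finrank ℂ V :=
    LinearMap.charpoly_natDegree T
  have hcard : (LinearMap.charpoly T).roots.card = Module.finrank ℂ V := by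
    rw [← hsp.natDegree_eq_card_roots, hdeg]
  refine ⟨(LinearMap.charpoly T).roots, hcard, fun l hl => ?_, ?_, fun c => ?_⟩
  · rw [Module.End.hasEigenvalue_iff_isRoot_charpoly]
    exact (Polynomial.mem_roots'.1 hl).2
  · exact Module.End.trace_eq_sum_roots_charpoly_of_splits hsp
  · by_cases hc : c = 0
    · subst hc
      simp
    · have h1 : LinearMap.det (1 - c • T) =
          c ^ (Module.finrank ℂ V) * (LinearMap.charpoly T).eval c⁻¹ := by
        have h2 : (1 - c • T : Module.End ℂ V) = c • (algebraMap ℂ _ c⁻¹ - T) := by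
          rw [smul_sub, Algebra.algebraMap_eq_smul_one, smul_smul, mul_inv_cancel₀ hc, one_smul]
        rw [h2, LinearMap.det_smul, LinearMap.eval_charpoly]
      rw [h1, hsp.eval_eq_prod_roots_of_monic (LinearMap.charpoly_monic T)]
      have h3 : ((LinearMap.charpoly T).roots.map fun l => 1 - c * l).prod =
          ((LinearMap.charpoly T).roots.map fun l => c * (c⁻¹ - l)).prod := by
        refine congrArg _ (Multiset.map_congr rfl fun l _ => ?_)
        rw [mul_sub, mul_inv_cancel₀ hc]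
      rw [h3, Multiset.prod_map_mul, Multiset.map_const', Multiset.prod_replicate, hcard]

theorem norm_trace_le (T : Module.End ℂ V) {R : ℝ} (hR : ∀ l, T.HasEigenvalue l → ‖l‖ ≤ R) :
    ‖LinearMap.trace ℂ _ T‖ ≤ Module.finrank ℂ V * R := by
  obtain ⟨s, h1, h2, h3, _⟩ := eigs T
  rw [h3]
  refine (norm_multiset_sum_le _).trans ?_
  have h4 : ∀ x ∈ s.map fun x => ‖x‖, x ≤ R := by
    intro x hx
    rw [Multiset.mem_map] at hx
    obtain ⟨l, hl, rfl⟩ := hx
    exact hR l (h2 l hl)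
  refine (Multiset.sum_le_card_nsmul _ _ h4).trans ?_
  rw [Multiset.card_map, h1, nsmul_eq_mul]

/-- eigenvalues of `C ⊗ 1` -/
theorem eig_left (C : Module.End ℂ V) {μ : ℂ} {x : V ⊗[ℂ] W} (hx : x ≠ 0)
    (h : TensorProduct.map C (LinearMap.id : W →ₗ[ℂ] W) x = μ • x) : C.HasEigenvalue μ := by
  set b := Module.finBasis ℂ W with hb
  set e : V ⊗[ℂ] W ≃ₗ[ℂ] (Fin (Module.finrank ℂ W) → V) :=
    (TensorProduct.equivFinsuppOfBasisRight b).trans
      (Finsupp.linearEquivFunOnFinite ℂ V (Fin (Module.finrank ℂ W))) with he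
  have hcomm : ∀ (y : V ⊗[ℂ] W) (i : Fin (Module.finrank ℂ W)),
      e (TensorProduct.map C (LinearMap.id : W →ₗ[ℂ] W) y) i = C (e y i) := by
    intro y i
    induction y using TensorProduct.induction_on with
    | zero => simp
    | tmul v w =>
      simp [he]
    | add y z hy hz =>
      rw [map_add, map_add, Pi.add_apply, hy, hz, map_add, Pi.add_apply, map_add]
  have hex : e x ≠ 0 := fun h0 => hx (e.map_eq_zero_iff.1 h0)
  obtain ⟨i, hi⟩ := Function.ne_iff.1 hex
  refine Module.End.hasEigenvalue_of_hasEigenvector (x := e x i) ⟨?_, hi⟩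
  rw [Module.End.mem_eigenspace_iff, ← hcomm, h, map_smul, Pi.smul_apply]

/-- eigenvalues of `C ⊗ A` with `A` of finite order -/
theorem eig_tensor (C : Module.End ℂ V) (A : Module.End ℂ W) {m : ℕ} (hm : 0 < m)
    (hA : A ^ m = 1) {R : ℝ} (hR : ∀ l, C.HasEigenvalue l → ‖l‖ ≤ R) {l : ℂ}
    (hl : Module.End.HasEigenvalue (TensorProduct.map C A : Module.End ℂ (V ⊗[ℂ] W)) l) :
    ‖l‖ ≤ R := by
  set T : Module.End ℂ (V ⊗[ℂ] W) := TensorProduct.map C A with hT
  set C1 : Module.End ℂ (V ⊗[ℂ] W) := TensorProduct.map C LinearMap.id with hC1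
  set A1 : Module.End ℂ (V ⊗[ℂ] W) := TensorProduct.map LinearMap.id A with hA1
  have hT1 : T = A1 * C1 := by
    rw [hT, hA1, hC1, Module.End.mul_eq_comp, ← TensorProduct.map_comp]
    rfl
  have hT2 : T = C1 * A1 := by
    rw [hT, hA1, hC1, Module.End.mul_eq_comp, ← TensorProduct.map_comp]
    rfl
  have hcomm : Commute T C1 := by
    change T * C1 = C1 * T
    conv_lhs => rw [hT2]
    conv_rhs => rw [hT1]
    rw [mul_assoc]
  have hA1m : A1 ^ m = 1 := by
    have h1 : ∀ k : ℕ, A1 ^ k = TensorProduct.map LinearMap.id (A ^ k) := by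
      intro k
      induction k with
      | zero =>
        rw [pow_zero, pow_zero]
        exact TensorProduct.map_id.symm
      | succ k ih =>
        rw [pow_succ, ih, hA1, Module.End.mul_eq_comp, ← TensorProduct.map_comp, pow_succ]
        rfl
    rw [h1, hA]
    exact TensorProduct.map_id
  have hmaps : Set.MapsTo C1 (Module.End.eigenspace T l) (Module.End.eigenspace T l) :=
    Module.End.mapsTo_genEigenspace_of_comm hcomm l 1
  have hnt : Nontrivial (Module.End.eigenspace T l) := by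
    rw [Submodule.nontrivial_iff_ne_bot]
    exact hl
  obtain ⟨μ, hμ⟩ := Module.End.exists_eigenvalue (C1.restrict hmaps)
  obtain ⟨y, hy⟩ := hμ.exists_hasEigenvector
  have hy1 : C1 (y : V ⊗[ℂ] W) = μ • (y : V ⊗[ℂ] W) := by
    have := hy.apply_eq_smul
    exact congrArg Subtype.val this
  have hy0 : (y : V ⊗[ℂ] W) ≠ 0 := fun h => hy.2 (Subtype.ext h)
  have hy2 : T (y : V ⊗[ℂ] W) = l • (y : V ⊗[ℂ] W) := Module.End.mem_eigenspace_iff.1 y.2
  have hTy : ∀ w : V ⊗[ℂ] W, T w = A1 (C1 w) := fun w => LinearMap.congr_fun hT1 w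
  have hy3 : μ • A1 (y : V ⊗[ℂ] W) = l • (y : V ⊗[ℂ] W) := by
    rw [← hy2, hTy, hy1, map_smul]
  have hμR := hR μ (eig_left C hy0 hy1)
  by_cases hμ0 : μ = 0
  · rw [hμ0, zero_smul] at hy3
    rcases smul_eq_zero.1 hy3.symm with h | h
    · rw [h, norm_zero]
      exact (norm_nonneg μ).trans hμR
    · exact absurd h hy0
  · have h1 : A1 (y : V ⊗[ℂ] W) = (μ⁻¹ * l) • (y : V ⊗[ℂ] W) := by
      rw [mul_smul, ← hy3, smul_smul, inv_mul_cancel₀ hμ0, one_smul]
    have h2 : ∀ k : ℕ, (A1 ^ k) (y : V ⊗[ℂ] W) = (μ⁻¹ * l) ^ k • (y : V ⊗[ℂ] W) := by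
      intro k
      induction k with
      | zero => simp
      | succ k ih =>
        rw [pow_succ', Module.End.mul_apply, ih, map_smul, h1, smul_smul, pow_succ]
    have h3 := h2 m
    rw [hA1m, Module.End.one_apply] at h3
    have h4 : ((μ⁻¹ * l) ^ m - 1) • (y : V ⊗[ℂ] W) = 0 := by
      rw [sub_smul, one_smul, ← h3, sub_self]
    rcases smul_eq_zero.1 h4 with h5 | h5
    · have h6 : (μ⁻¹ * l) ^ m = 1 := by linear_combination h5
      have h7 : ‖μ⁻¹ * l‖ ^ m = 1 := by rw [← norm_pow, h6, norm_one]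
      have h8 : ‖μ⁻¹ * l‖ = 1 := (pow_eq_one_iff_of_nonneg (norm_nonneg _) hm.ne').1 h7
      rw [norm_mul, norm_inv] at h8
      have h9 : ‖l‖ = ‖μ‖ := by
        have : ‖μ‖ ≠ 0 := norm_ne_zero_iff.2 hμ0
        field_simp at h8
        exact h8
      rw [h9]
      exact hμR
    · exact absurd h5 hy0

/-- the logarithm of a local factor -/
theorem log_factor (T : Module.End ℂ V) {R : ℝ} (hT : ∀ l, T.HasEigenvalue l → ‖l‖ ≤ R) (z : ℂ)
    (hz : ‖z‖ * R ≤ 1 / 2) :
    ∃ G : ℂ, cexp G = (LinearMap.det (1 - z • T))⁻¹ ∧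
      ‖G - z * LinearMap.trace ℂ _ T‖ ≤ Module.finrank ℂ V * (‖z‖ * R) ^ 2 := by
  obtain ⟨s, hs1, hs2, hs3, hs4⟩ := eigs T
  have hx : ∀ l ∈ s, ‖z * l‖ ≤ ‖z‖ * R := by
    intro l hl
    rw [norm_mul]
    exact mul_le_mul_of_nonneg_left (hT l (hs2 l hl)) (norm_nonneg _)
  have hne : ∀ l ∈ s, 1 - z * l ≠ 0 := by
    intro l hl h
    have h1 : z * l = 1 := by linear_combination -h
    have h2 := hx l hl
    rw [h1, norm_one] at h2
    linarith
  refine ⟨(s.map fun l => -Complex.log (1 - z * l)).sum, ?_, ?_⟩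
  · rw [hs4, Complex.exp_multiset_sum, Multiset.map_map, ← Multiset.prod_map_inv]
    refine congrArg _ (Multiset.map_congr rfl fun l hl => ?_)
    simp only [Function.comp_apply]
    rw [Complex.exp_neg, Complex.exp_log (hne l hl)]
  · have h3 : (s.map fun l => z * l).sum = z * s.sum := by
      rw [Multiset.sum_map_mul_left, Multiset.map_id']
    rw [hs3, ← h3, ← Multiset.sum_map_sub]
    refine (norm_multiset_sum_le _).trans ?_
    rw [Multiset.map_map]
    have h6 : ∀ x ∈ s.map ((fun x => ‖x‖) ∘ fun l => -Complex.log (1 - z * l) - z * l),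
        x ≤ (‖z‖ * R) ^ 2 := by
      intro x hx'
      rw [Multiset.mem_map] at hx'
      obtain ⟨l, hl, rfl⟩ := hx'
      simp only [Function.comp_apply]
      refine (norm_neg_log_sub_le ((hx l hl).trans hz)).trans ?_
      exact pow_le_pow_left₀ (norm_nonneg _) (hx l hl) 2
    refine (Multiset.sum_le_card_nsmul _ _ h6).trans ?_
    rw [Multiset.card_map, hs1, nsmul_eq_mul]

end

section
variable {F : Type} [Field F] [NumberField F]

/-- the system attached to a family of linear maps -/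
noncomputable def detSy (V : Type) [AddCommGroup V] [Module ℂ V] [FiniteDimensional ℂ V]
    (c : HeightOneSpectrum (𝓞 F) → Module.End ℂ V) (w : ℝ)
    (S₀ : Finset (HeightOneSpectrum (𝓞 F))) (frob : HeightOneSpectrum (𝓞 F) → GK F)
    (hc : ∀ v, v ∉ S₀ → ∀ l, (c v).HasEigenvalue l → ‖l‖ ≤ (nm F v : ℝ) ^ w)
    (hfrob : ∀ v, IsFrob v (frob v)) : Sy F where
  t v m := if m = 1 then LinearMap.trace ℂ V (c v) else 0
  w := w
  D := Module.finrank ℂ V
  S₀ := S₀
  frob := frob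
  hD := Nat.cast_nonneg _
  ht := by
    intro v hv m
    have h0 : (0 : ℝ) ≤ Module.finrank ℂ V * ((nm F v : ℝ) ^ w) ^ (m + 1) := by positivity
    split_ifs with h
    · have hm : m = 0 := by omega
      subst hm
      rw [zero_add, pow_one]
      exact norm_trace_le (c v) (hc v hv)
    · rw [norm_zero]
      exact h0
  hfrob := hfrob

open Classical in
/-- the Euler product -/
noncomputable def DF {V : Type} [AddCommGroup V] [Module ℂ V]
    (c : HeightOneSpectrum (𝓞 F) → Module.End ℂ V) (frob : HeightOneSpectrum (𝓞 F) → GK F)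
    (A : ArtinRep F) (S : Finset (HeightOneSpectrum (𝓞 F)))
    (B : HeightOneSpectrum (𝓞 F) → ℂ[X]) (s : ℂ) : ℂ :=
  ∏' v : HeightOneSpectrum (𝓞 F),
    if v ∈ S then ((B v).eval (((Ideal.absNorm v.asIdeal : ℕ) : ℂ) ^ (-s)))⁻¹
    else (LinearMap.det (1 - (((Ideal.absNorm v.asIdeal : ℕ) : ℂ) ^ (-s)) •
      (TensorProduct.map (c v) (A.ρ (frob v)⁻¹) : Module.End ℂ (V ⊗[ℂ] (Fin A.n → ℂ)))))⁻¹

theorem pow_finite (A : ArtinRep F) (g : GK F) : ∃ m : ℕ, 0 < m ∧ (A.ρ g) ^ m = 1 := by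
  obtain ⟨U, hU1, hU2, hU⟩ := exists_common {A}
  haveI := finite_quot hU2
  refine ⟨Nat.card (GK F ⧸ U), Nat.card_pos, ?_⟩
  rw [← map_pow]
  refine hU A (by simp) _ ?_
  rw [← QuotientGroup.eq_one_iff, QuotientGroup.mk_pow]
  exact pow_card_eq_one'

theorem size_det (V : Type) [AddCommGroup V] [Module ℂ V] [FiniteDimensional ℂ V]
    (c : HeightOneSpectrum (𝓞 F) → Module.End ℂ V) (w : ℝ)
    (S₀ : Finset (HeightOneSpectrum (𝓞 F))) (frob : HeightOneSpectrum (𝓞 F) → GK F)
    (hc : ∀ v, v ∉ S₀ → ∀ l, (c v).HasEigenvalue l → ‖l‖ ≤ (nm F v : ℝ) ^ w)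
    (hfrob : ∀ v, IsFrob v (frob v)) (A : ArtinRep F)
    (S : Finset (HeightOneSpectrum (𝓞 F))) (hS : S₀ ⊆ S)
    (B : HeightOneSpectrum (𝓞 F) → ℂ[X]) (τ : ℝ)
    (hB : ∀ v ∈ S, (B v).eval (((nm F v : ℕ) : ℂ) ^ (-(w + 1 + τ * I : ℂ))) ≠ 0) :
    (∀ᶠ ε : ℝ in 𝓝[>] 0, DF c frob A S B (w + 1 + τ * I + ε) ≠ 0) ∧
    Tendsto (fun ε : ℝ => (detSy V c w S₀ frob hc hfrob).x A τ ε -
      Real.log ‖DF c frob A S B (w + 1 + τ * I + ε)‖ / Real.log (1 / ε)) (𝓝[>] 0) (𝓝 0) := by
  classical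
  set sy := detSy V c w S₀ frob hc hfrob with hsy
  have hD : 0 ≤ sy.D := sy.hD
  have hN : NormSys (nm F) := normSys
  have hprod : ∀ v, ‖tn sy.t w S₀ v * conj (vv frob A τ v)‖ ≤ sy.D * A.n := by
    intro v
    rw [norm_mul, Complex.norm_conj]
    exact mul_le_mul (norm_tn_le hD sy.ht v) (norm_vv_le A τ v) (norm_nonneg _) hD
  set a : HeightOneSpectrum (𝓞 F) → ℂ := fun v =>
    if v ∉ S then tn sy.t w S₀ v * conj (vv frob A τ v) else 0 with ha
  have hab : ∀ v, ‖a v‖ ≤ sy.D * A.n := by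
    intro v
    rw [ha]
    simp only
    by_cases hv : v ∈ S
    · rw [if_neg (not_not.2 hv), norm_zero]; positivity
    · rw [if_pos hv]
      exact hprod v
  have ha0 : ∀ v, ¬ (v ∉ S) → a v = 0 := by
    intro v hv
    rw [ha]
    simp only
    rw [if_neg hv]
  have hfin : {v : HeightOneSpectrum (𝓞 F) | ¬ (v ∉ S)}.Finite := by
    simp only [not_not]
    exact S.finite_toSet
  have hloc : ∀ (ε : ℝ) (v : HeightOneSpectrum (𝓞 F)), ∃ G : ℂ, 0 < ε → v ∉ S →
      cexp G = (LinearMap.det (1 - (((Ideal.absNorm v.asIdeal : ℕ) : ℂ) ^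
        (-(w + 1 + τ * I + ε : ℂ))) • (TensorProduct.map (c v) (A.ρ (frob v)⁻¹) :
          Module.End ℂ (V ⊗[ℂ] (Fin A.n → ℂ)))))⁻¹ ∧
      ‖G - a v * (((nm F v : ℝ) ^ (-(1 + ε)) : ℝ) : ℂ)‖ ≤
        (Module.finrank ℂ V * A.n : ℝ) * (nm F v : ℝ) ^ (-2 : ℝ) := by
    intro ε v
    by_cases h : 0 < ε ∧ v ∉ S
    · obtain ⟨hε, hv⟩ := h
      have hv0 : v ∉ S₀ := fun h => hv (hS h)
      have hq0 : (0 : ℝ) < nm F v := by exact_mod_cast nm_pos v
      have hq2 : (2 : ℝ) ≤ nm F v := by exact_mod_cast two_le_nm v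
      have hq1 : (1 : ℝ) ≤ nm F v := by linarith
      set z : ℂ := ((nm F v : ℕ) : ℂ) ^ (-(w + 1 + τ * I + ε : ℂ)) with hz
      have hzn : ‖z‖ = (nm F v : ℝ) ^ (-(w + 1 + ε)) := by
        rw [hz, Complex.norm_natCast_cpow_of_pos (nm_pos v)]
        congr 1
        simp
      have hzR : ‖z‖ * (nm F v : ℝ) ^ w = (nm F v : ℝ) ^ (-(1 + ε)) := by
        rw [hzn, ← Real.rpow_add hq0]
        congr 1
        ring
      have hle : (nm F v : ℝ) ^ (-(1 + ε)) ≤ (nm F v : ℝ) ^ (-1 : ℝ) :=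
        Real.rpow_le_rpow_of_exponent_le hq1 (by linarith)
      have hsmall : (nm F v : ℝ) ^ (-(1 + ε)) ≤ 1 / 2 := by
        refine hle.trans ?_
        rw [Real.rpow_neg_one, one_div]
        exact inv_anti₀ (by norm_num) hq2
      obtain ⟨m, hm, hAm⟩ := pow_finite A (frob v)⁻¹
      obtain ⟨G, hG1, hG2⟩ := log_factor (TensorProduct.map (c v) (A.ρ (frob v)⁻¹))
        (fun l hl => eig_tensor (c v) (A.ρ (frob v)⁻¹) hm hAm (hc v hv0) hl) z
        (by rw [hzR]; exact hsmall)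
      refine ⟨G, fun _ _ => ⟨hG1, ?_⟩⟩
      have h2 : a v * (((nm F v : ℝ) ^ (-(1 + ε)) : ℝ) : ℂ) =
          z * LinearMap.trace ℂ _ (TensorProduct.map (c v) (A.ρ (frob v)⁻¹)) := by
        rw [ha]
        simp only
        rw [if_pos hv, tn, if_neg hv0, vv, Complex.conj_conj, LinearMap.trace_tensorProduct']
        have hvc : ((nm F v : ℕ) : ℂ) ≠ 0 := by exact_mod_cast (nm_pos v).ne'
        have h3 : (-(w + 1 + τ * I + ε : ℂ)) = -(w : ℂ) + (-(τ * I) + ((-(1 + ε) : ℝ) : ℂ)) := by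
          push_cast
          ring
        have h4 : sy.t v 1 = LinearMap.trace ℂ V (c v) := by
          rw [hsy]
          unfold detSy
          simp
        rw [hz, h3, Complex.cpow_add _ _ hvc, Complex.cpow_add _ _ hvc,
          Complex.ofReal_cpow hq0.le, Complex.ofReal_natCast, h4]
        unfold ArtinRep.χ Representation.character
        ring
      rw [h2]
      refine hG2.trans ?_
      rw [hzR, Module.finrank_tensorProduct, Module.finrank_fin_fun]
      push_cast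
      refine mul_le_mul_of_nonneg_left ?_ (by positivity)
      calc ((nm F v : ℝ) ^ (-(1 + ε))) ^ 2 ≤ ((nm F v : ℝ) ^ (-1 : ℝ)) ^ 2 :=
            pow_le_pow_left₀ (by positivity) hle 2
        _ = (nm F v : ℝ) ^ (-2 : ℝ) := by
            rw [← Real.rpow_natCast, ← Real.rpow_mul hq0.le]
            norm_num
    · exact ⟨0, fun h1 h2 => absurd ⟨h1, h2⟩ h⟩
  choose G hG using hloc
  obtain ⟨C', hC'⟩ := sizeP hN (Good := fun v : HeightOneSpectrum (𝓞 F) => v ∉ S) hfin B
    (w + 1 + τ * I) (fun v hv => hB v (not_not.1 hv)) a hab ha0 G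
    (C := Module.finrank ℂ V * A.n)
    (fun ε hε v hv => (hG ε v hε hv).2)
    (L := fun ε => DF c frob A S B (w + 1 + τ * I + ε))
    (by
      intro ε hε
      unfold DF
      refine tprod_congr fun v => ?_
      by_cases hv : v ∈ S
      · rw [if_pos hv, if_neg (not_not.2 hv)]
        rfl
      · rw [if_neg hv, if_pos hv]
        exact (hG ε v hε hv).1.symm)
  set r : HeightOneSpectrum (𝓞 F) → ℝ := fun v =>
    (tn sy.t w S₀ v * conj (vv frob A τ v)).re - (a v).re with hr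
  have hr0 : ∀ v, v ∉ S → r v = 0 := by
    intro v hv
    rw [hr, ha]
    simp only
    rw [if_pos hv, sub_self]
  have hrb : ∀ v, |r v| ≤ 2 * (sy.D * A.n) := by
    intro v
    rw [hr]
    simp only
    have h1 : |(tn sy.t w S₀ v * conj (vv frob A τ v)).re| ≤ sy.D * A.n :=
      (Complex.abs_re_le_norm _).trans (hprod v)
    have h2 : |(a v).re| ≤ sy.D * A.n := (Complex.abs_re_le_norm _).trans (hab v)
    rw [abs_le] at *
    constructor <;> linarith [h1.1, h1.2, h2.1, h2.2]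
  have hsplit : ∀ ε : ℝ, 0 < ε →
      (EP (nm F) ε fun v => (tn sy.t w S₀ v * conj (vv frob A τ v)).re) =
      (EP (nm F) ε fun v => (a v).re) + EP (nm F) ε r := by
    intro ε hε
    rw [← EP_add hN hε (B := sy.D * A.n) (B' := 2 * (sy.D * A.n))
      (fun v => (Complex.abs_re_le_norm _).trans (hab v)) hrb]
    congr 1
    funext v
    rw [hr]
    ring
  refine ⟨hC'.mono fun _ h => h.1, ?_⟩
  refine size_compare (M := 2 * (sy.D * A.n)) (C := C' + S.card * (2 * (sy.D * A.n)))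
    (X0_bound hD sy.ht A τ) ?_
  filter_upwards [hC', self_mem_nhdsWithin] with ε h1 h2
  have hε : (0 : ℝ) < ε := h2
  have h4 := EP_finsupp hN S r hr0 _ hrb hε
  have h5 : (EP (nm F) ε fun v => (tn sy.t w S₀ v * conj (vv frob A τ v)).re) -
      Real.log ‖DF c frob A S B (w + 1 + τ * I + ε)‖ =
      ((EP (nm F) ε fun v => (a v).re) -
        Real.log ‖DF c frob A S B (w + 1 + τ * I + ε)‖) + EP (nm F) ε r := by
    rw [hsplit ε hε]
    ring
  change |(EP (nm F) ε fun v => (tn sy.t w S₀ v * conj (vv frob A τ v)).re) -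
      Real.log ‖DF c frob A S B (w + 1 + τ * I + ε)‖| ≤ _
  rw [h5]
  exact (abs_add_le _ _).trans (add_le_add h1.2 h4)

end

end Pool.Agent.W385.GA
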