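import Pool.Agent.W385.GA.Sq
import Pool.Agent.W385.GA.Det
import Pool.Agent.W385.GA.Abs

/-!
# The three parts with the mean square, and the Euler product of `ρ ⊗ ρ̄`
-/

set_option autoImplicit false
set_option linter.style.haveILetI false
set_option linter.unusedSectionVars false

namespace Pool.Agent.W385.GA

open Complex Filter Topology ComplexConjugate Pool.Agent.H341R2 NumberField IsDedekindDomain
  Pool.Agent.W401.Cheb Polynomial Pool.Agent.W540.BE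

section
variable {F : Type} [Field F] [NumberField F]
variable {s : Sy F} {P : ArtinRep F → (ℂ → ℂ) → Prop} {pt : ℝ → ℂ}

/-- Part I -/
theorem abs_part1' (h : Bridge s P pt) {κ : ℝ} (hκ : s.Bd κ) (ν k : ℕ) (hk : 0 < k) :
    ∃ (M : IntermediateField F (AlgebraicClosure F)) (Θ : Finset ℝ),
      FiniteDimensional F M ∧ IsGalois F M ∧ (Θ.card : ℝ) ≤ ν * κ * k ^ 2 ∧
      ∀ A : ArtinRep F, homDim A A ≤ ν → ∀ L, P A L → ∀ τ : ℝ,
        ((τ ∉ Θ ∨ ∀ x, (∀ g ∈ M.fixingSubgroup, A.ρ g x = x) → x = 0) →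
          (∃ᶠ ε : ℝ in 𝓝[>] 0, |sz pt L τ ε| < 1 / k) ∧ ∀ m, HO pt L τ m → m = 0) ∧
        ∀ (A₀ : ArtinRep F) (L₀ : ℂ → ℂ),
          (∃ f : A₀.ρ.IntertwiningMap A.ρ, Function.Injective f ∧
            ∀ x, (∃ y, f y = x) ↔ ∀ g ∈ M.fixingSubgroup, A.ρ g x = x) → P A₀ L₀ →
          (∃ᶠ ε : ℝ in 𝓝[>] 0, |sz pt L τ ε - sz pt L₀ τ ε| < 1 / k) ∧
          ∀ m m₀, HO pt L τ m → HO pt L₀ τ m₀ → m = m₀ := by
  classical
  have hk0 : (0 : ℝ) < k := by exact_mod_cast hk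
  have hc : (0 : ℝ) < 1 / k := by positivity
  have hc1 : (1 : ℝ) / k ≤ 1 := by
    rw [div_le_one hk0]
    exact_mod_cast hk
  obtain ⟨T, hT1, hT2⟩ := s.exists_max2 hκ ν hc
  obtain ⟨M, hM1, hM2, hM3⟩ := exists_field (T.image fun y => y.1)
  have hM4 : ∀ y ∈ T, ∀ g ∈ M.fixingSubgroup, y.1.ρ g = 1 := fun y hy =>
    hM3 y.1 (Finset.mem_image_of_mem _ hy)
  refine ⟨M, T.image fun y => y.2, hM1, hM2, ?_, ?_⟩
  · have h1 : ((T.image fun y => y.2).card : ℝ) ≤ T.card := by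
      exact_mod_cast Finset.card_image_le
    refine h1.trans ?_
    rw [one_div, inv_pow, ← div_eq_mul_inv, div_le_iff₀ (by positivity)] at hT1
    exact hT1
  · intro A hA L hL τ
    refine ⟨fun h' => ?_, fun A₀ L₀ hA₀ hL₀ => ?_⟩
    · have hnon : s.Non (1 / k) A τ := by
        by_contra hcon
        obtain ⟨y, hy, hyτ, hyh⟩ := hT2 A τ hA hcon
        rcases h' with h' | h'
        · exact h' (Finset.mem_image.2 ⟨y, hy, hyτ⟩)
        · exact hyh (homDim_triv (hM4 y hy) h')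
      exact ⟨abs_small hnon (h A L hL τ).2, fun m hm =>
        s.lim_of_non hc1 hnon (h.lim hL hm)⟩
    · obtain ⟨f, hf1, hf2⟩ := hA₀
      obtain ⟨A', hA'1, hA'2⟩ := exists_quot f hf1 hf2
      have hdim : homDim A' A' ≤ ν := by
        have e1 : homDim A A = homDim A A₀ + homDim A A' := homDim_add_right hA'1
        have e2 : homDim A A' = homDim A₀ A' + homDim A' A' := homDim_add_left hA'1
        omega
      have hnon : s.Non (1 / k) A' τ := by
        by_contra hcon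
        obtain ⟨y, hy, hyτ, hyh⟩ := hT2 A' τ hdim hcon
        exact hyh (hA'2 y.1 (hM4 y hy))
      have hx : ∀ ε : ℝ, 0 < ε → s.x A τ ε = s.x A₀ τ ε + s.x A' τ ε := fun ε hε =>
        s.x_add hA'1 τ hε
      refine ⟨abs_small hnon ?_, fun m m₀ hm hm₀ => ?_⟩
      · have h1 := (h A L hL τ).2.sub (h A₀ L₀ hL₀ τ).2
        rw [sub_zero] at h1
        refine h1.congr' ?_
        filter_upwards [self_mem_nhdsWithin] with ε hε
        rw [hx ε hε]
        ring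
      · have h1 := h.lim hL hm
        have h2 := h.lim hL₀ hm₀
        have h3 : s.Lim A' τ (m - m₀) := by
          have h4 : Tendsto (fun ε => s.x A τ ε - s.x A₀ τ ε) (𝓝[>] 0)
              (𝓝 (-(m : ℝ) - -(m₀ : ℝ))) := Tendsto.sub h1 h2
          have h5 : -(m : ℝ) - -(m₀ : ℝ) = -(((m - m₀ : ℤ)) : ℝ) := by
            push_cast
            ring
          rw [h5] at h4
          refine h4.congr' ?_
          filter_upwards [self_mem_nhdsWithin] with ε hε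
          rw [hx ε hε]
          ring
        have h4 := s.lim_of_non hc1 hnon h3
        omega

open Classical in
/-- Part II -/
theorem abs_part2' (h : Bridge s P pt) {κ : ℝ} (hκ : s.Bd κ) :
    ∃ (T : Finset (ArtinRep F × ℝ × ℤ)) (M : IntermediateField F (AlgebraicClosure F)),
      FiniteDimensional F M ∧ IsGalois F M ∧
      (∀ y ∈ T, y.1.ρ.IsIrreducible ∧ (∀ g ∈ M.fixingSubgroup, y.1.ρ g = 1) ∧ y.2.2 ≠ 0) ∧
      (∀ y ∈ T, ∀ z ∈ T, y ≠ z → y.2.1 = z.2.1 → IsEmpty (y.1.ρ.Equiv z.1.ρ)) ∧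
      (∑ y ∈ T, (y.2.2 : ℝ) ^ 2 ≤ κ) ∧
      (∀ (τ : ℝ) (A : ArtinRep F),
        (∀ B : ArtinRep F, B.ρ.IsIrreducible → homDim B A ≠ 0 →
          ∃ L m, P B L ∧ HO pt L τ m) →
        ∀ L, P A L → HO pt L τ (∑ y ∈ T with y.2.1 = τ, y.2.2 * (homDim y.1 A : ℤ))) ∧
      (κ ≤ ∑ y ∈ T, (y.2.2 : ℝ) ^ 2 → ∀ η : ℝ, 0 < η → ∀ᶠ ε : ℝ in 𝓝[>] 0,
        (EP (nm F) ε fun v => ‖tn s.t s.w s.S₀ v +
          ∑ y ∈ T, ((y.2.2 : ℝ) : ℂ) * vv s.frob y.1 y.2.1 v‖ ^ 2) / lam ε ≤ η) := by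
  obtain ⟨T, hT1, hT2, hT3, hT4⟩ := s.exists_list2 hκ
  obtain ⟨M, hM1, hM2, hM3⟩ := exists_field (T.image fun y => y.1)
  refine ⟨T, M, hM1, hM2, fun y hy => ⟨(hT1 y hy).1, hM3 y.1 (Finset.mem_image_of_mem _ hy),
    (hT1 y hy).2.1⟩, hT2, hT3, fun τ A hA L hL => ?_, fun hge η hη => ?_⟩
  · rw [Finset.sum_filter]
    refine h.order hL (s.lim_formula hT1 hT2 hT4 τ A.n A rfl fun B hB hBA => ?_)
    obtain ⟨L', m, hL', hm⟩ := hA B hB hBA
    exact ⟨m, h.lim hL' hm⟩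
  · exact s.rigid hκ T (fun y => y.1) (fun y => y.2.1) (fun y => y.2.2)
      (fun y hy => (hT1 y hy).1) hT2 (fun y hy => (hT1 y hy).2.2) hge hη

end

section
variable {V : Type} [AddCommGroup V] [Module ℂ V] [FiniteDimensional ℂ V]

/-- the local factor of `ρ ⊗ ρ̄` -/
theorem log_square (T : Module.End ℂ V) {R : ℝ} (hR : 0 ≤ R)
    (hT : ∀ l, T.HasEigenvalue l → ‖l‖ ≤ R) (z : ℂ) (hz : ‖z‖ * R ^ 2 ≤ 1 / 2) :
    ∃ G : ℂ, cexp G = (((T.charpoly.roots ×ˢ T.charpoly.roots).map fun x =>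
        1 - x.1 * conj x.2 * z).prod)⁻¹ ∧
      ‖G - z * ((‖LinearMap.trace ℂ _ T‖ ^ 2 : ℝ) : ℂ)‖ ≤
        (Module.finrank ℂ V : ℝ) ^ 2 * (‖z‖ * R ^ 2) ^ 2 := by
  classical
  set s := T.charpoly.roots with hs
  have hsp : (LinearMap.charpoly T).Splits := IsAlgClosed.splits _
  have hdeg : (LinearMap.charpoly T).natDegree = Module.finrank ℂ V :=
    LinearMap.charpoly_natDegree T
  have hcard : s.card = Module.finrank ℂ V := by
    rw [hs, ← hsp.natDegree_eq_card_roots, hdeg]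
  have hs2 : ∀ l ∈ s, T.HasEigenvalue l := fun l hl => by
    rw [Module.End.hasEigenvalue_iff_isRoot_charpoly]
    exact (Polynomial.mem_roots'.1 hl).2
  have hs3 : LinearMap.trace ℂ _ T = s.sum :=
    Module.End.trace_eq_sum_roots_charpoly_of_splits hsp
  have hx : ∀ x ∈ s ×ˢ s, ‖x.1 * conj x.2 * z‖ ≤ ‖z‖ * R ^ 2 := by
    intro x hx
    rw [Multiset.mem_product] at hx
    rw [norm_mul, norm_mul, Complex.norm_conj, mul_comm, pow_two]
    refine mul_le_mul_of_nonneg_left ?_ (norm_nonneg _)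
    exact mul_le_mul (hT _ (hs2 _ hx.1)) (hT _ (hs2 _ hx.2)) (norm_nonneg _) hR
  have hne : ∀ x ∈ s ×ˢ s, 1 - x.1 * conj x.2 * z ≠ 0 := by
    intro x hx' h
    have h1 : x.1 * conj x.2 * z = 1 := by linear_combination -h
    have h2 := hx x hx'
    rw [h1, norm_one] at h2
    linarith
  refine ⟨((s ×ˢ s).map fun x => -Complex.log (1 - x.1 * conj x.2 * z)).sum, ?_, ?_⟩
  · rw [Complex.exp_multiset_sum, Multiset.map_map, ← Multiset.prod_map_inv]
    refine congrArg _ (Multiset.map_congr rfl fun x hx' => ?_)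
    simp only [Function.comp_apply]
    rw [Complex.exp_neg, Complex.exp_log (hne x hx')]
  · have h3 : ((s ×ˢ s).map fun x => x.1 * conj x.2 * z).sum =
        z * ((‖LinearMap.trace ℂ _ T‖ ^ 2 : ℝ) : ℂ) := by
      have e1 : ((s ×ˢ s).map fun x => x.1 * conj x.2 * z).sum =
          (s.map fun a => (s.map fun b => a * conj b * z).sum).sum := by
        change ((Multiset.bind s fun a => s.map (Prod.mk a)).map
          fun x : ℂ × ℂ => x.1 * conj x.2 * z).sum = _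
        rw [Multiset.map_bind, Multiset.sum_bind]
        refine congrArg _ (Multiset.map_congr rfl fun a _ => ?_)
        rw [Multiset.map_map]
        rfl
      have e2 : ∀ a : ℂ, (s.map fun b => a * conj b * z).sum = a * (z * conj s.sum) := by
        intro a
        have e3 : (s.map fun b => a * conj b * z) = s.map fun b => (a * z) * conj b :=
          Multiset.map_congr rfl fun b _ => by ring
        rw [e3, Multiset.sum_map_mul_left, map_multiset_sum]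
        ring
      rw [e1]
      simp only [e2]
      rw [Multiset.sum_map_mul_right, Multiset.map_id', hs3]
      have e4 : ((‖s.sum‖ ^ 2 : ℝ) : ℂ) = s.sum * conj s.sum := by
        rw [Complex.mul_conj, Complex.normSq_eq_norm_sq]
      rw [e4]
      ring
    rw [← h3, ← Multiset.sum_map_sub]
    refine (norm_multiset_sum_le _).trans ?_
    rw [Multiset.map_map]
    have h6 : ∀ y ∈ (s ×ˢ s).map ((fun x => ‖x‖) ∘ fun x : ℂ × ℂ =>
        -Complex.log (1 - x.1 * conj x.2 * z) - x.1 * conj x.2 * z),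
        y ≤ (‖z‖ * R ^ 2) ^ 2 := by
      intro y hy
      rw [Multiset.mem_map] at hy
      obtain ⟨x, hx', rfl⟩ := hy
      simp only [Function.comp_apply]
      refine (norm_neg_log_sub_le ((hx x hx').trans hz)).trans ?_
      exact pow_le_pow_left₀ (norm_nonneg _) (hx x hx') 2
    refine (Multiset.sum_le_card_nsmul _ _ h6).trans ?_
    rw [Multiset.card_map, Multiset.card_product, hcard, nsmul_eq_mul]
    push_cast
    rw [← pow_two]

end

section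
variable {F : Type} [Field F] [NumberField F]

open Classical in
/-- the Euler product of `ρ ⊗ ρ̄` -/
noncomputable def SF {V : Type} [AddCommGroup V] [Module ℂ V] [FiniteDimensional ℂ V]
    (c : HeightOneSpectrum (𝓞 F) → Module.End ℂ V)
    (S : Finset (HeightOneSpectrum (𝓞 F)))
    (B : HeightOneSpectrum (𝓞 F) → ℂ[X]) (s : ℂ) : ℂ :=
  ∏' v : HeightOneSpectrum (𝓞 F),
    if v ∈ S then ((B v).eval (((Ideal.absNorm v.asIdeal : ℕ) : ℂ) ^ (-s)))⁻¹
    else ((((c v).charpoly.roots ×ˢ (c v).charpoly.roots).map fun x =>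
      1 - x.1 * conj x.2 * ((Ideal.absNorm v.asIdeal : ℕ) : ℂ) ^ (-s)).prod)⁻¹

theorem size_sq (V : Type) [AddCommGroup V] [Module ℂ V] [FiniteDimensional ℂ V]
    (c : HeightOneSpectrum (𝓞 F) → Module.End ℂ V) (w : ℝ)
    (S₀ : Finset (HeightOneSpectrum (𝓞 F))) (frob : HeightOneSpectrum (𝓞 F) → GK F)
    (hc : ∀ v, v ∉ S₀ → ∀ l, (c v).HasEigenvalue l → ‖l‖ ≤ (nm F v : ℝ) ^ w)
    (hfrob : ∀ v, IsFrob v (frob v))
    (S : Finset (HeightOneSpectrum (𝓞 F))) (hS : S₀ ⊆ S)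
    (B : HeightOneSpectrum (𝓞 F) → ℂ[X])
    (hB : ∀ v ∈ S, (B v).eval (((nm F v : ℕ) : ℂ) ^ (-(1 + 2 * w : ℂ))) ≠ 0) :
    (∀ᶠ ε : ℝ in 𝓝[>] 0, SF c S B (1 + 2 * w + ε) ≠ 0) ∧
    Tendsto (fun ε : ℝ => (detSy V c w S₀ frob hc hfrob).u ε -
      Real.log ‖SF c S B (1 + 2 * w + ε)‖ / Real.log (1 / ε)) (𝓝[>] 0) (𝓝 0) := by
  classical
  set sy := detSy V c w S₀ frob hc hfrob with hsy
  have hD : 0 ≤ sy.D := sy.hD
  have hN : NormSys (nm F) := normSys
  have hprod : ∀ v, ‖tn sy.t w S₀ v‖ ^ 2 ≤ sy.D ^ 2 := fun v =>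
    pow_le_pow_left₀ (norm_nonneg _) (norm_tn_le hD sy.ht v) 2
  set a : HeightOneSpectrum (𝓞 F) → ℂ := fun v =>
    if v ∉ S then ((‖tn sy.t w S₀ v‖ ^ 2 : ℝ) : ℂ) else 0 with ha
  have hab : ∀ v, ‖a v‖ ≤ sy.D ^ 2 := by
    intro v
    rw [ha]
    simp only
    by_cases hv : v ∈ S
    · rw [if_neg (not_not.2 hv), norm_zero]; positivity
    · rw [if_pos hv, Complex.norm_real, Real.norm_eq_abs, abs_of_nonneg (sq_nonneg _)]
      exact hprod v
  have ha0 : ∀ v, ¬ (v ∉ S) → a v = 0 := by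
    intro v hv
    rw [ha]
    simp only
    rw [if_neg hv]
  have hfin : {v : HeightOneSpectrum (𝓞 F) | ¬ (v ∉ S)}.Finite := by
    simp only [not_not]
    exact S.finite_toSet
  have hloc : ∀ (ε : ℝ) (v : HeightOneSpectrum (𝓞 F)), ∃ G : ℂ, 0 < ε → v ∉ S →
      cexp G = ((((c v).charpoly.roots ×ˢ (c v).charpoly.roots).map fun x =>
        1 - x.1 * conj x.2 * ((Ideal.absNorm v.asIdeal : ℕ) : ℂ) ^
          (-(1 + 2 * w + ε : ℂ))).prod)⁻¹ ∧
      ‖G - a v * (((nm F v : ℝ) ^ (-(1 + ε)) : ℝ) : ℂ)‖ ≤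
        ((Module.finrank ℂ V : ℝ) ^ 2) * (nm F v : ℝ) ^ (-2 : ℝ) := by
    intro ε v
    by_cases h : 0 < ε ∧ v ∉ S
    · obtain ⟨hε, hv⟩ := h
      have hv0 : v ∉ S₀ := fun h => hv (hS h)
      have hq0 : (0 : ℝ) < nm F v := by exact_mod_cast nm_pos v
      have hq2 : (2 : ℝ) ≤ nm F v := by exact_mod_cast two_le_nm v
      have hq1 : (1 : ℝ) ≤ nm F v := by linarith
      set z : ℂ := ((nm F v : ℕ) : ℂ) ^ (-(1 + 2 * w + ε : ℂ)) with hz
      have hzn : ‖z‖ = (nm F v : ℝ) ^ (-(1 + 2 * w + ε)) := by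
        rw [hz, Complex.norm_natCast_cpow_of_pos (nm_pos v)]
        congr 1
        simp
      have hzR : ‖z‖ * ((nm F v : ℝ) ^ w) ^ 2 = (nm F v : ℝ) ^ (-(1 + ε)) := by
        rw [hzn, ← Real.rpow_natCast, ← Real.rpow_mul hq0.le, ← Real.rpow_add hq0]
        congr 1
        push_cast
        ring
      have hle : (nm F v : ℝ) ^ (-(1 + ε)) ≤ (nm F v : ℝ) ^ (-1 : ℝ) :=
        Real.rpow_le_rpow_of_exponent_le hq1 (by linarith)
      have hsmall : (nm F v : ℝ) ^ (-(1 + ε)) ≤ 1 / 2 := by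
        refine hle.trans ?_
        rw [Real.rpow_neg_one, one_div]
        exact inv_anti₀ (by norm_num) hq2
      obtain ⟨G, hG1, hG2⟩ := log_square (c v) (by positivity : (0 : ℝ) ≤ (nm F v : ℝ) ^ w)
        (hc v hv0) z (by rw [hzR]; exact hsmall)
      refine ⟨G, fun _ _ => ⟨hG1, ?_⟩⟩
      have h2 : a v * (((nm F v : ℝ) ^ (-(1 + ε)) : ℝ) : ℂ) =
          z * ((‖LinearMap.trace ℂ _ (c v)‖ ^ 2 : ℝ) : ℂ) := by
        have h4 : sy.t v 1 = LinearMap.trace ℂ V (c v) := by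
          rw [hsy]
          unfold detSy
          simp
        have h5 : z = (((nm F v : ℝ) ^ (-(1 + 2 * w + ε)) : ℝ) : ℂ) := by
          rw [hz, Complex.ofReal_cpow hq0.le, Complex.ofReal_natCast]
          congr 1
          push_cast
          ring
        have h6 : ‖tn sy.t w S₀ v‖ = ‖LinearMap.trace ℂ V (c v)‖ * (nm F v : ℝ) ^ (-w) := by
          rw [tn, if_neg hv0, norm_mul, Complex.norm_natCast_cpow_of_pos (nm_pos v), h4]
          simp
        rw [ha]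
        simp only
        rw [if_pos hv, h5, h6, ← Complex.ofReal_mul, ← Complex.ofReal_mul]
        congr 1
        have h7 : ((nm F v : ℝ) ^ (-w)) ^ 2 * (nm F v : ℝ) ^ (-(1 + ε)) =
            (nm F v : ℝ) ^ (-(1 + 2 * w + ε)) := by
          rw [← Real.rpow_natCast, ← Real.rpow_mul hq0.le, ← Real.rpow_add hq0]
          congr 1
          push_cast
          ring
        rw [← h7]
        ring
      rw [h2]
      refine hG2.trans ?_
      rw [hzR]
      refine mul_le_mul_of_nonneg_left ?_ (by positivity)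
      calc ((nm F v : ℝ) ^ (-(1 + ε))) ^ 2 ≤ ((nm F v : ℝ) ^ (-1 : ℝ)) ^ 2 :=
            pow_le_pow_left₀ (by positivity) hle 2
        _ = (nm F v : ℝ) ^ (-2 : ℝ) := by
            rw [← Real.rpow_natCast, ← Real.rpow_mul hq0.le]
            norm_num
    · exact ⟨0, fun h1 h2 => absurd ⟨h1, h2⟩ h⟩
  choose G hG using hloc
  obtain ⟨C', hC'⟩ := sizeP hN (Good := fun v : HeightOneSpectrum (𝓞 F) => v ∉ S) hfin B
    (1 + 2 * w) (fun v hv => hB v (not_not.1 hv)) a hab ha0 G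
    (C := (Module.finrank ℂ V : ℝ) ^ 2)
    (fun ε hε v hv => (hG ε v hε hv).2)
    (L := fun ε => SF c S B (1 + 2 * w + ε))
    (by
      intro ε hε
      unfold SF
      refine tprod_congr fun v => ?_
      by_cases hv : v ∈ S
      · rw [if_pos hv, if_neg (not_not.2 hv)]
        rfl
      · rw [if_neg hv, if_pos hv]
        exact (hG ε v hε hv).1.symm)
  set r : HeightOneSpectrum (𝓞 F) → ℝ := fun v =>
    ‖tn sy.t w S₀ v‖ ^ 2 - (a v).re with hr
  have hr0 : ∀ v, v ∉ S → r v = 0 := by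
    intro v hv
    rw [hr, ha]
    simp only
    rw [if_pos hv, Complex.ofReal_re, sub_self]
  have hrb : ∀ v, |r v| ≤ 2 * sy.D ^ 2 := by
    intro v
    rw [hr]
    simp only
    have h1 : |‖tn sy.t w S₀ v‖ ^ 2| ≤ sy.D ^ 2 := by
      rw [abs_of_nonneg (sq_nonneg _)]
      exact hprod v
    have h2 : |(a v).re| ≤ sy.D ^ 2 := (Complex.abs_re_le_norm _).trans (hab v)
    rw [abs_le] at *
    constructor <;> linarith [h1.1, h1.2, h2.1, h2.2]
  have hsplit : ∀ ε : ℝ, 0 < ε →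
      (EP (nm F) ε fun v => ‖tn sy.t w S₀ v‖ ^ 2) =
      (EP (nm F) ε fun v => (a v).re) + EP (nm F) ε r := by
    intro ε hε
    rw [← EP_add hN hε (B := sy.D ^ 2) (B' := 2 * sy.D ^ 2)
      (fun v => (Complex.abs_re_le_norm _).trans (hab v)) hrb]
    congr 1
    funext v
    rw [hr]
    ring
  refine ⟨hC'.mono fun _ h => h.1, ?_⟩
  have hbd : ∀ᶠ ε : ℝ in 𝓝[>] 0, |EP (nm F) ε fun v => ‖tn sy.t w S₀ v‖ ^ 2| ≤
      (sy.D ^ 2 + 1) * lam ε := by
    filter_upwards [sy.bd_D 1 one_pos, lam_tendsto.eventually_gt_atTop 0] with ε h1 h2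
    have h3 : (EP (nm F) ε fun v => ‖tn sy.t sy.w sy.S₀ v‖ ^ 2) / lam ε ≤ sy.D ^ 2 + 1 := h1
    rw [div_le_iff₀ h2] at h3
    rw [abs_of_nonneg (EP_nonneg fun v => sq_nonneg _)]
    exact h3
  refine size_compare (M := sy.D ^ 2 + 1) (C := C' + S.card * (2 * sy.D ^ 2)) hbd ?_
  filter_upwards [hC', self_mem_nhdsWithin] with ε h1 h2
  have hε : (0 : ℝ) < ε := h2
  have h4 := EP_finsupp hN S r hr0 _ hrb hε
  have h5 : (EP (nm F) ε fun v => ‖tn sy.t w S₀ v‖ ^ 2) -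
      Real.log ‖SF c S B (1 + 2 * w + ε)‖ =
      ((EP (nm F) ε fun v => (a v).re) -
        Real.log ‖SF c S B (1 + 2 * w + ε)‖) + EP (nm F) ε r := by
    rw [hsplit ε hε]
    ring
  change |(EP (nm F) ε fun v => ‖tn sy.t w S₀ v‖ ^ 2) -
      Real.log ‖SF c S B (1 + 2 * w + ε)‖| ≤ _
  rw [h5]
  exact (abs_add_le _ _).trans (add_le_add h1.2 h4)

theorem log_atTop : Tendsto (fun ε : ℝ => Real.log (1 / ε)) (𝓝[>] 0) atTop := by
  have h1 := tendsto_neg_atBot_atTop.comp Real.tendsto_log_nhdsGT_zero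
  refine h1.congr fun ε => ?_
  rw [one_div, Real.log_inv]
  rfl

open Classical in
/-- the mean square of the difference, in terms of the traces -/
theorem mean_conv (V : Type) [AddCommGroup V] [Module ℂ V] [FiniteDimensional ℂ V]
    (c : HeightOneSpectrum (𝓞 F) → Module.End ℂ V) (w : ℝ)
    (S₀ : Finset (HeightOneSpectrum (𝓞 F))) (frob : HeightOneSpectrum (𝓞 F) → GK F)
    (hc : ∀ v, v ∉ S₀ → ∀ l, (c v).HasEigenvalue l → ‖l‖ ≤ (nm F v : ℝ) ^ w)
    (hfrob : ∀ v, IsFrob v (frob v)) (T : Finset (ArtinRep F × ℝ × ℤ))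
    (h : ∀ η : ℝ, 0 < η → ∀ᶠ ε : ℝ in 𝓝[>] 0,
      (EP (nm F) ε fun v => ‖tn (detSy V c w S₀ frob hc hfrob).t w S₀ v +
          ∑ y ∈ T, ((y.2.2 : ℝ) : ℂ) * vv frob y.1 y.2.1 v‖ ^ 2) / lam ε ≤ η) :
    ∀ η : ℝ, 0 < η → ∀ᶠ ε : ℝ in 𝓝[>] 0,
      ∑' v : HeightOneSpectrum (𝓞 F), (if v ∈ S₀ then 0 else
        ‖LinearMap.trace ℂ V (c v) + ∑ y ∈ T, (y.2.2 : ℂ) *
          ((Ideal.absNorm v.asIdeal : ℕ) : ℂ) ^ ((w : ℂ) + y.2.1 * I) *
            y.1.ρ.character (frob v)‖ ^ 2 *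
          (Ideal.absNorm v.asIdeal : ℝ) ^ (-(1 + 2 * w + ε))) ≤ η * Real.log (1 / ε) := by
  intro η hη
  have hN : NormSys (nm F) := normSys
  set sy := detSy V c w S₀ frob hc hfrob with hsy
  obtain ⟨C3, hC3⟩ := lam_bounded
  have hlog := log_atTop
  filter_upwards [h (η / 2) (half_pos hη), hC3, hlog.eventually_ge_atTop C3,
    hlog.eventually_gt_atTop 0, lam_tendsto.eventually_gt_atTop 0, self_mem_nhdsWithin]
    with ε h1 h2 h3 h4 h5 h6
  have hε : (0 : ℝ) < ε := h6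
  rw [div_le_iff₀ h5] at h1
  have e0 : Real.log (1 / ε) = -Real.log ε := by rw [one_div, Real.log_inv]
  have h7 : lam ε ≤ 2 * Real.log (1 / ε) := by
    have := (abs_le.1 h2).2
    rw [e0] at h3 ⊢
    linarith
  have hb : ∀ v, ‖tn sy.t w S₀ v + ∑ y ∈ T, ((y.2.2 : ℝ) : ℂ) * vv frob y.1 y.2.1 v‖ ≤
      sy.D + ∑ y ∈ T, |(y.2.2 : ℝ)| * y.1.n := by
    intro v
    refine (norm_add_le _ _).trans (add_le_add (norm_tn_le sy.hD sy.ht v) ?_)
    refine (norm_sum_le _ _).trans (Finset.sum_le_sum fun y _ => ?_)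
    rw [norm_mul, Complex.norm_real, Real.norm_eq_abs]
    exact mul_le_mul_of_nonneg_left (norm_vv_le y.1 y.2.1 v) (abs_nonneg _)
  have hb2 : ∀ v, |‖tn sy.t w S₀ v + ∑ y ∈ T, ((y.2.2 : ℝ) : ℂ) * vv frob y.1 y.2.1 v‖ ^ 2| ≤
      (sy.D + ∑ y ∈ T, |(y.2.2 : ℝ)| * y.1.n) ^ 2 := by
    intro v
    rw [abs_of_nonneg (sq_nonneg _)]
    exact pow_le_pow_left₀ (norm_nonneg _) (hb v) 2
  have hsum := summable_EP hN hε hb2
  have hterm : ∀ v : HeightOneSpectrum (𝓞 F), v ∉ S₀ →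
      ‖LinearMap.trace ℂ V (c v) + ∑ y ∈ T, (y.2.2 : ℂ) *
          ((Ideal.absNorm v.asIdeal : ℕ) : ℂ) ^ ((w : ℂ) + y.2.1 * I) *
            y.1.ρ.character (frob v)‖ ^ 2 *
          (Ideal.absNorm v.asIdeal : ℝ) ^ (-(1 + 2 * w + ε)) =
      ‖tn sy.t w S₀ v + ∑ y ∈ T, ((y.2.2 : ℝ) : ℂ) * vv frob y.1 y.2.1 v‖ ^ 2 *
        (nm F v : ℝ) ^ (-(1 + ε)) := by
    intro v hv
    have hq0 : (0 : ℝ) < nm F v := by exact_mod_cast nm_pos v
    have hvc : ((nm F v : ℕ) : ℂ) ≠ 0 := by exact_mod_cast (nm_pos v).ne'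
    have h8 : sy.t v 1 = LinearMap.trace ℂ V (c v) := by
      rw [hsy]
      unfold detSy
      simp
    have h9 : tn sy.t w S₀ v + ∑ y ∈ T, ((y.2.2 : ℝ) : ℂ) * vv frob y.1 y.2.1 v =
        ((nm F v : ℕ) : ℂ) ^ (-(w : ℂ)) * (LinearMap.trace ℂ V (c v) + ∑ y ∈ T, (y.2.2 : ℂ) *
          ((Ideal.absNorm v.asIdeal : ℕ) : ℂ) ^ ((w : ℂ) + y.2.1 * I) *
            y.1.ρ.character (frob v)) := by
      rw [mul_add, tn, if_neg hv, h8, Finset.mul_sum, mul_comm]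
      congr 1
      refine Finset.sum_congr rfl fun y _ => ?_
      obtain ⟨U, hU1, hU2, hU⟩ := exists_common {y.1}
      haveI := finite_quot hU2
      have h10 : conj (y.1.χ (frob v)⁻¹) = y.1.χ (frob v) :=
        char_conj_eq U y.1.ρ (hU y.1 (by simp)) _
      rw [vv, map_mul, conj_cpow_I (nm_pos v), h10]
      have h11 : ((nm F v : ℕ) : ℂ) ^ (-(w : ℂ)) * ((nm F v : ℕ) : ℂ) ^ ((w : ℂ) + y.2.1 * I) =
          ((nm F v : ℕ) : ℂ) ^ (y.2.1 * I) := by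
        rw [← Complex.cpow_add _ _ hvc]
        congr 1
        ring
      change _ = ((nm F v : ℕ) : ℂ) ^ (-(w : ℂ)) * ((y.2.2 : ℂ) *
        ((nm F v : ℕ) : ℂ) ^ ((w : ℂ) + y.2.1 * I) * y.1.ρ.character (frob v))
      rw [← h11]
      unfold ArtinRep.χ
      push_cast
      ring
    rw [h9, norm_mul, Complex.norm_natCast_cpow_of_pos (nm_pos v), mul_pow]
    have h12 : ((nm F v : ℝ) ^ (-(w : ℂ)).re) ^ 2 * (nm F v : ℝ) ^ (-(1 + ε)) =
        (nm F v : ℝ) ^ (-(1 + 2 * w + ε)) := by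
      rw [Complex.neg_re, Complex.ofReal_re, ← Real.rpow_natCast, ← Real.rpow_mul hq0.le,
        ← Real.rpow_add hq0]
      congr 1
      push_cast
      ring
    change _ * (nm F v : ℝ) ^ (-(1 + 2 * w + ε)) = _
    rw [← h12]
    ring
  have hle : ∀ v : HeightOneSpectrum (𝓞 F), (if v ∈ S₀ then (0 : ℝ) else
        ‖LinearMap.trace ℂ V (c v) + ∑ y ∈ T, (y.2.2 : ℂ) *
          ((Ideal.absNorm v.asIdeal : ℕ) : ℂ) ^ ((w : ℂ) + y.2.1 * I) *
            y.1.ρ.character (frob v)‖ ^ 2 *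
          (Ideal.absNorm v.asIdeal : ℝ) ^ (-(1 + 2 * w + ε))) ≤
      ‖tn sy.t w S₀ v + ∑ y ∈ T, ((y.2.2 : ℝ) : ℂ) * vv frob y.1 y.2.1 v‖ ^ 2 *
        (nm F v : ℝ) ^ (-(1 + ε)) := by
    intro v
    split_ifs with hv
    · positivity
    · exact (hterm v hv).le
  have hnn : ∀ v : HeightOneSpectrum (𝓞 F), 0 ≤ (if v ∈ S₀ then (0 : ℝ) else
        ‖LinearMap.trace ℂ V (c v) + ∑ y ∈ T, (y.2.2 : ℂ) *
          ((Ideal.absNorm v.asIdeal : ℕ) : ℂ) ^ ((w : ℂ) + y.2.1 * I) *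
            y.1.ρ.character (frob v)‖ ^ 2 *
          (Ideal.absNorm v.asIdeal : ℝ) ^ (-(1 + 2 * w + ε))) := by
    intro v
    split_ifs with hv
    · exact le_rfl
    · positivity
  refine (Summable.tsum_le_tsum hle (Summable.of_nonneg_of_le hnn hle hsum) hsum).trans ?_
  refine h1.trans ?_
  nlinarith

end

end Pool.Agent.W385.GA
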