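import Pool.Agent.W385.GA.Govern

/-!
# The orders of all Artin twists
-/

set_option autoImplicit false
set_option linter.style.haveILetI false
set_option linter.unusedSectionVars false

namespace Pool.Agent.W385.GA

open Complex Filter Topology ComplexConjugate Pool.Agent.H341R2 NumberField IsDedekindDomain
  Pool.Agent.W401.Cheb Polynomial Pool.Agent.W540.BE

section
variable {F : Type} [Field F] [NumberField F]

theorem homDim_irr {A : ArtinRep F} (h : A.ρ.IsIrreducible) : homDim A A = 1 := by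
  haveI := h
  exact Representation.IsIrreducible.finrank_intertwiningMap_self A.ρ

theorem equiv_of_homDim {A B : ArtinRep F} (hA : A.ρ.IsIrreducible) (hB : B.ρ.IsIrreducible)
    (h : homDim A B ≠ 0) : Nonempty (A.ρ.Equiv B.ρ) := by
  haveI := hA
  haveI := hB
  obtain ⟨f, x, hx⟩ := exists_of_homDim h
  rcases Representation.IsIrreducible.bijective_or_eq_zero f with h1 | h1
  · refine ⟨Representation.Equiv.mk (LinearEquiv.ofBijective f.toLinearMap h1) fun g => ?_⟩
    apply LinearMap.ext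
    intro y
    exact itw f g y
  · exact absurd (by rw [h1]; rfl) hx

/-- the main term has the limit `-m` -/
def Sy.Lim (s : Sy F) (A : ArtinRep F) (τ : ℝ) (m : ℤ) : Prop :=
  Tendsto (s.x A τ) (𝓝[>] 0) (𝓝 (-(m : ℝ)))

theorem Sy.lim_unique (s : Sy F) {A : ArtinRep F} {τ : ℝ} {m m' : ℤ} (h : s.Lim A τ m)
    (h' : s.Lim A τ m') : m = m' := by
  have := tendsto_nhds_unique h h'
  exact_mod_cast neg_injective this

theorem Sy.lim_congr (s : Sy F) {A B : ArtinRep F} (h : ∀ g, A.χ g = B.χ g) {τ : ℝ} {m : ℤ}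
    (h' : s.Lim A τ m) : s.Lim B τ m := by
  unfold Sy.Lim at h' ⊢
  have : s.x A τ = s.x B τ := by
    funext ε
    exact s.x_congr h τ ε
  rwa [← this]

theorem Sy.lim_add (s : Sy F) {A B C : ArtinRep F} (h : ∀ g, A.χ g = B.χ g + C.χ g) {τ : ℝ}
    {m m' : ℤ} (hB : s.Lim B τ m) (hC : s.Lim C τ m') : s.Lim A τ (m + m') := by
  unfold Sy.Lim at *
  have h1 := hB.add hC
  have h2 : -(((m + m' : ℤ)) : ℝ) = -(m : ℝ) + -(m' : ℝ) := by
    push_cast
    ring
  rw [h2]
  refine h1.congr' ?_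
  filter_upwards [self_mem_nhdsWithin] with ε hε
  exact (s.x_add h τ hε).symm

theorem Sy.lim_zero (s : Sy F) {A : ArtinRep F} (h : A.n = 0) (τ : ℝ) : s.Lim A τ 0 := by
  unfold Sy.Lim
  have : s.x A τ = fun _ => 0 := by
    funext ε
    exact s.x_zero h τ ε
  rw [this]
  simp

/-- a representation that is not exceptional has order zero -/
theorem Sy.lim_of_non (s : Sy F) {c : ℝ} (hc : c ≤ 1) {A : ArtinRep F} {τ : ℝ} {m : ℤ}
    (h : s.Non c A τ) (h' : s.Lim A τ m) : m = 0 := by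
  obtain ⟨δ, hδ, h1⟩ := h
  have h2 : |-(m : ℝ)| ≤ δ := by
    by_contra hcon
    push Not at hcon
    have h3 : ∀ᶠ ε : ℝ in 𝓝[>] 0, δ < |s.x A τ ε| := h'.abs.eventually_const_lt hcon
    obtain ⟨ε, h4, h5⟩ := (h1.and_eventually h3).exists
    linarith
  rw [abs_neg] at h2
  have h3 : |(m : ℝ)| < 1 := by linarith
  have h4 : |m| < 1 := by exact_mod_cast h3
  rw [abs_lt] at h4
  omega

/-- the squares of the orders of inequivalent irreducible representations -/
theorem Sy.sum_sq (s : Sy F) {κ : Type*} (K : Finset κ) (A : κ → ArtinRep F) (τ : κ → ℝ)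
    (m : κ → ℤ) (hirr : ∀ k ∈ K, (A k).ρ.IsIrreducible)
    (hne : ∀ k ∈ K, ∀ l ∈ K, k ≠ l → τ k = τ l → IsEmpty ((A k).ρ.Equiv (A l).ρ))
    (hlim : ∀ k ∈ K, s.Lim (A k) (τ k) (m k)) : ∑ k ∈ K, (m k : ℝ) ^ 2 ≤ s.D ^ 2 := by
  classical
  refine le_of_forall_pos_le_add fun η hη => ?_
  have h1 := bessel s.hD s.ht s.hfrob K A τ (fun k hk l hl hkl h => by
    by_contra hcon
    exact (hne k hk l hl hkl h).false
      (equiv_of_homDim (hirr k hk) (hirr l hl) hcon).some) hη
  have h2 : Tendsto (fun ε : ℝ => ∑ k ∈ K, X0 s.t s.w s.S₀ s.frob (A k) (τ k) ε ^ 2 /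
      homDim (A k) (A k)) (𝓝[>] 0) (𝓝 (∑ k ∈ K, (m k : ℝ) ^ 2)) := by
    refine tendsto_finsetSum _ fun k hk => ?_
    have h3 : Tendsto (fun ε : ℝ => X0 s.t s.w s.S₀ s.frob (A k) (τ k) ε) (𝓝[>] 0)
        (𝓝 (-(m k : ℝ))) := hlim k hk
    have h4 := (h3.pow 2).div_const (homDim (A k) (A k) : ℝ)
    rw [homDim_irr (hirr k hk), Nat.cast_one, div_one, neg_sq] at h4
    rw [homDim_irr (hirr k hk), Nat.cast_one]
    exact h4
  exact le_of_tendsto h2 h1

open Classical in
/-- the list of the exceptional irreducible representations -/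
theorem Sy.exists_list (s : Sy F) :
    ∃ T : Finset (ArtinRep F × ℝ × ℤ),
      (∀ y ∈ T, y.1.ρ.IsIrreducible ∧ y.2.2 ≠ 0 ∧ s.Lim y.1 y.2.1 y.2.2) ∧
      (∀ y ∈ T, ∀ z ∈ T, y ≠ z → y.2.1 = z.2.1 → IsEmpty (y.1.ρ.Equiv z.1.ρ)) ∧
      (∑ y ∈ T, (y.2.2 : ℝ) ^ 2 ≤ s.D ^ 2) ∧
      ∀ (A : ArtinRep F) (τ : ℝ) (m : ℤ), A.ρ.IsIrreducible → s.Lim A τ m → m ≠ 0 →
        ∃ y ∈ T, y.2.1 = τ ∧ Nonempty (y.1.ρ.Equiv A.ρ) := by
  set P : Finset (ArtinRep F × ℝ × ℤ) → Prop := fun T =>
    (∀ y ∈ T, y.1.ρ.IsIrreducible ∧ y.2.2 ≠ 0 ∧ s.Lim y.1 y.2.1 y.2.2) ∧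
    ∀ y ∈ T, ∀ z ∈ T, y ≠ z → y.2.1 = z.2.1 → IsEmpty (y.1.ρ.Equiv z.1.ρ) with hP
  have hsum : ∀ T, P T → ∑ y ∈ T, (y.2.2 : ℝ) ^ 2 ≤ s.D ^ 2 := fun T hT =>
    s.sum_sq T (fun y => y.1) (fun y => y.2.1) (fun y => y.2.2) (fun y hy => (hT.1 y hy).1) hT.2
      (fun y hy => (hT.1 y hy).2.2)
  have hB : ∀ T, P T → T.card ≤ ⌊s.D ^ 2⌋₊ := by
    intro T hT
    refine Nat.le_floor ?_
    refine le_trans ?_ (hsum T hT)
    rw [Finset.card_eq_sum_ones]
    push_cast
    refine Finset.sum_le_sum fun y hy => ?_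
    have h1 := Int.one_le_abs (hT.1 y hy).2.1
    have h2 : (1 : ℝ) ≤ |(y.2.2 : ℝ)| := by exact_mod_cast h1
    rw [← sq_abs]
    nlinarith
  have h0 : ∃ T, P T ∧ T.card = 0 := ⟨∅, ⟨by simp, by simp⟩, rfl⟩
  obtain ⟨T, hT, hTc⟩ := Nat.findGreatest_spec (P := fun n => ∃ T, P T ∧ T.card = n)
    (Nat.zero_le ⌊s.D ^ 2⌋₊) h0
  refine ⟨T, hT.1, hT.2, hsum T hT, fun A τ m hA hm hm0 => ?_⟩
  by_contra hcon
  push Not at hcon
  have hnot : (A, τ, m) ∉ T := fun hmem =>
    (not_isEmpty_iff.2 ⟨Representation.Equiv.refl _⟩) (hcon (A, τ, m) hmem rfl)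
  have hT1 : P (insert (A, τ, m) T) := by
    refine ⟨fun y hy => ?_, fun y hy z hz hyz h => ?_⟩
    · rcases Finset.mem_insert.1 hy with rfl | hy
      · exact ⟨hA, hm0, hm⟩
      · exact hT.1 y hy
    · rcases Finset.mem_insert.1 hy with rfl | hy
      · rcases Finset.mem_insert.1 hz with rfl | hz
        · exact absurd rfl hyz
        · exact ⟨fun e => (hcon z hz h.symm).false e.symm⟩
      · rcases Finset.mem_insert.1 hz with rfl | hz
        · exact hcon y hy h
        · exact hT.2 y hy z hz hyz h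
  have h2 := Nat.le_findGreatest (P := fun n => ∃ T, P T ∧ T.card = n) (hB _ hT1)
    ⟨_, hT1, rfl⟩
  rw [Finset.card_insert_of_notMem hnot, hTc] at h2
  omega

theorem exists_proper {A : ArtinRep F} (h : A.n ≠ 0) (hirr : ¬ A.ρ.IsIrreducible) :
    ∃ B C : ArtinRep F, (∀ g, A.χ g = B.χ g + C.χ g) ∧ B.n < A.n ∧ C.n < A.n := by
  have hnt : Nontrivial (Subrepresentation A.ρ) := by
    refine ⟨⟨⊥, ⊤, fun h1 => ?_⟩⟩
    have h2 : (fun _ => 1 : Fin A.n → ℂ) ∈ (⊤ : Subrepresentation A.ρ).toSubmodule := trivial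
    rw [← h1] at h2
    have h3 : (fun _ => 1 : Fin A.n → ℂ) = 0 := h2
    have h4 := congrFun h3 ⟨0, Nat.pos_of_ne_zero h⟩
    simp at h4
  obtain ⟨S, hS1, hS2⟩ : ∃ S : Subrepresentation A.ρ, S ≠ ⊥ ∧ S ≠ ⊤ := by
    by_contra hcon
    push Not at hcon
    refine hirr ?_
    refine { hnt with eq_bot_or_eq_top := fun S => ?_ }
    by_cases h : S = ⊥
    · exact Or.inl h
    · exact Or.inr (hcon S h)
  have hW : ∀ g, S.toSubmodule ≤ S.toSubmodule.comap (A.ρ g) := fun g x hx =>
    S.apply_mem_toSubmodule g hx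
  have hbot : S.toSubmodule ≠ ⊥ := fun h => hS1 (Subrepresentation.toSubmodule_injective h)
  have htop : S.toSubmodule ≠ ⊤ := fun h => hS2 (Subrepresentation.toSubmodule_injective h)
  refine ⟨A.sub S.toSubmodule hW, A.quo S.toSubmodule hW, chi_sub_quo A _ hW, ?_, ?_⟩
  · have h1 : Module.finrank ℂ S.toSubmodule < Module.finrank ℂ (Fin A.n → ℂ) :=
      Submodule.finrank_lt htop
    rw [Module.finrank_fin_fun] at h1
    exact h1
  · have h1 := n_sub_quo A _ hW
    have h2 : 0 < (A.sub S.toSubmodule hW).n := by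
      change 0 < Module.finrank ℂ S.toSubmodule
      exact Nat.pos_of_ne_zero fun h => hbot (Submodule.finrank_eq_zero.1 h)
    omega

open Classical in
/-- **the orders of all Artin twists** -/
theorem Sy.lim_formula (s : Sy F) {T : Finset (ArtinRep F × ℝ × ℤ)}
    (hT1 : ∀ y ∈ T, y.1.ρ.IsIrreducible ∧ y.2.2 ≠ 0 ∧ s.Lim y.1 y.2.1 y.2.2)
    (hT2 : ∀ y ∈ T, ∀ z ∈ T, y ≠ z → y.2.1 = z.2.1 → IsEmpty (y.1.ρ.Equiv z.1.ρ))
    (hT3 : ∀ (A : ArtinRep F) (τ : ℝ) (m : ℤ), A.ρ.IsIrreducible → s.Lim A τ m → m ≠ 0 →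
        ∃ y ∈ T, y.2.1 = τ ∧ Nonempty (y.1.ρ.Equiv A.ρ))
    (τ : ℝ) : ∀ (n : ℕ) (A : ArtinRep F), A.n = n →
      (∀ B : ArtinRep F, B.ρ.IsIrreducible → homDim B A ≠ 0 → ∃ m, s.Lim B τ m) →
      s.Lim A τ (∑ y ∈ T, if y.2.1 = τ then y.2.2 * (homDim y.1 A : ℤ) else 0) := by
  intro n
  induction n using Nat.strong_induction_on with
  | _ n ih =>
    intro A hAn hA
    by_cases h0 : A.n = 0
    · have h1 : (∑ y ∈ T, if y.2.1 = τ then y.2.2 * (homDim y.1 A : ℤ) else 0) = 0 := by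
        refine Finset.sum_eq_zero fun y _ => ?_
        have h2 : homDim y.1 A = 0 := homDim_eq_zero fun f x => by
          funext i
          exact absurd i.2 (by omega)
        rw [h2]
        simp
      rw [h1]
      exact s.lim_zero h0 τ
    by_cases hirr : A.ρ.IsIrreducible
    · obtain ⟨m, hm⟩ := hA A hirr (by rw [homDim_irr hirr]; exact one_ne_zero)
      by_cases hm0 : m = 0
      · subst hm0
        have h1 : (∑ y ∈ T, if y.2.1 = τ then y.2.2 * (homDim y.1 A : ℤ) else 0) = 0 := by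
          refine Finset.sum_eq_zero fun y hy => ?_
          split_ifs with hτ
          · by_cases h2 : homDim y.1 A = 0
            · rw [h2]
              simp
            · exfalso
              have h3 := equiv_of_homDim (hT1 y hy).1 hirr h2
              have h4 := s.lim_congr (chi_of_equiv h3) (hT1 y hy).2.2
              rw [hτ] at h4
              exact (hT1 y hy).2.1 (s.lim_unique h4 hm)
          · rfl
        rw [h1]
        exact hm
      · obtain ⟨z, hz, hzτ, hze⟩ := hT3 A τ m hirr hm hm0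
        have h1 : (∑ y ∈ T, if y.2.1 = τ then y.2.2 * (homDim y.1 A : ℤ) else 0) = m := by
          rw [Finset.sum_eq_single_of_mem z hz]
          · rw [if_pos hzτ]
            have h4 := s.lim_congr (chi_of_equiv hze) (hT1 z hz).2.2
            rw [hzτ] at h4
            have h5 := s.lim_unique h4 hm
            have h6 : homDim z.1 A = 1 := by
              have h7 : homDim z.1 A = homDim A A + homDim ⟨0, 1, ⊤, isOpen_univ, fun _ _ => rfl⟩ A :=
                homDim_add_left fun g => by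
                  rw [chi_of_equiv hze g]
                  have : (⟨0, 1, ⊤, isOpen_univ, fun _ _ => rfl⟩ : ArtinRep F).χ g = 0 := by
                    rw [← norm_le_zero_iff]
                    simpa using norm_chi_le (⟨0, 1, ⊤, isOpen_univ, fun _ _ => rfl⟩ : ArtinRep F) g
                  rw [this, add_zero]
              have h8 : homDim (⟨0, 1, ⊤, isOpen_univ, fun _ _ => rfl⟩ : ArtinRep F) A = 0 :=
                homDim_eq_zero fun f x => by
                  have : x = 0 := Subsingleton.elim _ _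
                  rw [this]
                  exact f.toLinearMap.map_zero
              rw [h7, h8, homDim_irr hirr]
            rw [h6, h5]
            simp
          · intro y hy hyz
            split_ifs with hτ
            · by_cases h2 : homDim y.1 A = 0
              · rw [h2]
                simp
              · exfalso
                obtain ⟨e⟩ := equiv_of_homDim (hT1 y hy).1 hirr h2
                obtain ⟨e'⟩ := hze
                exact (hT2 y hy z hz hyz (hτ.trans hzτ.symm)).false (e.trans e'.symm)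
            · rfl
        rw [h1]
        exact hm
    · obtain ⟨B, C, hBC, hB, hC⟩ := exists_proper h0 hirr
      have h1 := ih B.n (by omega) B rfl fun E hE hE0 => hA E hE (by
        rw [homDim_add_right hBC]
        omega)
      have h2 := ih C.n (by omega) C rfl fun E hE hE0 => hA E hE (by
        rw [homDim_add_right hBC]
        omega)
      have h3 := s.lim_add hBC h1 h2
      rw [← Finset.sum_add_distrib] at h3
      have h4 : (∑ y ∈ T, if y.2.1 = τ then y.2.2 * (homDim y.1 A : ℤ) else 0) =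
          ∑ y ∈ T, ((if y.2.1 = τ then y.2.2 * (homDim y.1 B : ℤ) else 0) +
            if y.2.1 = τ then y.2.2 * (homDim y.1 C : ℤ) else 0) := by
        refine Finset.sum_congr rfl fun y _ => ?_
        split_ifs
        · rw [homDim_add_right hBC]
          push_cast
          ring
        · simp
      rw [h4]
      exact h3

end

end Pool.Agent.W385.GA
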