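import Mathlib

/-!
# Artin representations of number fields
-/

set_option autoImplicit false

namespace Pool.Agent.W385.GA

/-- An Artin representation of the field `F`: a representation of its absolute Galois group on `ℂⁿ`
that is trivial on an open subgroup. -/
structure ArtinRep (F : Type) [Field F] where
  n : ℕ
  ρ : Representation ℂ Gal(AlgebraicClosure F/F) (Fin n → ℂ)
  artin : ∃ U : Subgroup Gal(AlgebraicClosure F/F),
    IsOpen (U : Set Gal(AlgebraicClosure F/F)) ∧ ∀ u ∈ U, ρ u = 1

/-- The dimension of `Hom(A, B)`. -/
noncomputable def homDim {F : Type} [Field F] (A B : ArtinRep F) : ℕ :=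
  Module.finrank ℂ (A.ρ.IntertwiningMap B.ρ)

end Pool.Agent.W385.GA
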