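import Pool.Agent.W385.GA.Defs
import Pool.Agent.W540.BE.Core2

/-!
# Characters of Artin representations
-/

set_option autoImplicit false

namespace Pool.Agent.W385.GA

open Pool.Agent.W540.BE (qrep ortho2)

section
variable {F : Type} [Field F]

/-- the character -/
noncomputable def ArtinRep.χ (A : ArtinRep F) (g : Gal(AlgebraicClosure F/F)) : ℂ :=
  A.ρ.character g

/-- the kernel of an Artin representation is open -/
theorem ArtinRep.isOpen_ker (A : ArtinRep F) :
    IsOpen ((A.ρ.ker : Subgroup Gal(AlgebraicClosure F/F)) : Set Gal(AlgebraicClosure F/F)) := by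
  obtain ⟨U, hU, h⟩ := A.artin
  exact Subgroup.isOpen_mono (H₁ := U) (fun u hu => h u hu) hU

/-- a common open normal subgroup -/
theorem exists_common (T : Finset (ArtinRep F)) :
    ∃ U : Subgroup Gal(AlgebraicClosure F/F), U.Normal ∧
      IsOpen (U : Set Gal(AlgebraicClosure F/F)) ∧ ∀ A ∈ T, ∀ u ∈ U, A.ρ u = 1 := by
  classical
  refine ⟨⨅ A ∈ T, A.ρ.ker, ?_, ?_, ?_⟩
  · exact Subgroup.normal_iInf_normal fun A => Subgroup.normal_iInf_normal fun _ =>
      MonoidHom.normal_ker _
  · have : ((⨅ A ∈ T, A.ρ.ker : Subgroup Gal(AlgebraicClosure F/F)) :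
        Set Gal(AlgebraicClosure F/F)) = ⋂ A ∈ T, (A.ρ.ker : Set Gal(AlgebraicClosure F/F)) := by
      ext g
      simp
    rw [this]
    exact isOpen_biInter_finset fun A _ => A.isOpen_ker
  · intro A hA u hu
    rw [Subgroup.mem_iInf] at hu
    have h1 := hu A
    rw [Subgroup.mem_iInf] at h1
    exact h1 hA

/-- the dimension of `Hom` in terms of characters -/
theorem homDim_eq (U : Subgroup Gal(AlgebraicClosure F/F)) [U.Normal]
    [Finite (Gal(AlgebraicClosure F/F) ⧸ U)] (A B : ArtinRep F) (hA : ∀ u ∈ U, A.ρ u = 1)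
    (hB : ∀ u ∈ U, B.ρ u = 1) :
    (homDim A B : ℂ) = (Nat.card (Gal(AlgebraicClosure F/F) ⧸ U) : ℂ)⁻¹ *
      ∑ᶠ q : Gal(AlgebraicClosure F/F) ⧸ U, (qrep U B.ρ hB).character q *
        (qrep U A.ρ hA).character q⁻¹ := (ortho2 U B.ρ hB A.ρ hA).symm

theorem finite_quot [NumberField F] {U : Subgroup Gal(AlgebraicClosure F/F)}
    (hU : IsOpen (U : Set Gal(AlgebraicClosure F/F))) :
    Finite (Gal(AlgebraicClosure F/F) ⧸ U) := Subgroup.quotient_finite_of_isOpen U hU

theorem homDim_add_right [NumberField F] {A B C D : ArtinRep F} (h : ∀ g, B.χ g = C.χ g + D.χ g) :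
    homDim A B = homDim A C + homDim A D := by
  classical
  obtain ⟨U, hU1, hU2, hU⟩ := exists_common {A, B, C, D}
  haveI := finite_quot hU2
  letI : Fintype (Gal(AlgebraicClosure F/F) ⧸ U) := Fintype.ofFinite _
  have hA := hU A (by simp)
  have hB := hU B (by simp)
  have hC := hU C (by simp)
  have hD := hU D (by simp)
  have key : (homDim A B : ℂ) = homDim A C + homDim A D := by
    rw [homDim_eq U A B hA hB, homDim_eq U A C hA hC, homDim_eq U A D hA hD, ← mul_add,
      finsum_eq_sum_of_fintype, finsum_eq_sum_of_fintype, finsum_eq_sum_of_fintype,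
      ← Finset.sum_add_distrib]
    congr 1
    refine Finset.sum_congr rfl fun q _ => ?_
    obtain ⟨g, rfl⟩ := QuotientGroup.mk_surjective q
    have h1 : (qrep U B.ρ hB).character (QuotientGroup.mk g) =
        (qrep U C.ρ hC).character (QuotientGroup.mk g) +
        (qrep U D.ρ hD).character (QuotientGroup.mk g) := h g
    rw [h1, add_mul]
  exact_mod_cast key

theorem homDim_symm [NumberField F] (A B : ArtinRep F) : homDim A B = homDim B A := by
  classical
  obtain ⟨U, hU1, hU2, hU⟩ := exists_common {A, B}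
  haveI := finite_quot hU2
  letI : Fintype (Gal(AlgebraicClosure F/F) ⧸ U) := Fintype.ofFinite _
  have hA := hU A (by simp)
  have hB := hU B (by simp)
  have key : (homDim A B : ℂ) = homDim B A := by
    rw [homDim_eq U A B hA hB, homDim_eq U B A hB hA,
      finsum_eq_sum_of_fintype, finsum_eq_sum_of_fintype]
    congr 1
    refine Fintype.sum_equiv (Equiv.inv _) _ _ fun q => ?_
    rw [Equiv.inv_apply, inv_inv, mul_comm]
  exact_mod_cast key

theorem homDim_add_left [NumberField F] {A B C D : ArtinRep F} (h : ∀ g, B.χ g = C.χ g + D.χ g) :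
    homDim B A = homDim C A + homDim D A := by
  rw [homDim_symm B A, homDim_add_right h, homDim_symm A C, homDim_symm A D]

/-- isomorphic representations -/
theorem chi_of_equiv {A B : ArtinRep F} (e : Nonempty (A.ρ.Equiv B.ρ)) (g : _) : A.χ g = B.χ g := by
  obtain ⟨e⟩ := e
  exact congrFun (Representation.char_iso e) g

end

/-! ### exact sequences -/

section
variable {V : Type*} [AddCommGroup V] [Module ℂ V] [FiniteDimensional ℂ V]

theorem trace_sub_quot (W : Submodule ℂ V) (f : Module.End ℂ V) (hf : ∀ x ∈ W, f x ∈ W) :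
    LinearMap.trace ℂ V f = LinearMap.trace ℂ W (f.restrict hf) +
      LinearMap.trace ℂ (V ⧸ W) (W.mapQ W f hf) := by
  obtain ⟨j, hj⟩ := LinearMap.exists_rightInverse_of_surjective W.mkQ
    (LinearMap.range_eq_top.2 W.mkQ_surjective)
  have hjx : ∀ x, W.mkQ (j x) = x := fun x => LinearMap.congr_fun hj x
  have hmem : ∀ x, (LinearMap.id - j ∘ₗ W.mkQ : Module.End ℂ V) x ∈ W := by
    intro x
    rw [← Submodule.Quotient.mk_eq_zero, LinearMap.sub_apply, LinearMap.id_apply,
      LinearMap.comp_apply, Submodule.Quotient.mk_sub]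
    have := hjx (W.mkQ x)
    rw [Submodule.mkQ_apply, Submodule.mkQ_apply] at this
    rw [Submodule.mkQ_apply, this, sub_self]
  set π : V →ₗ[ℂ] W := (LinearMap.id - j ∘ₗ W.mkQ : Module.End ℂ V).codRestrict W hmem with hπ
  have hπx : ∀ x, (π x : V) = x - j (W.mkQ x) := fun x => rfl
  have hsplit : f = (f ∘ₗ W.subtype) ∘ₗ π + (f ∘ₗ j) ∘ₗ W.mkQ := by
    ext x
    simp only [LinearMap.add_apply, LinearMap.comp_apply, Submodule.subtype_apply]
    rw [hπx, map_sub]
    abel
  have h1 : π ∘ₗ (f ∘ₗ W.subtype) = f.restrict hf := by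
    ext x
    rw [LinearMap.comp_apply, hπx, LinearMap.comp_apply, Submodule.subtype_apply,
      LinearMap.coe_restrict_apply]
    have : W.mkQ (f (x : V)) = 0 := by
      rw [Submodule.mkQ_apply, Submodule.Quotient.mk_eq_zero]
      exact hf _ x.2
    rw [this, map_zero, sub_zero]
  have h2 : W.mkQ ∘ₗ (f ∘ₗ j) = W.mapQ W f hf := by
    ext x
    have h3 := hjx (W.mkQ x)
    change W.mkQ (f (j (W.mkQ x))) = (W.mapQ W f hf) (W.mkQ x)
    conv_rhs => rw [← h3]
    rfl
  conv_lhs => rw [hsplit]
  rw [map_add, LinearMap.trace_comp_comm', h1, LinearMap.trace_comp_comm', h2]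

/-- a finite-dimensional representation in coordinates -/
noncomputable def toFin {G : Type*} [Group G] (ρ : Representation ℂ G V) :
    Representation ℂ G (Fin (Module.finrank ℂ V) → ℂ) where
  toFun g := (Module.finBasis ℂ V).equivFun.conj (ρ g)
  map_one' := by
    rw [map_one]
    apply LinearMap.ext
    intro x
    rw [LinearEquiv.conj_apply_apply]
    exact LinearEquiv.apply_symm_apply _ x
  map_mul' a b := by
    rw [map_mul]
    apply LinearMap.ext
    intro x
    simp [LinearEquiv.conj_apply]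

theorem toFin_apply {G : Type*} [Group G] (ρ : Representation ℂ G V) (g : G) :
    toFin ρ g = (Module.finBasis ℂ V).equivFun.conj (ρ g) := rfl

theorem toFin_char {G : Type*} [Group G] (ρ : Representation ℂ G V) (g : G) :
    (toFin ρ).character g = ρ.character g := by
  rw [Representation.character, Representation.character, toFin_apply]
  exact LinearMap.trace_conj' _ _

theorem toFin_triv {G : Type*} [Group G] (ρ : Representation ℂ G V) {g : G} (h : ρ g = 1) :
    toFin ρ g = 1 := by
  rw [toFin_apply, h]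
  apply LinearMap.ext
  intro x
  rw [LinearEquiv.conj_apply_apply]
  exact LinearEquiv.apply_symm_apply _ x

end

section
variable {F : Type} [Field F]

/-- the subrepresentation on an invariant subspace -/
noncomputable def ArtinRep.sub (A : ArtinRep F) (W : Submodule ℂ (Fin A.n → ℂ))
    (hW : ∀ g, W ≤ W.comap (A.ρ g)) : ArtinRep F where
  n := Module.finrank ℂ W
  ρ := toFin (A.ρ.subrepresentation W hW)
  artin := by
    obtain ⟨U, h1, h2⟩ := A.artin
    refine ⟨U, h1, fun u hu => toFin_triv _ ?_⟩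
    ext x
    rw [Representation.subrepresentation_apply, LinearMap.coe_restrict_apply, h2 u hu]
    rfl

/-- the quotient by an invariant subspace -/
noncomputable def ArtinRep.quo (A : ArtinRep F) (W : Submodule ℂ (Fin A.n → ℂ))
    (hW : ∀ g, W ≤ W.comap (A.ρ g)) : ArtinRep F where
  n := Module.finrank ℂ ((Fin A.n → ℂ) ⧸ W)
  ρ := toFin (A.ρ.quotient W hW)
  artin := by
    obtain ⟨U, h1, h2⟩ := A.artin
    refine ⟨U, h1, fun u hu => toFin_triv _ ?_⟩
    apply LinearMap.ext
    intro x
    obtain ⟨y, rfl⟩ := W.mkQ_surjective x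
    rw [Representation.quotient_apply, Submodule.mkQ_apply, Submodule.mapQ_apply, h2 u hu]
    rfl

theorem chi_sub_quo (A : ArtinRep F) (W : Submodule ℂ (Fin A.n → ℂ))
    (hW : ∀ g, W ≤ W.comap (A.ρ g)) (g : Gal(AlgebraicClosure F/F)) :
    A.χ g = (A.sub W hW).χ g + (A.quo W hW).χ g := by
  have h1 : (A.sub W hW).χ g = (A.ρ.subrepresentation W hW).character g := toFin_char _ _
  have h2 : (A.quo W hW).χ g = (A.ρ.quotient W hW).character g := toFin_char _ _
  rw [h1, h2]
  exact trace_sub_quot W (A.ρ g) (fun x hx => hW g hx)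

theorem n_sub_quo (A : ArtinRep F) (W : Submodule ℂ (Fin A.n → ℂ))
    (hW : ∀ g, W ≤ W.comap (A.ρ g)) : (A.quo W hW).n + (A.sub W hW).n = A.n := by
  have h := W.finrank_quotient_add_finrank
  rw [Module.finrank_fin_fun] at h
  exact h

end

end Pool.Agent.W385.GA
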