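import Pool.Agent.W385.GA.Char
import Pool.Agent.W540.BE.Core2

/-!
# Artin twists of a system of Frobenius traces at the edge of absolute convergence
-/

set_option autoImplicit false
set_option linter.style.haveILetI false

namespace Pool.Agent.W385.GA

open Complex Filter Topology ComplexConjugate Pool.Agent.H341R2 NumberField IsDedekindDomain
  Pool.Agent.W401.Cheb Polynomial Pool.Agent.W540.BE

/-- the logarithm of a local factor is its first term up to `O(q⁻²)` -/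
theorem goodLog_bound (c : ℕ → ℂ) (K w : ℝ) (hK : 0 ≤ K) (q : ℕ) (hq : 2 ≤ q)
    (hc : ∀ m : ℕ, ‖c (m + 1)‖ ≤ K * ((q : ℝ) ^ w) ^ (m + 1)) (s : ℂ) (hs : w + 1 ≤ s.re) :
    ‖(∑' m : ℕ, c (m + 1) * ((q : ℕ) : ℂ) ^ (-((m + 1 : ℂ) * s)) / (m + 1 : ℂ)) -
      c 1 * ((q : ℕ) : ℂ) ^ (-s)‖ ≤ 2 * K * (q : ℝ) ^ (-2 : ℝ) := by
  have hqn : 0 < q := by omega
  have hp0 : (0 : ℝ) < (q : ℝ) := by exact_mod_cast hqn
  have hp1 : (1 : ℝ) ≤ (q : ℝ) := by exact_mod_cast (by omega : 1 ≤ q)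
  have hp2 : (2 : ℝ) ≤ (q : ℝ) := by exact_mod_cast hq
  set r : ℝ := (q : ℝ)⁻¹ with hr
  have hr0 : 0 ≤ r := by positivity
  have hr2 : r ≤ 1 / 2 := by
    rw [hr, one_div]
    exact inv_anti₀ (by norm_num) hp2
  have hterm : ∀ m : ℕ, ‖c (m + 1) * ((q : ℕ) : ℂ) ^ (-((m + 1 : ℂ) * s)) / (m + 1 : ℂ)‖ ≤
      K * r ^ (m + 1) := by
    intro m
    rw [norm_div, norm_mul]
    have h1 : ‖((q : ℕ) : ℂ) ^ (-((m + 1 : ℂ) * s))‖ = ((q : ℝ) ^ (-s.re)) ^ (m + 1) := by
      rw [Complex.norm_natCast_cpow_of_pos hqn, ← Real.rpow_natCast, ← Real.rpow_mul hp0.le]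
      congr 1
      simp
      ring
    have h2 : (1 : ℝ) ≤ ‖(m + 1 : ℂ)‖ := by
      have : (m + 1 : ℂ) = ((m + 1 : ℕ) : ℂ) := by push_cast; rfl
      rw [this, Complex.norm_natCast]
      push_cast
      linarith [(Nat.cast_nonneg m : (0 : ℝ) ≤ m)]
    rw [h1]
    refine (div_le_self (by positivity) h2).trans ?_
    calc ‖c (m + 1)‖ * ((q : ℝ) ^ (-s.re)) ^ (m + 1)
        ≤ K * ((q : ℝ) ^ w) ^ (m + 1) * ((q : ℝ) ^ (-s.re)) ^ (m + 1) :=
          mul_le_mul_of_nonneg_right (hc m) (by positivity)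
      _ = K * ((q : ℝ) ^ (w + -s.re)) ^ (m + 1) := by
          rw [Real.rpow_add hp0, mul_pow]; ring
      _ ≤ K * r ^ (m + 1) := by
          refine mul_le_mul_of_nonneg_left (pow_le_pow_left₀ (by positivity) ?_ _) hK
          rw [hr, ← Real.rpow_neg_one]
          exact Real.rpow_le_rpow_of_exponent_le hp1 (by linarith)
  have hgeo : Summable fun m : ℕ => K * r ^ (m + 1) := by
    have := (summable_geometric_of_lt_one hr0 (by linarith)).mul_left (K * r)
    refine this.congr fun m => ?_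
    rw [pow_succ]; ring
  have hsum : Summable fun m : ℕ =>
      c (m + 1) * ((q : ℕ) : ℂ) ^ (-((m + 1 : ℂ) * s)) / (m + 1 : ℂ) :=
    Summable.of_norm_bounded hgeo hterm
  rw [hsum.tsum_eq_zero_add]
  have h0 : c (0 + 1) * ((q : ℕ) : ℂ) ^ (-(((0 : ℕ) + 1 : ℂ) * s)) / ((0 : ℕ) + 1 : ℂ) =
      c 1 * ((q : ℕ) : ℂ) ^ (-s) := by
    simp
  rw [h0, add_sub_cancel_left]
  have hgeo2 : HasSum (fun m : ℕ => K * r ^ (m + 1 + 1)) (K * r ^ 2 * (1 - r)⁻¹) := by
    have := (hasSum_geometric_of_lt_one hr0 (by linarith)).mul_left (K * r ^ 2)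
    refine this.congr_fun ?_ |> fun h => h
    intro m
    ring
  have h3 := tsum_of_norm_bounded hgeo2 fun m => hterm (m + 1)
  refine h3.trans ?_
  have h4 : (1 - r)⁻¹ ≤ 2 := by
    rw [inv_le_comm₀ (by linarith) (by norm_num)]
    linarith
  have h5 : (q : ℝ) ^ (-2 : ℝ) = r ^ 2 := by
    rw [hr, Real.rpow_neg hp0.le, inv_pow]
    norm_num
  rw [h5]
  nlinarith [mul_le_mul_of_nonneg_left h4 (by positivity : 0 ≤ K * r ^ 2)]

section
variable {F : Type} [Field F] [NumberField F]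

open Classical in
/-- the normalised first traces -/
noncomputable def tn (t : HeightOneSpectrum (𝓞 F) → ℕ → ℂ) (w : ℝ)
    (S₀ : Finset (HeightOneSpectrum (𝓞 F))) (v : HeightOneSpectrum (𝓞 F)) : ℂ :=
  if v ∈ S₀ then 0 else t v 1 * ((nm F v : ℕ) : ℂ) ^ (-(w : ℂ))

/-- the twisting function -/
noncomputable def vv (frob : HeightOneSpectrum (𝓞 F) → GK F) (A : ArtinRep F) (τ : ℝ)
    (v : HeightOneSpectrum (𝓞 F)) : ℂ :=
  conj (((nm F v : ℕ) : ℂ) ^ (-(τ * I)) * A.χ (frob v)⁻¹)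

/-- the main term of the size -/
noncomputable def X0 (t : HeightOneSpectrum (𝓞 F) → ℕ → ℂ) (w : ℝ)
    (S₀ : Finset (HeightOneSpectrum (𝓞 F))) (frob : HeightOneSpectrum (𝓞 F) → GK F)
    (A : ArtinRep F) (τ ε : ℝ) : ℝ :=
  (EP (nm F) ε fun v => (tn t w S₀ v * conj (vv frob A τ v)).re) / lam ε

open Classical in
/-- the Euler product of `M ⊗ A` -/
noncomputable def LF (t : HeightOneSpectrum (𝓞 F) → ℕ → ℂ)
    (frob : HeightOneSpectrum (𝓞 F) → GK F) (A : ArtinRep F)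
    (S : Finset (HeightOneSpectrum (𝓞 F))) (B : HeightOneSpectrum (𝓞 F) → ℂ[X]) (s : ℂ) : ℂ :=
  ∏' v : HeightOneSpectrum (𝓞 F),
    if v ∈ S then ((B v).eval (((Ideal.absNorm v.asIdeal : ℕ) : ℂ) ^ (-s)))⁻¹
    else Complex.exp (∑' m : ℕ, t v (m + 1) * A.ρ.character ((frob v)⁻¹ ^ (m + 1)) *
      ((Ideal.absNorm v.asIdeal : ℕ) : ℂ) ^ (-((m + 1 : ℂ) * s)) / (m + 1 : ℂ))

variable {t : HeightOneSpectrum (𝓞 F) → ℕ → ℂ} {w D : ℝ} {S₀ : Finset (HeightOneSpectrum (𝓞 F))}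
  {frob : HeightOneSpectrum (𝓞 F) → GK F}

theorem nm_pos (v : HeightOneSpectrum (𝓞 F)) : 0 < nm F v := by
  have := two_le_nm v
  omega

theorem norm_chi_le (A : ArtinRep F) (g : GK F) : ‖A.χ g‖ ≤ A.n := by
  obtain ⟨U, hU1, hU2, hU⟩ := exists_common {A}
  haveI := finite_quot hU2
  exact norm_char_le U A.ρ (hU A (by simp)) g

theorem norm_vv_le (A : ArtinRep F) (τ : ℝ) (v : HeightOneSpectrum (𝓞 F)) :
    ‖vv frob A τ v‖ ≤ A.n := by
  rw [vv, Complex.norm_conj, norm_mul, norm_cpow_I (nm_pos v), one_mul]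
  exact norm_chi_le A _

theorem norm_tn_le (hD : 0 ≤ D)
    (ht : ∀ v, v ∉ S₀ → ∀ m : ℕ, ‖t v (m + 1)‖ ≤ D * ((nm F v : ℝ) ^ w) ^ (m + 1))
    (v : HeightOneSpectrum (𝓞 F)) : ‖tn t w S₀ v‖ ≤ D := by
  classical
  unfold tn
  split_ifs with h
  · simpa using hD
  · have h0 : (0 : ℝ) < nm F v := by exact_mod_cast nm_pos v
    rw [norm_mul, Complex.norm_natCast_cpow_of_pos (nm_pos v)]
    have h1 := ht v h 0
    simp only [zero_add, pow_one] at h1
    calc ‖t v 1‖ * (nm F v : ℝ) ^ (-(w : ℂ)).re ≤ D * (nm F v : ℝ) ^ w * (nm F v : ℝ) ^ (-(w : ℂ)).re :=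
          mul_le_mul_of_nonneg_right h1 (by positivity)
      _ = D := by
          have h2 : (nm F v : ℝ) ^ w * (nm F v : ℝ) ^ (-(w : ℂ)).re = 1 := by
            rw [← Real.rpow_add h0]
            simp
          rw [mul_assoc, h2, mul_one]

/-- the Gram matrix -/
theorem gram_lim (hfrob : ∀ v, IsFrob v (frob v)) (A B : ArtinRep F) (τ σ : ℝ) :
    Tendsto (fun ε : ℝ => (EP (nm F) ε fun v => (vv frob A τ v * conj (vv frob B σ v)).re) / lam ε)
      (𝓝[>] 0) (𝓝 (if τ = σ then (homDim B A : ℝ) else 0)) := by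
  classical
  obtain ⟨U, hU1, hU2, hU⟩ := exists_common {A, B}
  haveI := finite_quot hU2
  have hA := hU A (by simp)
  have hB := hU B (by simp)
  set ψ : GK F ⧸ U → ℂ := fun q => (qrep U A.ρ hA).character q *
    (qrep U B.ρ hB).character q⁻¹ with hψ
  have hψc : ∀ a g, ψ (g * a * g⁻¹) = ψ a := by
    intro a g
    rw [hψ]
    simp only
    have h1 : (g * a * g⁻¹)⁻¹ = g * a⁻¹ * g⁻¹ := by group
    rw [h1, Representation.char_conj, Representation.char_conj]
  have h1 := cheb_mean (F := F) U hU2 ψ hψc frob hfrob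
  have h2 := ortho2 U A.ρ hA B.ρ hB
  rw [h2] at h1
  have h3 : ((Module.finrank ℂ (B.ρ.IntertwiningMap A.ρ) : ℕ) : ℂ) =
      (((Module.finrank ℂ (B.ρ.IntertwiningMap A.ρ) : ℕ) : ℝ) : ℂ) := by simp
  rw [h3] at h1
  have hψv : ∀ v, ψ (QuotientGroup.mk (frob v)) = A.χ (frob v) * B.χ (frob v)⁻¹ := fun v => rfl
  have h4 := mean_edge (g := fun v => ψ (QuotientGroup.mk (frob v))) (B := (A.n : ℝ) * B.n)
    (by
      intro v
      rw [hψv, norm_mul]
      exact mul_le_mul (norm_chi_le A _) (norm_chi_le B _) (norm_nonneg _) (by positivity))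
      _ h1 (σ - τ)
  have h6 : (if σ - τ = 0 then
      (((Module.finrank ℂ (B.ρ.IntertwiningMap A.ρ) : ℕ) : ℝ)) else 0) =
      (if τ = σ then (homDim B A : ℝ) else 0) := by
    have : σ - τ = 0 ↔ τ = σ := ⟨fun h => by linarith, fun h => by linarith⟩
    simp only [this]
    rfl
  rw [h6] at h4
  refine h4.congr fun ε => ?_
  congr 2
  funext v
  congr 1
  rw [hψv, vv, vv, Complex.conj_conj, map_mul, conj_cpow_I (nm_pos v)]
  have h7 : conj (A.χ (frob v)⁻¹) = A.χ (frob v) := char_conj_eq U A.ρ hA _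
  rw [h7]
  have hvc : ((nm F v : ℕ) : ℂ) ≠ 0 := by
    have := nm_pos v
    exact_mod_cast this.ne'
  have h5 : ((nm F v : ℕ) : ℂ) ^ (-(((σ - τ : ℝ) : ℂ) * I)) =
      ((nm F v : ℕ) : ℂ) ^ (τ * I) * ((nm F v : ℕ) : ℂ) ^ (-(σ * I)) := by
    rw [← Complex.cpow_add _ _ hvc]
    congr 1
    push_cast
    ring
  rw [h5]
  ring

/-- bound for the main term -/
theorem X0_bound (hD : 0 ≤ D)
    (ht : ∀ v, v ∉ S₀ → ∀ m : ℕ, ‖t v (m + 1)‖ ≤ D * ((nm F v : ℝ) ^ w) ^ (m + 1))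
    (A : ArtinRep F) (τ : ℝ) : ∀ᶠ ε : ℝ in 𝓝[>] 0,
    |EP (nm F) ε fun v => (tn t w S₀ v * conj (vv frob A τ v)).re| ≤
      (2 * (D * A.n) : ℝ) * lam ε := by
  have hN : NormSys (nm F) := normSys
  have hb1 : ∀ v, |(tn t w S₀ v * conj (vv frob A τ v)).re| ≤ D * A.n := by
    intro v
    refine (Complex.abs_re_le_norm _).trans ?_
    rw [norm_mul, Complex.norm_conj]
    exact mul_le_mul (norm_tn_le hD ht v) (norm_vv_le A τ v) (norm_nonneg _) hD
  filter_upwards [(EP_one F).eventually_lt_const (by norm_num : (1 : ℝ) < 2),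
    lam_tendsto.eventually_gt_atTop 0, self_mem_nhdsWithin] with ε h1 h2 h3
  have hε : (0 : ℝ) < ε := h3
  rw [div_lt_iff₀ h2] at h1
  have h5 : |EP (nm F) ε fun v => (tn t w S₀ v * conj (vv frob A τ v)).re| ≤
      (D * A.n : ℝ) * EP (nm F) ε fun _ => 1 := by
    rw [abs_le]
    constructor
    · have h7 := EP_le hN hε (φ := fun v => (-1) * (tn t w S₀ v * conj (vv frob A τ v)).re)
        (B := D * A.n)
        (fun v => by rw [abs_mul, abs_neg, abs_one, one_mul]; exact hb1 v) (b := D * A.n)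
        (fun v => by have := (abs_le.1 (hb1 v)).1; linarith)
      rw [EP_const_mul] at h7
      linarith
    · exact EP_le hN hε hb1 fun v => (le_abs_self _).trans (hb1 v)
  refine h5.trans ?_
  calc (D * A.n : ℝ) * EP (nm F) ε (fun _ => 1) ≤ (D * A.n : ℝ) * (2 * lam ε) :=
        mul_le_mul_of_nonneg_left h1.le (by positivity)
    _ = _ := by ring

/-- **Bessel's inequality** for pairwise disjoint Artin representations -/
theorem bessel (hD : 0 ≤ D)
    (ht : ∀ v, v ∉ S₀ → ∀ m : ℕ, ‖t v (m + 1)‖ ≤ D * ((nm F v : ℝ) ^ w) ^ (m + 1))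
    (hfrob : ∀ v, IsFrob v (frob v)) {κ : Type*} (K : Finset κ) (A : κ → ArtinRep F) (τ : κ → ℝ)
    (h0 : ∀ k ∈ K, ∀ l ∈ K, k ≠ l → τ k = τ l → homDim (A k) (A l) = 0)
    {η : ℝ} (hη : 0 < η) :
    ∀ᶠ ε : ℝ in 𝓝[>] 0, ∑ k ∈ K, X0 t w S₀ frob (A k) (τ k) ε ^ 2 / homDim (A k) (A k) ≤
      D ^ 2 + η := by
  classical
  have hN : NormSys (nm F) := normSys
  obtain ⟨p0⟩ : Nonempty (HeightOneSpectrum (𝓞 F)) := by
    obtain ⟨M, hM⟩ := Ideal.exists_maximal (𝓞 F)
    exact ⟨⟨M, hM.isPrime, Ring.ne_bot_of_isMaximal_of_not_isField hM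
      (RingOfIntegers.not_isField F)⟩⟩
  have h1 := fun (C η : ℝ) (hη : 0 < η) => gramP hN p0 (EP_one F) K (tn t w S₀)
    (fun k => vv frob (A k) (τ k)) D (norm_tn_le hD ht) (fun k => ((A k).n : ℝ))
    (fun k v => norm_vv_le (A k) (τ k) v)
    (fun k l => if τ k = τ l then (homDim (A l) (A k) : ℝ) else 0)
    (fun k _ l _ => gram_lim hfrob (A k) (A l) (τ k) (τ l))
    (fun k ε => X0 t w S₀ frob (A k) (τ k) ε)
    (fun k _ => by
      have : (fun ε : ℝ => (EP (nm F) ε fun p => (tn t w S₀ p *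
          conj (vv frob (A k) (τ k) p)).re) / lam ε - X0 t w S₀ frob (A k) (τ k) ε) =
          fun _ => 0 := by
        funext ε
        unfold X0
        exact sub_self _
      rw [this]
      exact tendsto_const_nhds) C hη
  have h2 := disjoint_of_gram K
    (fun k l => if τ k = τ l then (homDim (A l) (A k) : ℝ) else 0) D
    (fun k ε => X0 t w S₀ frob (A k) (τ k) ε)
    (fun k hk l hl hkl => by
      by_cases h : τ k = τ l
      · rw [if_pos h, h0 l hl k hk (Ne.symm hkl) h.symm]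
        simp
      · rw [if_neg h])
    (fun k _ => by
      rw [if_pos rfl]
      rcases Nat.eq_zero_or_pos (homDim (A k) (A k)) with h | h
      · left
        rw [h]
        simp
      · right
        exact_mod_cast h)
    (C0 := ∑ k ∈ K, 2 * (D * (A k).n))
    (fun k hk => by
      filter_upwards [X0_bound (frob := frob) hD ht (A k) (τ k),
        lam_tendsto.eventually_gt_atTop 0] with ε h3 h4
      unfold X0
      rw [abs_div, abs_of_pos h4, div_le_iff₀ h4]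
      refine h3.trans (mul_le_mul_of_nonneg_right ?_ h4.le)
      exact Finset.single_le_sum (f := fun k => 2 * (D * ((A k).n : ℝ)))
        (fun k _ => by positivity) hk)
    (fun C η hη => (h1 C η hη).mono fun ε h c hc => by
      refine (h c hc).trans (le_of_eq ?_)
      rfl) hη
  refine h2.mono fun ε h => ?_
  refine le_trans (le_of_eq (Finset.sum_congr rfl fun k _ => ?_)) h
  rw [if_pos rfl]

/-- the size of the Euler product -/
theorem size_lim (hD : 0 ≤ D)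
    (ht : ∀ v, v ∉ S₀ → ∀ m : ℕ, ‖t v (m + 1)‖ ≤ D * ((nm F v : ℝ) ^ w) ^ (m + 1))
    (A : ArtinRep F) (S : Finset (HeightOneSpectrum (𝓞 F))) (hS : S₀ ⊆ S)
    (B : HeightOneSpectrum (𝓞 F) → ℂ[X]) (τ : ℝ)
    (hB : ∀ v ∈ S, (B v).eval (((nm F v : ℕ) : ℂ) ^ (-(w + 1 + τ * I : ℂ))) ≠ 0) :
    (∀ᶠ ε : ℝ in 𝓝[>] 0, LF t frob A S B (w + 1 + τ * I + ε) ≠ 0) ∧
    Tendsto (fun ε : ℝ => X0 t w S₀ frob A τ ε -
      Real.log ‖LF t frob A S B (w + 1 + τ * I + ε)‖ / Real.log (1 / ε)) (𝓝[>] 0) (𝓝 0) := by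
  classical
  have hN : NormSys (nm F) := normSys
  have hprod : ∀ v, ‖tn t w S₀ v * conj (vv frob A τ v)‖ ≤ D * A.n := by
    intro v
    rw [norm_mul, Complex.norm_conj]
    exact mul_le_mul (norm_tn_le hD ht v) (norm_vv_le A τ v) (norm_nonneg _) hD
  set a : HeightOneSpectrum (𝓞 F) → ℂ := fun v =>
    if v ∉ S then tn t w S₀ v * conj (vv frob A τ v) else 0 with ha
  have hab : ∀ v, ‖a v‖ ≤ D * A.n := by
    intro v
    rw [ha]
    simp only
    by_cases hv : v ∈ S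
    · rw [if_neg (not_not.2 hv), norm_zero]; positivity
    · rw [if_pos hv]
      exact hprod v
  have ha0 : ∀ v, ¬ (v ∉ S) → a v = 0 := by
    intro v hv
    rw [ha]
    simp only
    rw [if_neg hv]
  have hfin : {v : HeightOneSpectrum (𝓞 F) | ¬ (v ∉ S)}.Finite := by
    simp only [not_not]
    exact S.finite_toSet
  obtain ⟨C', hC'⟩ := sizeP hN (Good := fun v : HeightOneSpectrum (𝓞 F) => v ∉ S) hfin B
    (w + 1 + τ * I) (fun v hv => hB v (not_not.1 hv)) a hab ha0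
    (fun (ε : ℝ) v => ∑' m : ℕ, t v (m + 1) * A.ρ.character ((frob v)⁻¹ ^ (m + 1)) *
      ((nm F v : ℕ) : ℂ) ^ (-((m + 1 : ℂ) * (w + 1 + τ * I + ε))) / (m + 1 : ℂ))
    (C := 2 * (D * A.n))
    (by
      intro ε hε v hv
      have hv0 : v ∉ S₀ := fun h => hv (hS h)
      have h0 : (0 : ℝ) < nm F v := by exact_mod_cast nm_pos v
      have h1 := goodLog_bound (fun m => t v m * A.ρ.character ((frob v)⁻¹ ^ m)) (D * A.n) w
        (by positivity) (nm F v) (two_le_nm v) (by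
          intro m
          rw [norm_mul]
          calc ‖t v (m + 1)‖ * ‖A.ρ.character ((frob v)⁻¹ ^ (m + 1))‖
              ≤ (D * ((nm F v : ℝ) ^ w) ^ (m + 1)) * A.n :=
                mul_le_mul (ht v hv0 m) (norm_chi_le A _) (norm_nonneg _) (by positivity)
            _ = _ := by ring) (w + 1 + τ * I + ε) (by simp; linarith)
      have h2 : a v * (((nm F v : ℝ) ^ (-(1 + ε)) : ℝ) : ℂ) =
          (t v 1 * A.ρ.character ((frob v)⁻¹ ^ 1)) *
            ((nm F v : ℕ) : ℂ) ^ (-(w + 1 + τ * I + ε : ℂ)) := by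
        rw [ha]
        simp only
        rw [if_pos hv, tn, if_neg hv0, vv, Complex.conj_conj, pow_one]
        have hvc : ((nm F v : ℕ) : ℂ) ≠ 0 := by exact_mod_cast (nm_pos v).ne'
        have h3 : (-(w + 1 + τ * I + ε : ℂ)) = -(w : ℂ) + (-(τ * I) + ((-(1 + ε) : ℝ) : ℂ)) := by
          push_cast
          ring
        rw [h3, Complex.cpow_add _ _ hvc, Complex.cpow_add _ _ hvc,
          Complex.ofReal_cpow h0.le, Complex.ofReal_natCast]
        unfold ArtinRep.χ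
        ring
      rw [h2]
      exact h1)
    (L := fun ε => LF t frob A S B (w + 1 + τ * I + ε))
    (by
      intro ε hε
      unfold LF
      refine tprod_congr fun v => ?_
      by_cases hv : v ∈ S
      · rw [if_pos hv, if_neg (not_not.2 hv)]
        rfl
      · rw [if_neg hv, if_pos hv]
        rfl)
  set r : HeightOneSpectrum (𝓞 F) → ℝ := fun v =>
    (tn t w S₀ v * conj (vv frob A τ v)).re - (a v).re with hr
  have hr0 : ∀ v, v ∉ S → r v = 0 := by
    intro v hv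
    rw [hr, ha]
    simp only
    rw [if_pos hv, sub_self]
  have hrb : ∀ v, |r v| ≤ 2 * (D * A.n) := by
    intro v
    rw [hr]
    simp only
    have h1 : |(tn t w S₀ v * conj (vv frob A τ v)).re| ≤ D * A.n :=
      (Complex.abs_re_le_norm _).trans (hprod v)
    have h2 : |(a v).re| ≤ D * A.n := (Complex.abs_re_le_norm _).trans (hab v)
    rw [abs_le] at *
    constructor <;> linarith [h1.1, h1.2, h2.1, h2.2]
  have hsplit : ∀ ε : ℝ, 0 < ε → (EP (nm F) ε fun v => (tn t w S₀ v * conj (vv frob A τ v)).re) =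
      (EP (nm F) ε fun v => (a v).re) + EP (nm F) ε r := by
    intro ε hε
    rw [← EP_add hN hε (B := D * A.n) (B' := 2 * (D * A.n))
      (fun v => (Complex.abs_re_le_norm _).trans (hab v)) hrb]
    congr 1
    funext v
    rw [hr]
    ring
  refine ⟨hC'.mono fun _ h => h.1, ?_⟩
  refine size_compare (M := 2 * (D * A.n)) (C := C' + S.card * (2 * (D * A.n)))
    (X0_bound hD ht A τ) ?_
  filter_upwards [hC', self_mem_nhdsWithin] with ε h1 h2
  have hε : (0 : ℝ) < ε := h2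
  rw [hsplit ε hε]
  have h4 := EP_finsupp hN S r hr0 _ hrb hε
  have h5 : (EP (nm F) ε fun v => (a v).re) + EP (nm F) ε r -
      Real.log ‖LF t frob A S B (w + 1 + τ * I + ε)‖ =
      ((EP (nm F) ε fun v => (a v).re) - Real.log ‖LF t frob A S B (w + 1 + τ * I + ε)‖) +
        EP (nm F) ε r := by ring
  rw [h5]
  exact (abs_add_le _ _).trans (add_le_add h1.2 h4)

/-- additivity of the main term -/
theorem X0_add (hD : 0 ≤ D)
    (ht : ∀ v, v ∉ S₀ → ∀ m : ℕ, ‖t v (m + 1)‖ ≤ D * ((nm F v : ℝ) ^ w) ^ (m + 1))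
    {A B C : ArtinRep F} (h : ∀ g, A.χ g = B.χ g + C.χ g) (τ : ℝ) {ε : ℝ} (hε : 0 < ε) :
    X0 t w S₀ frob A τ ε = X0 t w S₀ frob B τ ε + X0 t w S₀ frob C τ ε := by
  have hN : NormSys (nm F) := normSys
  have hb : ∀ (A : ArtinRep F) (v : HeightOneSpectrum (𝓞 F)),
      |(tn t w S₀ v * conj (vv frob A τ v)).re| ≤ D * A.n := by
    intro A v
    refine (Complex.abs_re_le_norm _).trans ?_
    rw [norm_mul, Complex.norm_conj]
    exact mul_le_mul (norm_tn_le hD ht v) (norm_vv_le A τ v) (norm_nonneg _) hD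
  unfold X0
  rw [← add_div, ← EP_add hN hε (hb B) (hb C)]
  congr 2
  funext v
  rw [← Complex.add_re]
  congr 1
  simp only [vv, Complex.conj_conj, h]
  ring

/-- the main term only depends on the character -/
theorem X0_congr {A B : ArtinRep F} (h : ∀ g, A.χ g = B.χ g) (τ ε : ℝ) :
    X0 t w S₀ frob A τ ε = X0 t w S₀ frob B τ ε := by
  unfold X0
  congr 2
  funext v
  simp only [vv, h]

end

end Pool.Agent.W385.GA
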