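import Pool.Agent.W385.GA.Edge

/-!
# Finite families of exceptional Artin representations
-/

set_option autoImplicit false
set_option linter.style.haveILetI false
set_option linter.unusedSectionVars false

namespace Pool.Agent.W385.GA

open Complex Filter Topology ComplexConjugate Pool.Agent.H341R2 NumberField IsDedekindDomain
  Pool.Agent.W401.Cheb Polynomial Pool.Agent.W540.BE

section hom
variable {F : Type} [Field F]

instance (A B : ArtinRep F) : Module.Finite ℂ (A.ρ.IntertwiningMap B.ρ) := by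
  let L : (A.ρ.IntertwiningMap B.ρ) →ₗ[ℂ] ((Fin A.n → ℂ) →ₗ[ℂ] (Fin B.n → ℂ)) :=
    { toFun := fun f => f.toLinearMap
      map_add' := fun _ _ => rfl
      map_smul' := fun _ _ => rfl }
  exact Module.Finite.of_injective L (Representation.IntertwiningMap.toLinearMap_injective _ _)

theorem itw {A B : ArtinRep F} (f : A.ρ.IntertwiningMap B.ρ) (g : Gal(AlgebraicClosure F/F))
    (x : Fin A.n → ℂ) : f (A.ρ g x) = B.ρ g (f x) :=
  Representation.IntertwiningMap.isIntertwining A.ρ B.ρ f g x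

theorem homDim_eq_zero {A B : ArtinRep F} (h : ∀ f : A.ρ.IntertwiningMap B.ρ, ∀ x, f x = 0) :
    homDim A B = 0 := by
  have : Subsingleton (A.ρ.IntertwiningMap B.ρ) := by
    refine ⟨fun f g => ?_⟩
    apply Representation.IntertwiningMap.ext
    apply LinearMap.ext
    intro x
    change f x = g x
    rw [h f, h g]
  exact Module.finrank_zero_of_subsingleton

theorem exists_of_homDim {A B : ArtinRep F} (h : homDim A B ≠ 0) :
    ∃ f : A.ρ.IntertwiningMap B.ρ, ∃ x, f x ≠ 0 := by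
  by_contra hcon
  push Not at hcon
  exact h (homDim_eq_zero hcon)

theorem homDim_self_pos {A : ArtinRep F} (h : A.n ≠ 0) : homDim A A ≠ 0 := by
  intro h0
  unfold homDim at h0
  rw [Module.finrank_zero_iff] at h0
  have h1 : (Representation.IntertwiningMap.id A.ρ) = 0 := Subsingleton.elim _ _
  have h2 := congrArg (fun f : A.ρ.IntertwiningMap A.ρ => f (fun _ => 1)) h1
  have h3 : (fun _ => 1 : Fin A.n → ℂ) = 0 := h2
  have h4 := congrFun h3 ⟨0, Nat.pos_of_ne_zero h⟩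
  simp at h4

end hom

section
variable {F : Type} [Field F] [NumberField F]

/-- a system of Frobenius traces -/
structure Sy (F : Type) [Field F] [NumberField F] where
  t : HeightOneSpectrum (𝓞 F) → ℕ → ℂ
  w : ℝ
  D : ℝ
  S₀ : Finset (HeightOneSpectrum (𝓞 F))
  frob : HeightOneSpectrum (𝓞 F) → GK F
  hD : 0 ≤ D
  ht : ∀ v, v ∉ S₀ → ∀ m : ℕ, ‖t v (m + 1)‖ ≤ D * ((nm F v : ℝ) ^ w) ^ (m + 1)
  hfrob : ∀ v, IsFrob v (frob v)

/-- the main term -/
noncomputable def Sy.x (s : Sy F) (A : ArtinRep F) (τ ε : ℝ) : ℝ :=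
  X0 s.t s.w s.S₀ s.frob A τ ε

theorem Sy.x_zero (s : Sy F) {A : ArtinRep F} (h : A.n = 0) (τ ε : ℝ) : s.x A τ ε = 0 := by
  unfold Sy.x X0
  have : (fun v => (tn s.t s.w s.S₀ v * conj (vv s.frob A τ v)).re) = fun _ => (0 : ℝ) := by
    funext v
    have h1 := norm_vv_le (frob := s.frob) A τ v
    rw [h] at h1
    have h2 : vv s.frob A τ v = 0 := by
      rw [← norm_le_zero_iff]
      simpa using h1
    rw [h2]
    simp
  rw [this, EP]
  simp

theorem Sy.x_add (s : Sy F) {A B C : ArtinRep F} (h : ∀ g, A.χ g = B.χ g + C.χ g) (τ : ℝ) {ε : ℝ}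
    (hε : 0 < ε) : s.x A τ ε = s.x B τ ε + s.x C τ ε := X0_add s.hD s.ht h τ hε

theorem Sy.x_congr (s : Sy F) {A B : ArtinRep F} (h : ∀ g, A.χ g = B.χ g) (τ ε : ℝ) :
    s.x A τ ε = s.x B τ ε := X0_congr h τ ε

/-- not exceptional: the main term is often smaller than `c` -/
def Sy.Non (s : Sy F) (c : ℝ) (A : ArtinRep F) (τ : ℝ) : Prop :=
  ∃ δ < c, ∃ᶠ ε : ℝ in 𝓝[>] 0, |s.x A τ ε| ≤ δ

theorem Sy.exc (s : Sy F) {c : ℝ} {A : ArtinRep F} {τ : ℝ} (h : ¬ s.Non c A τ) {δ : ℝ}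
    (hδ : δ < c) : ∀ᶠ ε : ℝ in 𝓝[>] 0, δ < |s.x A τ ε| := by
  unfold Sy.Non at h
  push Not at h
  exact (h δ hδ).mono fun ε h => h

theorem Sy.n_ne_zero (s : Sy F) {c : ℝ} (hc : 0 < c) {A : ArtinRep F} {τ : ℝ}
    (h : ¬ s.Non c A τ) : A.n ≠ 0 := by
  intro h0
  obtain ⟨ε, h1⟩ := (s.exc h hc).exists
  rw [s.x_zero h0, abs_zero] at h1
  exact lt_irrefl _ h1

theorem Sy.card_le (s : Sy F) {κ : Type*} (K : Finset κ) (A : κ → ArtinRep F) (τ : κ → ℝ)
    (h0 : ∀ k ∈ K, ∀ l ∈ K, k ≠ l → τ k = τ l → homDim (A k) (A l) = 0) {ν : ℕ}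
    (hν : ∀ k ∈ K, homDim (A k) (A k) ≤ ν) {c : ℝ} (hc : 0 < c)
    (hexc : ∀ k ∈ K, ¬ s.Non c (A k) (τ k)) : (K.card : ℝ) * c ^ 2 ≤ ν * s.D ^ 2 := by
  classical
  have key : ∀ δ : ℝ, 0 < δ → δ < c → (K.card : ℝ) * δ ^ 2 ≤ ν * s.D ^ 2 := by
    intro δ hδ0 hδ
    refine le_of_forall_pos_le_add fun e he => ?_
    have hη : 0 < e / (ν + 1) := by positivity
    have h1 := bessel s.hD s.ht s.hfrob K A τ h0 hη
    have h2 : ∀ᶠ ε : ℝ in 𝓝[>] 0, ∀ k ∈ K, δ < |s.x (A k) (τ k) ε| := by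
      rw [Filter.eventually_all_finset]
      exact fun k hk => s.exc (hexc k hk) hδ
    obtain ⟨ε, h3, h4⟩ := (h1.and h2).exists
    have h5 : ∀ k ∈ K, δ ^ 2 ≤ ν * (X0 s.t s.w s.S₀ s.frob (A k) (τ k) ε ^ 2 /
        homDim (A k) (A k)) := by
      intro k hk
      have h6 := homDim_self_pos (s.n_ne_zero hc (hexc k hk))
      have h7 : (0 : ℝ) < homDim (A k) (A k) := by exact_mod_cast Nat.pos_of_ne_zero h6
      have h8 : (homDim (A k) (A k) : ℝ) ≤ ν := by exact_mod_cast hν k hk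
      have h9 : δ ^ 2 ≤ X0 s.t s.w s.S₀ s.frob (A k) (τ k) ε ^ 2 := by
        rw [← sq_abs (X0 s.t s.w s.S₀ s.frob (A k) (τ k) ε)]
        exact pow_le_pow_left₀ hδ0.le (h4 k hk).le 2
      rw [mul_div_assoc', le_div_iff₀ h7]
      calc δ ^ 2 * (homDim (A k) (A k) : ℝ) ≤ δ ^ 2 * ν :=
            mul_le_mul_of_nonneg_left h8 (by positivity)
        _ ≤ X0 s.t s.w s.S₀ s.frob (A k) (τ k) ε ^ 2 * ν :=
            mul_le_mul_of_nonneg_right h9 (by positivity)
        _ = _ := by ring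
    have h6 : (K.card : ℝ) * δ ^ 2 ≤ ν * (s.D ^ 2 + e / (ν + 1)) := by
      calc (K.card : ℝ) * δ ^ 2 = ∑ _k ∈ K, δ ^ 2 := by rw [Finset.sum_const, nsmul_eq_mul]
        _ ≤ ∑ k ∈ K, ν * (X0 s.t s.w s.S₀ s.frob (A k) (τ k) ε ^ 2 / homDim (A k) (A k)) :=
            Finset.sum_le_sum h5
        _ = ν * ∑ k ∈ K, (X0 s.t s.w s.S₀ s.frob (A k) (τ k) ε ^ 2 / homDim (A k) (A k)) := by
            rw [Finset.mul_sum]
        _ ≤ _ := mul_le_mul_of_nonneg_left h3 (by positivity)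
    refine h6.trans ?_
    rw [mul_add]
    have h7 : (ν : ℝ) * (e / (ν + 1)) ≤ e := by
      rw [mul_div_assoc', div_le_iff₀ (by positivity)]
      nlinarith
    linarith
  have h1 : Tendsto (fun δ : ℝ => (K.card : ℝ) * δ ^ 2) (𝓝[<] c) (𝓝 ((K.card : ℝ) * c ^ 2)) := by
    have : Continuous fun δ : ℝ => (K.card : ℝ) * δ ^ 2 := by fun_prop
    exact (this.tendsto c).mono_left nhdsWithin_le_nhds
  refine le_of_tendsto h1 ?_
  filter_upwards [Ioo_mem_nhdsLT hc] with δ hδ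
  exact key δ hδ.1 hδ.2

open Classical in
/-- a maximal disjoint family of exceptional representations -/
theorem Sy.exists_max (s : Sy F) (ν : ℕ) {c : ℝ} (hc : 0 < c) :
    ∃ T : Finset (ArtinRep F × ℝ), ((T.card : ℝ) * c ^ 2 ≤ ν * s.D ^ 2) ∧
      ∀ (A : ArtinRep F) (τ : ℝ), homDim A A ≤ ν → ¬ s.Non c A τ →
        ∃ y ∈ T, y.2 = τ ∧ homDim y.1 A ≠ 0 := by
  set P : Finset (ArtinRep F × ℝ) → Prop := fun T =>
    (∀ y ∈ T, homDim y.1 y.1 ≤ ν ∧ ¬ s.Non c y.1 y.2) ∧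
    ∀ y ∈ T, ∀ z ∈ T, y ≠ z → y.2 = z.2 → homDim y.1 z.1 = 0 with hP
  have hcard : ∀ T, P T → (T.card : ℝ) * c ^ 2 ≤ ν * s.D ^ 2 := fun T hT =>
    s.card_le T (fun y => y.1) (fun y => y.2) hT.2 (fun y hy => (hT.1 y hy).1) hc
      (fun y hy => (hT.1 y hy).2)
  have hB : ∀ T, P T → T.card ≤ ⌊ν * s.D ^ 2 / c ^ 2⌋₊ := by
    intro T hT
    refine Nat.le_floor ?_
    rw [le_div_iff₀ (by positivity)]
    exact hcard T hT
  have h0 : ∃ T, P T ∧ T.card = 0 := ⟨∅, ⟨by simp, by simp⟩, rfl⟩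
  obtain ⟨T, hT, hTc⟩ := Nat.findGreatest_spec (P := fun n => ∃ T, P T ∧ T.card = n)
    (Nat.zero_le ⌊ν * s.D ^ 2 / c ^ 2⌋₊) h0
  refine ⟨T, hcard T hT, fun A τ hA hexc => ?_⟩
  by_contra hcon
  push Not at hcon
  have hnot : (A, τ) ∉ T := fun hmem => homDim_self_pos (s.n_ne_zero hc hexc)
    (hcon (A, τ) hmem rfl)
  have hT1 : P (insert (A, τ) T) := by
    refine ⟨fun y hy => ?_, fun y hy z hz hyz h => ?_⟩
    · rcases Finset.mem_insert.1 hy with rfl | hy
      · exact ⟨hA, hexc⟩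
      · exact hT.1 y hy
    · rcases Finset.mem_insert.1 hy with rfl | hy
      · rcases Finset.mem_insert.1 hz with rfl | hz
        · exact absurd rfl hyz
        · rw [homDim_symm]
          exact hcon z hz h.symm
      · rcases Finset.mem_insert.1 hz with rfl | hz
        · exact hcon y hy h
        · exact hT.2 y hy z hz hyz h
  have h2 := Nat.le_findGreatest (P := fun n => ∃ T, P T ∧ T.card = n) (hB _ hT1)
    ⟨_, hT1, rfl⟩
  rw [Finset.card_insert_of_notMem hnot, hTc] at h2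
  omega

/-- a common field of definition -/
theorem exists_field (T : Finset (ArtinRep F)) :
    ∃ M : IntermediateField F (AlgebraicClosure F), FiniteDimensional F M ∧ IsGalois F M ∧
      ∀ A ∈ T, ∀ g ∈ M.fixingSubgroup, A.ρ g = 1 := by
  obtain ⟨U, hU1, hU2, hU⟩ := exists_common T
  have hcl : IsClosed (U : Set (GK F)) := Subgroup.isClosed_of_isOpen U hU2
  set H : ClosedSubgroup (GK F) := ⟨U, hcl⟩ with hH
  have hfix : (IntermediateField.fixedField (H : Subgroup (GK F))).fixingSubgroup = U :=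
    InfiniteGalois.fixingSubgroup_fixedField H
  refine ⟨IntermediateField.fixedField (H : Subgroup (GK F)), ?_⟩
  have h1 := (InfiniteGalois.isOpen_and_normal_iff_finite_and_isGalois
    (IntermediateField.fixedField (H : Subgroup (GK F)))).1 (by
      rw [hfix]
      exact ⟨hU2, hU1⟩)
  refine ⟨h1.1, h1.2, ?_⟩
  rw [hfix]
  exact hU

/-- no homomorphisms from a representation of `Gal(M/F)` to a representation without vectors fixed
by `Gal(F̄/M)` -/
theorem homDim_triv {M : IntermediateField F (AlgebraicClosure F)} {B A : ArtinRep F}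
    (hB : ∀ g ∈ M.fixingSubgroup, B.ρ g = 1)
    (hA : ∀ x, (∀ g ∈ M.fixingSubgroup, A.ρ g x = x) → x = 0) : homDim B A = 0 := by
  refine homDim_eq_zero fun f x => hA _ fun g hg => ?_
  rw [← itw f, hB g hg]
  rfl

/-- the quotient by the part that is fixed by `Gal(F̄/M)` -/
theorem exists_quot {M : IntermediateField F (AlgebraicClosure F)} {A A₀ : ArtinRep F}
    (f : A₀.ρ.IntertwiningMap A.ρ) (hf : Function.Injective f)
    (hr : ∀ x, (∃ y, f y = x) ↔ ∀ g ∈ M.fixingSubgroup, A.ρ g x = x) :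
    ∃ A' : ArtinRep F, (∀ g, A.χ g = A₀.χ g + A'.χ g) ∧
      ∀ B : ArtinRep F, (∀ g ∈ M.fixingSubgroup, B.ρ g = 1) → homDim B A' = 0 := by
  classical
  set W : Submodule ℂ (Fin A.n → ℂ) := LinearMap.range f.toLinearMap with hW0
  have hW : ∀ g, W ≤ W.comap (A.ρ g) := by
    rintro g _ ⟨y, rfl⟩
    exact ⟨A₀.ρ g y, itw f g y⟩
  set e : (Fin A₀.n → ℂ) ≃ₗ[ℂ] W := LinearEquiv.ofInjective f.toLinearMap hf with he
  have hex : ∀ y, ((e y : W) : Fin A.n → ℂ) = f y := fun y => rfl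
  have hchar : ∀ g, A₀.χ g = (A.sub W hW).χ g := by
    intro g
    have h1 : (A.sub W hW).χ g = (A.ρ.subrepresentation W hW).character g := toFin_char _ _
    rw [h1]
    have he2 : ∀ g, (e : (Fin A₀.n → ℂ) →ₗ[ℂ] W) ∘ₗ (A₀.ρ g) =
        ((A.ρ.subrepresentation W hW) g) ∘ₗ (e : (Fin A₀.n → ℂ) →ₗ[ℂ] W) := by
      intro g
      apply LinearMap.ext
      intro y
      apply Subtype.ext
      change f (A₀.ρ g y) = A.ρ g (f y)
      exact itw f g y
    exact congrFun (Representation.char_iso (Representation.Equiv.mk e he2)) g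
  have hadd : ∀ g, A.χ g = A₀.χ g + (A.quo W hW).χ g := by
    intro g
    rw [chi_sub_quo A W hW g, hchar]
  refine ⟨A.quo W hW, hadd, fun B hB => ?_⟩
  have h1 : homDim B A = homDim B A₀ + homDim B (A.quo W hW) := homDim_add_right hadd
  have h2 : homDim B A ≤ homDim B A₀ := by
    refine LinearMap.finrank_le_finrank_of_surjective (f :=
      (Representation.IntertwiningMap.llcomp B.ρ A₀.ρ A.ρ f)) ?_
    intro g
    have hg : ∀ x, g x ∈ W := by
      intro x
      obtain ⟨y, hy⟩ := (hr (g x)).2 fun a ha => by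
        rw [← itw g, hB a ha]
        rfl
      exact ⟨y, hy⟩
    set g₀ : (Fin B.n → ℂ) →ₗ[ℂ] (Fin A₀.n → ℂ) :=
      (e.symm : W →ₗ[ℂ] (Fin A₀.n → ℂ)) ∘ₗ (g.toLinearMap.codRestrict W hg) with hg₀
    have hfg : ∀ x, f (g₀ x) = g x := by
      intro x
      rw [← hex]
      change ((e (e.symm (g.toLinearMap.codRestrict W hg x)) : W) : Fin A.n → ℂ) = g x
      rw [LinearEquiv.apply_symm_apply]
      rfl
    refine ⟨⟨g₀, fun a => ?_⟩, ?_⟩
    · apply LinearMap.ext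
      intro x
      apply hf
      change f (g₀ (B.ρ a x)) = f (A₀.ρ a (g₀ x))
      rw [hfg, itw f, hfg, itw g]
    · apply Representation.IntertwiningMap.ext
      apply LinearMap.ext
      intro x
      exact hfg x
  omega

end

end Pool.Agent.W385.GA
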