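import Pool.Agent.W385.GA.Orders

/-!
# Bessel's inequality with the mean square of the traces
-/

set_option autoImplicit false
set_option linter.style.haveILetI false
set_option linter.unusedSectionVars false

namespace Pool.Agent.W385.GA

open Complex Filter Topology ComplexConjugate Pool.Agent.H341R2 NumberField IsDedekindDomain
  Pool.Agent.W401.Cheb Polynomial Pool.Agent.W540.BE

section
variable {P : Type*} {N : P → ℕ}

/-- the expansion of a mean square -/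
theorem EP_expand (hN : NormSys N) {κ : Type*} (K : Finset κ) (t : P → ℂ)
    (v : κ → P → ℂ) {b : ℝ} (hb0 : 0 ≤ b) (ht : ∀ p, ‖t p‖ ≤ b) (B : κ → ℝ) (hB0 : ∀ k, 0 ≤ B k)
    (hv : ∀ k p, ‖v k p‖ ≤ B k) (c : κ → ℝ) {ε : ℝ} (hε : 0 < ε) :
    EP N ε (fun p => ‖t p + ∑ k ∈ K, (c k : ℂ) * v k p‖ ^ 2) =
      EP N ε (fun p => ‖t p‖ ^ 2) + 2 * (∑ k ∈ K, c k * EP N ε fun p => (t p * conj (v k p)).re) +
        ∑ k ∈ K, ∑ l ∈ K, (c k * c l) * EP N ε fun p => (v k p * conj (v l p)).re := by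
  classical
  have hpt : ∀ p, ‖t p + ∑ k ∈ K, ((c k : ℝ) : ℂ) * v k p‖ ^ 2 =
      ‖t p‖ ^ 2 + (∑ k ∈ K, 2 * (c k * (t p * conj (v k p)).re) +
        ∑ k ∈ K, ∑ l ∈ K, (c k * c l) * (v k p * conj (v l p)).re) := by
    intro p
    have e1 : ‖t p + ∑ k ∈ K, ((c k : ℝ) : ℂ) * v k p‖ ^ 2 =
        ((t p + ∑ k ∈ K, ((c k : ℝ) : ℂ) * v k p) *
          conj (t p + ∑ k ∈ K, ((c k : ℝ) : ℂ) * v k p)).re := by
      rw [Complex.mul_conj, Complex.ofReal_re, Complex.normSq_eq_norm_sq]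
    have e2 : ‖t p‖ ^ 2 = (t p * conj (t p)).re := by
      rw [Complex.mul_conj, Complex.ofReal_re, Complex.normSq_eq_norm_sq]
    have e3 : ((∑ k ∈ K, ((c k : ℝ) : ℂ) * v k p) * conj (t p)).re =
        (t p * conj (∑ k ∈ K, ((c k : ℝ) : ℂ) * v k p)).re := by
      rw [← Complex.conj_re, map_mul, Complex.conj_conj, mul_comm]
    have e4 : (t p * conj (∑ k ∈ K, ((c k : ℝ) : ℂ) * v k p)).re =
        ∑ k ∈ K, c k * (t p * conj (v k p)).re := by
      rw [map_sum, Finset.mul_sum, Complex.re_sum]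
      refine Finset.sum_congr rfl fun k _ => ?_
      rw [map_mul, Complex.conj_ofReal, mul_left_comm, Complex.re_ofReal_mul]
    have e5 : ((∑ k ∈ K, ((c k : ℝ) : ℂ) * v k p) *
        conj (∑ k ∈ K, ((c k : ℝ) : ℂ) * v k p)).re =
        ∑ k ∈ K, ∑ l ∈ K, (c k * c l) * (v k p * conj (v l p)).re := by
      rw [map_sum, Finset.sum_mul_sum, Complex.re_sum]
      refine Finset.sum_congr rfl fun k _ => ?_
      rw [Complex.re_sum]
      refine Finset.sum_congr rfl fun l _ => ?_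
      rw [map_mul, Complex.conj_ofReal]
      have : ((c k : ℝ) : ℂ) * v k p * (((c l : ℝ) : ℂ) * conj (v l p)) =
          ((c k * c l : ℝ) : ℂ) * (v k p * conj (v l p)) := by
        push_cast; ring
      rw [this, Complex.re_ofReal_mul]
    rw [e1, map_add, add_mul, mul_add, mul_add, Complex.add_re, Complex.add_re,
      Complex.add_re, e3, e4, e5, e2, ← Finset.mul_sum]
    ring
  have hbt : ∀ p, |‖t p‖ ^ 2| ≤ b ^ 2 := by
    intro p
    rw [abs_of_nonneg (sq_nonneg _)]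
    exact pow_le_pow_left₀ (norm_nonneg _) (ht p) 2
  have hb1 : ∀ k p, |(t p * conj (v k p)).re| ≤ b * B k := by
    intro k p
    refine (Complex.abs_re_le_norm _).trans ?_
    rw [norm_mul, Complex.norm_conj]
    exact mul_le_mul (ht p) (hv k p) (norm_nonneg _) hb0
  have hb2 : ∀ k l p, |(v k p * conj (v l p)).re| ≤ B k * B l := by
    intro k l p
    refine (Complex.abs_re_le_norm _).trans ?_
    rw [norm_mul, Complex.norm_conj]
    exact mul_le_mul (hv k p) (hv l p) (norm_nonneg _) (hB0 k)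
  have hb1' : ∀ k p, |2 * (c k * (t p * conj (v k p)).re)| ≤
      2 * (|c k| * (b * B k)) := by
    intro k p
    rw [abs_mul, abs_mul, abs_two]
    gcongr
    exact hb1 k p
  have hb2' : ∀ k l p, |c k * c l * (v k p * conj (v l p)).re| ≤
      |c k * c l| * (B k * B l) := by
    intro k l p
    rw [abs_mul]
    gcongr
    exact hb2 k l p
  have hS2 : ∀ k p, |∑ l ∈ K, c k * c l * (v k p * conj (v l p)).re| ≤
      ∑ l ∈ K, |c k * c l| * (B k * B l) := fun k p =>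
    (Finset.abs_sum_le_sum_abs _ _).trans (Finset.sum_le_sum fun l _ => hb2' k l p)
  have s1 : ∀ p, |∑ k ∈ K, 2 * (c k * (t p * conj (v k p)).re)| ≤
      ∑ k ∈ K, 2 * (|c k| * (b * B k)) := fun p =>
    (Finset.abs_sum_le_sum_abs _ _).trans (Finset.sum_le_sum fun k _ => hb1' k p)
  have s2 : ∀ p, |∑ k ∈ K, ∑ l ∈ K, (c k * c l) * (v k p * conj (v l p)).re| ≤
      ∑ k ∈ K, ∑ l ∈ K, |c k * c l| * (B k * B l) := fun p =>
    (Finset.abs_sum_le_sum_abs _ _).trans (Finset.sum_le_sum fun k _ => hS2 k p)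
  rw [funext hpt, EP_add hN hε hbt (B' := ∑ k ∈ K, 2 * (|c k| * (b * B k)) +
    ∑ k ∈ K, ∑ l ∈ K, |c k * c l| * (B k * B l))
    (fun p => (abs_add_le _ _).trans (add_le_add (s1 p) (s2 p))), EP_add hN hε s1 s2,
    EP_sum hN hε K _ (fun k => 2 * (|c k| * (b * B k))) (fun k _ p => hb1' k p),
    EP_sum hN hε K _ (fun k => ∑ l ∈ K, |c k * c l| * (B k * B l))
      (fun k _ p => hS2 k p), add_assoc]
  congr 2
  · rw [Finset.mul_sum]
    refine Finset.sum_congr rfl fun k _ => ?_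
    rw [EP_const_mul, EP_const_mul]
  · refine Finset.sum_congr rfl fun k _ => ?_
    rw [EP_sum hN hε K _ (fun l => |c k * c l| * (B k * B l))
      (fun l _ p => hb2' k l p)]
    refine Finset.sum_congr rfl fun l _ => ?_
    rw [EP_const_mul]

end

section
variable {F : Type} [Field F] [NumberField F]

/-- the mean square of the normalised traces -/
noncomputable def Sy.u (s : Sy F) (ε : ℝ) : ℝ :=
  (EP (nm F) ε fun v => ‖tn s.t s.w s.S₀ v‖ ^ 2) / lam ε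

/-- the mean square is asymptotically at most `κ` -/
def Sy.Bd (s : Sy F) (κ : ℝ) : Prop := ∀ η : ℝ, 0 < η → ∀ᶠ ε : ℝ in 𝓝[>] 0, s.u ε ≤ κ + η

theorem Sy.bd_D (s : Sy F) : s.Bd (s.D ^ 2) := by
  intro η hη
  have hN : NormSys (nm F) := normSys
  have hD0 : 0 ≤ s.D ^ 2 := by positivity
  have h1 : Tendsto (fun ε : ℝ => s.D ^ 2 * ((EP (nm F) ε fun _ => 1) / lam ε)) (𝓝[>] 0)
      (𝓝 (s.D ^ 2 * 1)) := (EP_one F).const_mul _
  rw [mul_one] at h1
  filter_upwards [h1.eventually_lt_const (by linarith : s.D ^ 2 < s.D ^ 2 + η),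
    lam_tendsto.eventually_gt_atTop 0, self_mem_nhdsWithin] with ε h2 h3 h4
  have hε : (0 : ℝ) < ε := h4
  have hb : ∀ v, |‖tn s.t s.w s.S₀ v‖ ^ 2| ≤ s.D ^ 2 := by
    intro v
    rw [abs_of_nonneg (sq_nonneg _)]
    exact pow_le_pow_left₀ (norm_nonneg _) (norm_tn_le s.hD s.ht v) 2
  have h5 := EP_le hN hε hb (b := s.D ^ 2) fun v => (le_abs_self _).trans (hb v)
  unfold Sy.u
  refine le_trans (div_le_div_of_nonneg_right h5 h3.le) ?_
  rw [mul_div_assoc]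
  exact h2.le

open Classical in
/-- the mean square of the difference to a combination of Artin characters -/
theorem Sy.expand_le (s : Sy F) {κ : Type*} (K : Finset κ) (A : κ → ArtinRep F) (τ : κ → ℝ)
    (C : ℝ) {η : ℝ} (hη : 0 < η) :
    ∀ᶠ ε : ℝ in 𝓝[>] 0, ∀ c : κ → ℝ, (∀ k ∈ K, |c k| ≤ C) →
      (EP (nm F) ε fun v => ‖tn s.t s.w s.S₀ v +
        ∑ k ∈ K, (c k : ℂ) * vv s.frob (A k) (τ k) v‖ ^ 2) / lam ε ≤
      s.u ε + 2 * (∑ k ∈ K, c k * s.x (A k) (τ k) ε) +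
        (∑ k ∈ K, ∑ l ∈ K, (c k * c l) *
          (if τ k = τ l then (homDim (A l) (A k) : ℝ) else 0)) + η := by
  have hN : NormSys (nm F) := normSys
  set g : κ → κ → ℝ := fun k l => if τ k = τ l then (homDim (A l) (A k) : ℝ) else 0 with hg
  set n : ℝ := (K.card : ℝ) with hn
  have hn0 : 0 ≤ n := by positivity
  set δ : ℝ := η / (n ^ 2 * C ^ 2 + 1) with hδ
  have hδ0 : 0 < δ := by positivity
  have ev2 : ∀ᶠ ε : ℝ in 𝓝[>] 0, ∀ k ∈ K, ∀ l ∈ K,
      |(EP (nm F) ε fun v => (vv s.frob (A k) (τ k) v * conj (vv s.frob (A l) (τ l) v)).re) /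
        lam ε - g k l| < δ := by
    rw [Filter.eventually_all_finset]
    intro k hk
    rw [Filter.eventually_all_finset]
    intro l hl
    have := (Metric.tendsto_nhds.1 (gram_lim s.hfrob (A k) (A l) (τ k) (τ l))) δ hδ0
    simpa [Real.dist_eq] using this
  filter_upwards [ev2, lam_tendsto.eventually_gt_atTop 0, self_mem_nhdsWithin] with ε h1 h2 h3
  have hε : (0 : ℝ) < ε := h3
  intro c hc
  rw [EP_expand hN K (tn s.t s.w s.S₀) (fun k => vv s.frob (A k) (τ k)) s.hD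
    (norm_tn_le s.hD s.ht) (fun k => ((A k).n : ℝ)) (fun k => by positivity)
    (fun k v => norm_vv_le (A k) (τ k) v) c hε, add_div, add_div]
  have e1 : 2 * (∑ k ∈ K, c k * EP (nm F) ε fun v =>
      (tn s.t s.w s.S₀ v * conj (vv s.frob (A k) (τ k) v)).re) / lam ε =
      2 * (∑ k ∈ K, c k * s.x (A k) (τ k) ε) := by
    rw [mul_div_assoc, Finset.sum_div]
    congr 1
    refine Finset.sum_congr rfl fun k _ => ?_
    rw [mul_div_assoc]
    rfl
  rw [e1]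
  have e2 : (∑ k ∈ K, ∑ l ∈ K, (c k * c l) * EP (nm F) ε fun v =>
      (vv s.frob (A k) (τ k) v * conj (vv s.frob (A l) (τ l) v)).re) / lam ε ≤
      (∑ k ∈ K, ∑ l ∈ K, (c k * c l) * g k l) + η := by
    have e3 : (∑ k ∈ K, ∑ l ∈ K, (c k * c l) * EP (nm F) ε fun v =>
        (vv s.frob (A k) (τ k) v * conj (vv s.frob (A l) (τ l) v)).re) / lam ε =
        (∑ k ∈ K, ∑ l ∈ K, (c k * c l) * g k l) + ∑ k ∈ K, ∑ l ∈ K, (c k * c l) *
          ((EP (nm F) ε fun v => (vv s.frob (A k) (τ k) v *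
            conj (vv s.frob (A l) (τ l) v)).re) / lam ε - g k l) := by
      rw [Finset.sum_div, ← Finset.sum_add_distrib]
      refine Finset.sum_congr rfl fun k _ => ?_
      rw [Finset.sum_div, ← Finset.sum_add_distrib]
      refine Finset.sum_congr rfl fun l _ => ?_
      ring
    rw [e3]
    refine add_le_add le_rfl ?_
    have e4 : ∑ k ∈ K, ∑ l ∈ K, (c k * c l) *
        ((EP (nm F) ε fun v => (vv s.frob (A k) (τ k) v *
          conj (vv s.frob (A l) (τ l) v)).re) / lam ε - g k l) ≤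
        ∑ k ∈ K, ∑ l ∈ K, C ^ 2 * δ := by
      refine Finset.sum_le_sum fun k hk => Finset.sum_le_sum fun l hl => ?_
      refine (le_abs_self _).trans ?_
      rw [abs_mul, abs_mul, pow_two]
      have hC0 : 0 ≤ C := (abs_nonneg _).trans (hc k hk)
      exact mul_le_mul (mul_le_mul (hc k hk) (hc l hl) (abs_nonneg _) hC0) (h1 k hk l hl).le
        (abs_nonneg _) (by positivity)
    refine e4.trans ?_
    rw [Finset.sum_const, Finset.sum_const, nsmul_eq_mul, nsmul_eq_mul, ← hn, hδ]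
    have e5 : n * (n * (C ^ 2 * (η / (n ^ 2 * C ^ 2 + 1)))) =
        η * ((n ^ 2 * C ^ 2) / (n ^ 2 * C ^ 2 + 1)) := by ring
    rw [e5]
    have e6 : (n ^ 2 * C ^ 2) / (n ^ 2 * C ^ 2 + 1) ≤ 1 := by
      rw [div_le_one (by positivity)]
      linarith
    nlinarith
  have e7 : (EP (nm F) ε fun v => ‖tn s.t s.w s.S₀ v‖ ^ 2) / lam ε = s.u ε := rfl
  rw [e7]
  linarith

/-- **Bessel's inequality**, with the mean square -/
theorem Sy.bessel2 (s : Sy F) {κ : ℝ} (hκ : s.Bd κ) {ι : Type*} (K : Finset ι)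
    (A : ι → ArtinRep F) (τ : ι → ℝ)
    (h0 : ∀ k ∈ K, ∀ l ∈ K, k ≠ l → τ k = τ l → homDim (A k) (A l) = 0)
    {η : ℝ} (hη : 0 < η) :
    ∀ᶠ ε : ℝ in 𝓝[>] 0, ∑ k ∈ K, X0 s.t s.w s.S₀ s.frob (A k) (τ k) ε ^ 2 /
      homDim (A k) (A k) ≤ κ + η := by
  classical
  set C0 : ℝ := ∑ k ∈ K, 2 * (s.D * (A k).n) with hC0
  have hx : ∀ᶠ ε : ℝ in 𝓝[>] 0, ∀ k ∈ K, |s.x (A k) (τ k) ε| ≤ C0 := by
    rw [Filter.eventually_all_finset]
    intro k hk
    filter_upwards [X0_bound (frob := s.frob) s.hD s.ht (A k) (τ k),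
      lam_tendsto.eventually_gt_atTop 0] with ε h3 h4
    unfold Sy.x X0
    rw [abs_div, abs_of_pos h4, div_le_iff₀ h4]
    refine h3.trans (mul_le_mul_of_nonneg_right ?_ h4.le)
    exact Finset.single_le_sum (f := fun k => 2 * (s.D * ((A k).n : ℝ)))
      (fun k _ => mul_nonneg (by norm_num) (mul_nonneg s.hD (by positivity))) hk
  filter_upwards [hx, hκ (η / 2) (by positivity), s.expand_le K A τ C0 (half_pos hη),
    lam_tendsto.eventually_gt_atTop 0] with ε h1 h2 h3 h4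
  have h5 := h3 (fun k => -(s.x (A k) (τ k) ε / homDim (A k) (A k))) (fun k hk => by
    rw [abs_neg, abs_div]
    rcases Nat.eq_zero_or_pos (homDim (A k) (A k)) with h | h
    · rw [h, Nat.cast_zero, abs_zero, div_zero]
      exact (abs_nonneg _).trans (h1 k hk)
    · have h6 : (1 : ℝ) ≤ homDim (A k) (A k) := by exact_mod_cast h
      rw [abs_of_pos (by linarith : (0 : ℝ) < homDim (A k) (A k))]
      calc |s.x (A k) (τ k) ε| / homDim (A k) (A k) ≤ |s.x (A k) (τ k) ε| / 1 :=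
            div_le_div_of_nonneg_left (abs_nonneg _) one_pos h6
        _ ≤ C0 := by rw [div_one]; exact h1 k hk)
  have h6 : 0 ≤ (EP (nm F) ε fun v => ‖tn s.t s.w s.S₀ v + ∑ k ∈ K,
      ((-(s.x (A k) (τ k) ε / homDim (A k) (A k)) : ℝ) : ℂ) * vv s.frob (A k) (τ k) v‖ ^ 2) /
      lam ε := div_nonneg (EP_nonneg fun v => sq_nonneg _) h4.le
  have h7 := h6.trans h5
  set S := ∑ k ∈ K, s.x (A k) (τ k) ε ^ 2 / homDim (A k) (A k) with hS
  have e1 : ∑ k ∈ K, -(s.x (A k) (τ k) ε / homDim (A k) (A k)) * s.x (A k) (τ k) ε = -S := by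
    rw [hS, ← Finset.sum_neg_distrib]
    exact Finset.sum_congr rfl fun k _ => by ring
  have e2 : ∑ k ∈ K, ∑ l ∈ K, (-(s.x (A k) (τ k) ε / homDim (A k) (A k)) *
      -(s.x (A l) (τ l) ε / homDim (A l) (A l))) *
        (if τ k = τ l then (homDim (A l) (A k) : ℝ) else 0) = S := by
    refine Finset.sum_congr rfl fun k hk => ?_
    rw [Finset.sum_eq_single_of_mem k hk (fun l hl hlk => by
      split_ifs with h
      · rw [h0 l hl k hk hlk h.symm, Nat.cast_zero, mul_zero]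
      · rw [mul_zero]), if_pos rfl]
    rcases Nat.eq_zero_or_pos (homDim (A k) (A k)) with h | h
    · rw [h]
      simp
    · have h8 : (homDim (A k) (A k) : ℝ) ≠ 0 := by exact_mod_cast h.ne'
      field_simp
  rw [e1, e2] at h7
  change S ≤ κ + η
  linarith

/-- the squares of the orders of inequivalent irreducible representations -/
theorem Sy.sum_sq2 (s : Sy F) {κ : ℝ} (hκ : s.Bd κ) {ι : Type*} (K : Finset ι)
    (A : ι → ArtinRep F) (τ : ι → ℝ)
    (m : ι → ℤ) (hirr : ∀ k ∈ K, (A k).ρ.IsIrreducible)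
    (hne : ∀ k ∈ K, ∀ l ∈ K, k ≠ l → τ k = τ l → IsEmpty ((A k).ρ.Equiv (A l).ρ))
    (hlim : ∀ k ∈ K, s.Lim (A k) (τ k) (m k)) : ∑ k ∈ K, (m k : ℝ) ^ 2 ≤ κ := by
  classical
  refine le_of_forall_pos_le_add fun η hη => ?_
  have h1 := s.bessel2 hκ K A τ (fun k hk l hl hkl h => by
    by_contra hcon
    exact (hne k hk l hl hkl h).false
      (equiv_of_homDim (hirr k hk) (hirr l hl) hcon).some) hη
  have h2 : Tendsto (fun ε : ℝ => ∑ k ∈ K, X0 s.t s.w s.S₀ s.frob (A k) (τ k) ε ^ 2 /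
      homDim (A k) (A k)) (𝓝[>] 0) (𝓝 (∑ k ∈ K, (m k : ℝ) ^ 2)) := by
    refine tendsto_finsetSum _ fun k hk => ?_
    have h3 : Tendsto (fun ε : ℝ => X0 s.t s.w s.S₀ s.frob (A k) (τ k) ε) (𝓝[>] 0)
        (𝓝 (-(m k : ℝ))) := hlim k hk
    have h4 := (h3.pow 2).div_const (homDim (A k) (A k) : ℝ)
    rw [homDim_irr (hirr k hk), Nat.cast_one, div_one, neg_sq] at h4
    rw [homDim_irr (hirr k hk), Nat.cast_one]
    exact h4
  exact le_of_tendsto h2 h1

open Classical in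
/-- the list of the exceptional irreducible representations -/
theorem Sy.exists_list2 (s : Sy F) {κ : ℝ} (hκ : s.Bd κ) :
    ∃ T : Finset (ArtinRep F × ℝ × ℤ),
      (∀ y ∈ T, y.1.ρ.IsIrreducible ∧ y.2.2 ≠ 0 ∧ s.Lim y.1 y.2.1 y.2.2) ∧
      (∀ y ∈ T, ∀ z ∈ T, y ≠ z → y.2.1 = z.2.1 → IsEmpty (y.1.ρ.Equiv z.1.ρ)) ∧
      (∑ y ∈ T, (y.2.2 : ℝ) ^ 2 ≤ κ) ∧
      ∀ (A : ArtinRep F) (τ : ℝ) (m : ℤ), A.ρ.IsIrreducible → s.Lim A τ m → m ≠ 0 →
        ∃ y ∈ T, y.2.1 = τ ∧ Nonempty (y.1.ρ.Equiv A.ρ) := by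
  obtain ⟨T, h1, h2, _, h4⟩ := s.exists_list
  exact ⟨T, h1, h2, s.sum_sq2 hκ T (fun y => y.1) (fun y => y.2.1) (fun y => y.2.2)
    (fun y hy => (h1 y hy).1) h2 (fun y hy => (h1 y hy).2.2), h4⟩

/-- **Rigidity**: if the squares of the orders reach the mean square, then the traces are those of
the virtual Artin representation -/
theorem Sy.rigid (s : Sy F) {κ : ℝ} (hκ : s.Bd κ) {ι : Type*} (K : Finset ι)
    (A : ι → ArtinRep F) (τ : ι → ℝ)
    (m : ι → ℤ) (hirr : ∀ k ∈ K, (A k).ρ.IsIrreducible)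
    (hne : ∀ k ∈ K, ∀ l ∈ K, k ≠ l → τ k = τ l → IsEmpty ((A k).ρ.Equiv (A l).ρ))
    (hlim : ∀ k ∈ K, s.Lim (A k) (τ k) (m k)) (hge : κ ≤ ∑ k ∈ K, (m k : ℝ) ^ 2)
    {η : ℝ} (hη : 0 < η) :
    ∀ᶠ ε : ℝ in 𝓝[>] 0, (EP (nm F) ε fun v => ‖tn s.t s.w s.S₀ v +
      ∑ k ∈ K, ((m k : ℝ) : ℂ) * vv s.frob (A k) (τ k) v‖ ^ 2) / lam ε ≤ η := by
  classical
  have hx : Tendsto (fun ε : ℝ => 2 * ∑ k ∈ K, (m k : ℝ) * s.x (A k) (τ k) ε) (𝓝[>] 0)
      (𝓝 (2 * ∑ k ∈ K, (m k : ℝ) * -(m k : ℝ))) :=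
    (tendsto_finsetSum _ fun k hk => (hlim k hk).const_mul _).const_mul _
  have e1 : 2 * ∑ k ∈ K, (m k : ℝ) * -(m k : ℝ) = -(2 * ∑ k ∈ K, (m k : ℝ) ^ 2) := by
    rw [← mul_neg, ← Finset.sum_neg_distrib]
    congr 1
    exact Finset.sum_congr rfl fun k _ => by ring
  rw [e1] at hx
  set C : ℝ := ∑ k ∈ K, |(m k : ℝ)| with hC
  filter_upwards [hκ (η / 3) (by positivity), s.expand_le K A τ C (by positivity : 0 < η / 3),
    hx.eventually_lt_const (by linarith : -(2 * ∑ k ∈ K, (m k : ℝ) ^ 2) <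
      -(2 * ∑ k ∈ K, (m k : ℝ) ^ 2) + η / 3)] with ε h1 h2 h3
  have h4 := h2 (fun k => (m k : ℝ)) (fun k hk =>
    Finset.single_le_sum (f := fun k => |(m k : ℝ)|) (fun k _ => abs_nonneg _) hk)
  have e2 : ∑ k ∈ K, ∑ l ∈ K, ((m k : ℝ) * (m l : ℝ)) *
        (if τ k = τ l then (homDim (A l) (A k) : ℝ) else 0) = ∑ k ∈ K, (m k : ℝ) ^ 2 := by
    refine Finset.sum_congr rfl fun k hk => ?_
    rw [Finset.sum_eq_single_of_mem k hk (fun l hl hlk => by
      split_ifs with h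
      · have h5 : homDim (A l) (A k) = 0 := by
          by_contra hcon
          exact (hne l hl k hk hlk h.symm).false
            (equiv_of_homDim (hirr l hl) (hirr k hk) hcon).some
        rw [h5, Nat.cast_zero, mul_zero]
      · rw [mul_zero]), if_pos rfl, homDim_irr (hirr k hk)]
    push_cast
    ring
  rw [e2] at h4
  refine h4.trans ?_
  linarith

theorem Sy.card_le2 (s : Sy F) {κ₂ : ℝ} (hκ : s.Bd κ₂) {κ : Type*} (K : Finset κ)
    (A : κ → ArtinRep F) (τ : κ → ℝ)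
    (h0 : ∀ k ∈ K, ∀ l ∈ K, k ≠ l → τ k = τ l → homDim (A k) (A l) = 0) {ν : ℕ}
    (hν : ∀ k ∈ K, homDim (A k) (A k) ≤ ν) {c : ℝ} (hc : 0 < c)
    (hexc : ∀ k ∈ K, ¬ s.Non c (A k) (τ k)) : (K.card : ℝ) * c ^ 2 ≤ ν * κ₂ := by
  classical
  have key : ∀ δ : ℝ, 0 < δ → δ < c → (K.card : ℝ) * δ ^ 2 ≤ ν * κ₂ := by
    intro δ hδ0 hδ
    refine le_of_forall_pos_le_add fun e he => ?_
    have hη : 0 < e / (ν + 1) := by positivity
    have h1 := s.bessel2 hκ K A τ h0 hη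
    have h2 : ∀ᶠ ε : ℝ in 𝓝[>] 0, ∀ k ∈ K, δ < |s.x (A k) (τ k) ε| := by
      rw [Filter.eventually_all_finset]
      exact fun k hk => s.exc (hexc k hk) hδ
    obtain ⟨ε, h3, h4⟩ := (h1.and h2).exists
    have h5 : ∀ k ∈ K, δ ^ 2 ≤ ν * (X0 s.t s.w s.S₀ s.frob (A k) (τ k) ε ^ 2 /
        homDim (A k) (A k)) := by
      intro k hk
      have h6 := homDim_self_pos (s.n_ne_zero hc (hexc k hk))
      have h7 : (0 : ℝ) < homDim (A k) (A k) := by exact_mod_cast Nat.pos_of_ne_zero h6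
      have h8 : (homDim (A k) (A k) : ℝ) ≤ ν := by exact_mod_cast hν k hk
      have h9 : δ ^ 2 ≤ X0 s.t s.w s.S₀ s.frob (A k) (τ k) ε ^ 2 := by
        rw [← sq_abs (X0 s.t s.w s.S₀ s.frob (A k) (τ k) ε)]
        exact pow_le_pow_left₀ hδ0.le (h4 k hk).le 2
      rw [mul_div_assoc', le_div_iff₀ h7]
      calc δ ^ 2 * (homDim (A k) (A k) : ℝ) ≤ δ ^ 2 * ν :=
            mul_le_mul_of_nonneg_left h8 (by positivity)
        _ ≤ X0 s.t s.w s.S₀ s.frob (A k) (τ k) ε ^ 2 * ν :=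
            mul_le_mul_of_nonneg_right h9 (by positivity)
        _ = _ := by ring
    have h6 : (K.card : ℝ) * δ ^ 2 ≤ ν * (κ₂ + e / (ν + 1)) := by
      calc (K.card : ℝ) * δ ^ 2 = ∑ _k ∈ K, δ ^ 2 := by rw [Finset.sum_const, nsmul_eq_mul]
        _ ≤ ∑ k ∈ K, ν * (X0 s.t s.w s.S₀ s.frob (A k) (τ k) ε ^ 2 / homDim (A k) (A k)) :=
            Finset.sum_le_sum h5
        _ = ν * ∑ k ∈ K, (X0 s.t s.w s.S₀ s.frob (A k) (τ k) ε ^ 2 / homDim (A k) (A k)) := by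
            rw [Finset.mul_sum]
        _ ≤ _ := mul_le_mul_of_nonneg_left h3 (by positivity)
    refine h6.trans ?_
    rw [mul_add]
    have h7 : (ν : ℝ) * (e / (ν + 1)) ≤ e := by
      rw [mul_div_assoc', div_le_iff₀ (by positivity)]
      nlinarith
    linarith
  have h1 : Tendsto (fun δ : ℝ => (K.card : ℝ) * δ ^ 2) (𝓝[<] c) (𝓝 ((K.card : ℝ) * c ^ 2)) := by
    have : Continuous fun δ : ℝ => (K.card : ℝ) * δ ^ 2 := by fun_prop
    exact (this.tendsto c).mono_left nhdsWithin_le_nhds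
  refine le_of_tendsto h1 ?_
  filter_upwards [Ioo_mem_nhdsLT hc] with δ hδ
  exact key δ hδ.1 hδ.2

open Classical in
/-- a maximal disjoint family of exceptional representations -/
theorem Sy.exists_max2 (s : Sy F) {κ₂ : ℝ} (hκ : s.Bd κ₂) (ν : ℕ) {c : ℝ} (hc : 0 < c) :
    ∃ T : Finset (ArtinRep F × ℝ), ((T.card : ℝ) * c ^ 2 ≤ ν * κ₂) ∧
      ∀ (A : ArtinRep F) (τ : ℝ), homDim A A ≤ ν → ¬ s.Non c A τ →
        ∃ y ∈ T, y.2 = τ ∧ homDim y.1 A ≠ 0 := by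
  set P : Finset (ArtinRep F × ℝ) → Prop := fun T =>
    (∀ y ∈ T, homDim y.1 y.1 ≤ ν ∧ ¬ s.Non c y.1 y.2) ∧
    ∀ y ∈ T, ∀ z ∈ T, y ≠ z → y.2 = z.2 → homDim y.1 z.1 = 0 with hP
  have hcard : ∀ T, P T → (T.card : ℝ) * c ^ 2 ≤ ν * κ₂ := fun T hT =>
    s.card_le2 hκ T (fun y => y.1) (fun y => y.2) hT.2 (fun y hy => (hT.1 y hy).1) hc
      (fun y hy => (hT.1 y hy).2)
  have hB : ∀ T, P T → T.card ≤ ⌊ν * κ₂ / c ^ 2⌋₊ := by
    intro T hT
    refine Nat.le_floor ?_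
    rw [le_div_iff₀ (by positivity)]
    exact hcard T hT
  have h0 : ∃ T, P T ∧ T.card = 0 := ⟨∅, ⟨by simp, by simp⟩, rfl⟩
  obtain ⟨T, hT, hTc⟩ := Nat.findGreatest_spec (P := fun n => ∃ T, P T ∧ T.card = n)
    (Nat.zero_le ⌊ν * κ₂ / c ^ 2⌋₊) h0
  refine ⟨T, hcard T hT, fun A τ hA hexc => ?_⟩
  by_contra hcon
  push Not at hcon
  have hnot : (A, τ) ∉ T := fun hmem => homDim_self_pos (s.n_ne_zero hc hexc)
    (hcon (A, τ) hmem rfl)
  have hT1 : P (insert (A, τ) T) := by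
    refine ⟨fun y hy => ?_, fun y hy z hz hyz h => ?_⟩
    · rcases Finset.mem_insert.1 hy with rfl | hy
      · exact ⟨hA, hexc⟩
      · exact hT.1 y hy
    · rcases Finset.mem_insert.1 hy with rfl | hy
      · rcases Finset.mem_insert.1 hz with rfl | hz
        · exact absurd rfl hyz
        · rw [homDim_symm]
          exact hcon z hz h.symm
      · rcases Finset.mem_insert.1 hz with rfl | hz
        · exact hcon y hy h
        · exact hT.2 y hy z hz hyz h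
  have h2 := Nat.le_findGreatest (P := fun n => ∃ T, P T ∧ T.card = n) (hB _ hT1)
    ⟨_, hT1, rfl⟩
  rw [Finset.card_insert_of_notMem hnot, hTc] at h2
  omega

end

end Pool.Agent.W385.GA
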